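import Pool.Agent.P.MP_714120_an.Sub

/-! The Beltrami equation of the Gauss map and the isothermal chart. -/

open Complex Filter Topology MeasureTheory Set
open scoped Real ComplexConjugate

noncomputable section
namespace Pool.Agent.P.MP_714120_an

theorem Nf_eq (u : ℂ → ℝ) (z : ℂ) : Nf u z * (Wf u z + 1) = Wf u z - 1 := by
  have h1 := Wf_sq u z
  have h2 := one_le_Wf u z
  have e : (1 + (Wf u z : ℂ)) = ((1 + Wf u z : ℝ) : ℂ) := by push_cast; ring
  have e2 : (ux u z : ℂ) - I * (uy u z : ℂ) = (ux u z : ℂ) + ((-uy u z : ℝ) : ℂ) * I := by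
    push_cast; ring
  rw [Nf, phi, map_div₀, e, e2, normSq_ofReal, normSq_add_mul_I]
  field_simp
  linear_combination (-(Wf u z + 1)) * h1

theorem Nf_lt (u : ℂ → ℝ) (z : ℂ) : Nf u z < 1 := by
  have h1 := Nf_eq u z
  have h2 := one_le_Wf u z
  by_contra h; push Not at h; nlinarith

theorem Nf_nonneg (u : ℂ → ℝ) (z : ℂ) : 0 ≤ Nf u z := normSq_nonneg _

theorem phi_mul_conj (u : ℂ → ℝ) (z : ℂ) : phi u z * conj (phi u z) = Nf u z := mul_conj _

theorem phi_mul (u : ℂ → ℝ) (z : ℂ) :
    phi u z * (1 + (Wf u z : ℂ)) = (ux u z : ℂ) - I * (uy u z : ℂ) := by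
  have h2 := one_le_Wf u z
  have : (1 + (Wf u z : ℂ)) ≠ 0 := by
    rw [← ofReal_one, ← ofReal_add, ofReal_ne_zero]; linarith
  rw [phi]; field_simp

theorem Gam_eq (u : ℂ → ℝ) (z : ℂ) :
    ((ux u z : ℂ) - I * (uy u z : ℂ)) * (1 - phi u z * conj (phi u z)) = 2 * phi u z := by
  have h := congrArg (ofReal) (Nf_eq u z)
  push_cast at h
  rw [phi_mul_conj, ← phi_mul]
  linear_combination (-phi u z) * h

theorem nu_eq (u : ℂ → ℝ) (z : ℂ) :
    (((ux u z / Wf u z : ℝ) : ℂ) - I * ((uy u z / Wf u z : ℝ) : ℂ)) *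
      (1 + phi u z * conj (phi u z)) = 2 * phi u z := by
  have h := congrArg (ofReal) (Nf_eq u z)
  have h2 := one_le_Wf u z
  have h3 : (Wf u z : ℂ) ≠ 0 := by rw [ofReal_ne_zero]; linarith
  have h4 := phi_mul u z
  push_cast at h ⊢
  rw [phi_mul_conj]
  field_simp
  linear_combination (-(1 + (Nf u z : ℂ))) * h4 + phi u z * h

theorem bel : S_Bel := by
  intro u H z hz
  have c2 := H.c2 z hz
  have hW := one_le_Wf u z
  have cφ : ContDiffAt ℝ 1 (phi u) z := by
    have h1 : ContDiffAt ℝ 1 (fun z => (ux u z : ℂ) - I * (uy u z : ℂ)) z :=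
      (ofRealCLM.contDiff.contDiffAt.comp _ (contDiffAt_ux c2)).sub
        (contDiffAt_const.mul (ofRealCLM.contDiff.contDiffAt.comp _ (contDiffAt_uy c2)))
    have h2 : ContDiffAt ℝ 1 (fun z => 1 + (Wf u z : ℂ)) z :=
      contDiffAt_const.add (ofRealCLM.contDiff.contDiffAt.comp _ (contDiffAt_Wf c2))
    have h3 := h1.mul (h2.inv (by rw [← ofReal_one, ← ofReal_add, ofReal_ne_zero]; linarith))
    exact h3
  have hN := Nf_lt u z
  have hN0 := Nf_nonneg u z
  have hN1 : (1 - (Nf u z : ℂ)) ≠ 0 := by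
    rw [← ofReal_one, ← ofReal_sub, ofReal_ne_zero]; linarith
  refine ⟨cφ, hN, ?_, ?_, ?_⟩
  · have dφ := (cφ.differentiableAt one_ne_zero).hasFDerivAt
    set L := fderiv ℝ (phi u) z with hL
    have dN := dφ.mul (conjCLE.hasFDerivAt.comp z dφ)
    have key : ∀ (F G : ℂ → ℝ) (σ : ℂ), ContDiffAt ℝ 1 F z → ContDiffAt ℝ 1 G z →
        (∀ w, ((F w : ℂ) - I * (G w : ℂ)) * (1 + σ * (phi u w * conj (phi u w))) = 2 * phi u w) →
        ∀ d, ((fderiv ℝ F z d : ℂ) - I * (fderiv ℝ G z d : ℂ)) *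
          (1 + σ * (phi u z * conj (phi u z))) ^ 2 =
          2 * (L d - σ * phi u z ^ 2 * conj (L d)) := by
      intro F G σ hF hG e d
      have dF := ofRealCLM.hasFDerivAt.comp z (hF.differentiableAt one_ne_zero).hasFDerivAt
      have dG := ofRealCLM.hasFDerivAt.comp z (hG.differentiableAt one_ne_zero).hasFDerivAt
      have d1 : HasFDerivAt (fun w => ((F w : ℂ) - I * (G w : ℂ)) *
          (1 + σ * (phi u w * conj (phi u w)))) _ z :=
        (dF.sub (dG.const_mul I)).mul ((dN.const_mul σ).const_add 1)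
      rw [funext e] at d1
      have d2 := congrArg (fun T : ℂ →L[ℝ] ℂ => T d) (d1.unique (dφ.const_mul 2))
      simp at d2
      linear_combination (1 + σ * (phi u z * conj (phi u z))) * d2 -
        σ * (phi u z * conj (L d) + conj (phi u z) * L d) * e z
    have k1 := key (ux u) (uy u) (-1) (contDiffAt_ux c2) (contDiffAt_uy c2)
      (fun w => by linear_combination Gam_eq u w)
    have k2 := key (fun w => ux u w / Wf u w) (fun w => uy u w / Wf u w) 1
      ((contDiffAt_ux c2).div (contDiffAt_Wf c2) (by linarith))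
      ((contDiffAt_uy c2).div (contDiffAt_Wf c2) (by linarith))
      (fun w => by linear_combination nu_eq u w)
    have hsym : fderiv ℝ (ux u) z I = fderiv ℝ (uy u) z 1 := by
      have h := ((c2.fderiv_right (m := 1) le_rfl).differentiableAt one_ne_zero).hasFDerivAt
      have h1 : HasFDerivAt (ux u) _ z := h.clm_apply (hasFDerivAt_const (1 : ℂ) z)
      have h2 : HasFDerivAt (uy u) _ z := h.clm_apply (hasFDerivAt_const I z)
      rw [h1.fderiv, h2.fderiv]
      simpa using (c2.isSymmSndFDerivAt (by simp)).eq I 1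
    have hm := H.mse z hz
    unfold mseAt at hm
    rw [phi_mul_conj] at k1 k2
    set P := phi u z ^ 2 with hP
    have r1 : (1 + -1 * (Nf u z : ℂ)) ^ 2 = (((1 - Nf u z) ^ 2 : ℝ) : ℂ) := by push_cast; ring
    have r2 : (1 + 1 * (Nf u z : ℂ)) ^ 2 = (((1 + Nf u z) ^ 2 : ℝ) : ℂ) := by push_cast; ring
    rw [r1] at k1
    rw [r2] at k2
    have a1 := congrArg im (k1 1)
    have a2 := congrArg re (k1 I)
    have a3 := congrArg re (k2 1)
    have a4 := congrArg im (k2 I)
    simp [-ofReal_pow, -ofReal_sub, -ofReal_add] at a1 a2 a3 a4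
    have b : (L 1 + I * L I) = (L 1 - I * L I) * conj P := by
      apply Complex.ext
      · simp; linear_combination (1 / 2) * (-a3 + a4 + (1 + Nf u z) ^ 2 * hm)
      · simp; linear_combination (1 / 2) * (-a1 - a2 + (1 - Nf u z) ^ 2 * hsym)
    refine dφ.congr_fderiv ?_
    have e : conj (phi u z) ^ 2 = conj P := by rw [hP, map_pow]
    ext d
    have hd := re_add_im d
    have hd' : conj d = d.re - d.im * I := by apply Complex.ext <;> simp
    rw [clm_apply_eq L d]
    simp only [rlin_apply, dphi, ← hL, e, hd', real_smul]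
    linear_combination (d.re - d.im * I) / 2 * b + (L 1 - I * L I) / 2 * hd + d.im * L I * I_sq
  · refine (c2.differentiableAt two_ne_zero).hasFDerivAt.congr_fderiv ?_
    have : 2 * phi u z / (1 - (Nf u z : ℂ)) = (ux u z : ℂ) - I * (uy u z : ℂ) := by
      rw [div_eq_iff hN1, ← phi_mul_conj, Gam_eq]
    rw [this]
    ext d
    rw [clm_apply_eq]; simp [ux, uy]; ring
  · have := (cφ.fderiv_right (m := 0) le_rfl).continuousAt
    exact ((this.clm_apply continuousAt_const).sub
      (continuousAt_const.mul (this.clm_apply continuousAt_const))).div_const 2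

end Pool.Agent.P.MP_714120_an
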