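import Pool.Agent.P.MP_714120_an.Calib

/-! The divergence identity for the calibration on the cylinder. -/

open Filter Topology Set

noncomputable section
namespace Pool.Agent.P.MP_714120_an.LP

attribute [local irreducible] Psi Sg Eps Ee Mu A0 B0

def aF (g p y : ℝ × ℝ → ℝ) (q : ℝ × ℝ) : ℝ :=
  ev3 (g q) (p q) (y q) A0 + ev3 (g q) (p q) (y q) (dY Psi) * fderiv ℝ y q (0, 1) -
    ev3 (g q) (p q) (y q) (dZ Psi) * fderiv ℝ p q (0, 1)

def bF (g p y : ℝ × ℝ → ℝ) (q : ℝ × ℝ) : ℝ :=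
  ev3 (g q) (p q) (y q) B0 + ev3 (g q) (p q) (y q) (dZ Psi) * fderiv ℝ p q (1, 0) -
    ev3 (g q) (p q) (y q) (dY Psi) * fderiv ℝ y q (1, 0)

theorem contDiffAt_dir {F : ℝ × ℝ → ℝ} {q : ℝ × ℝ} (hF : ContDiffAt ℝ 2 F q) (v : ℝ × ℝ) :
    ContDiffAt ℝ 1 (fun q => fderiv ℝ F q v) q :=
  (hF.fderiv_right (m := 1) le_rfl).clm_apply contDiffAt_const

theorem hasFDerivAt_dir {F : ℝ × ℝ → ℝ} {q : ℝ × ℝ} (hF : ContDiffAt ℝ 2 F q) (v : ℝ × ℝ) :
    HasFDerivAt (fun q => fderiv ℝ F q v) ((fderiv ℝ (fderiv ℝ F) q).flip v) q := by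
  have h := ((hF.fderiv_right (m := 1) le_rfl).differentiableAt one_ne_zero).hasFDerivAt
  have := h.clm_apply (hasFDerivAt_const v q)
  refine this.congr_fderiv ?_
  ext <;> simp

theorem calib_id {g p y : ℝ × ℝ → ℝ} {q : ℝ × ℝ} (hg : ContDiffAt ℝ 2 g q)
    (hp : ContDiffAt ℝ 2 p q) (hy : ContDiffAt ℝ 2 y q) (h1 : fderiv ℝ g q (1, 0) = p q)
    (h2 : fderiv ℝ g q (0, 1) = y q) (h3 : fderiv ℝ p q (0, 1) = fderiv ℝ y q (1, 0)) :
    ContDiffAt ℝ 1 (aF g p y) q ∧ ContDiffAt ℝ 1 (bF g p y) q ∧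
    fderiv ℝ (aF g p y) q (1, 0) + fderiv ℝ (bF g p y) q (0, 1) =
      ev3 (g q) (p q) (y q) c0 + ev3 (g q) (p q) (y q) c1 * fderiv ℝ p q (1, 0) +
      ev3 (g q) (p q) (y q) c2 * fderiv ℝ y q (1, 0) +
      ev3 (g q) (p q) (y q) c3 * fderiv ℝ y q (0, 1) +
      ev3 (g q) (p q) (y q) PP *
        (fderiv ℝ p q (1, 0) * fderiv ℝ y q (0, 1) - fderiv ℝ y q (1, 0) ^ 2) := by
  have e : ∀ P : P3, ContDiffAt ℝ 1 (fun q => ev3 (g q) (p q) (y q) P) q := fun P =>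
    contDiffAt_ev3 (hg.of_le one_le_two) (hp.of_le one_le_two) (hy.of_le one_le_two) P
  refine ⟨((e _).add ((e _).mul (contDiffAt_dir hy _))).sub ((e _).mul (contDiffAt_dir hp _)),
    ((e _).add ((e _).mul (contDiffAt_dir hp _))).sub ((e _).mul (contDiffAt_dir hy _)), ?_⟩
  have d := hasFDerivAt_ev3 (hg.differentiableAt two_ne_zero).hasFDerivAt
    (hp.differentiableAt two_ne_zero).hasFDerivAt (hy.differentiableAt two_ne_zero).hasFDerivAt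
  have ha : HasFDerivAt (aF g p y) _ q :=
    ((d A0).add ((d (dY Psi)).mul (hasFDerivAt_dir hy (0, 1)))).sub
      ((d (dZ Psi)).mul (hasFDerivAt_dir hp (0, 1)))
  have hb : HasFDerivAt (bF g p y) _ q :=
    ((d B0).add ((d (dZ Psi)).mul (hasFDerivAt_dir hp (1, 0)))).sub
      ((d (dY Psi)).mul (hasFDerivAt_dir hy (1, 0)))
  have sp := (hp.isSymmSndFDerivAt (by simp)).eq (1, 0) (0, 1)
  have sy := (hy.isSymmSndFDerivAt (by simp)).eq (1, 0) (0, 1)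
  rw [ha.fderiv, hb.fderiv]
  simp only [add_apply, sub_apply,
    smul_apply, ContinuousLinearMap.flip_apply, smul_eq_mul, h1, h2, h3, sp, sy,
    c0, c1, c2, c3, PP, ev3_add, ev3_sub, ev3_mY, ev3_mZ]
  ring

end Pool.Agent.P.MP_714120_an.LP
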