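import Pool.Agent.P.MP_714120_an.Data

namespace Pool.Agent.P.MP_714120_an.LP

theorem chk_F2 : checkCube 18 17 9 (.sY (.sZ (.sX .leaf .leaf) (.sX .leaf .leaf)) (.sZ .leaf .leaf))
    (subX (-1) Ff) = true := by
  decide +kernel

end Pool.Agent.P.MP_714120_an.LP
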