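import Pool.Agent.P.MP_714120_an.Cert1
import Pool.Agent.P.MP_714120_an.Cert2
import Pool.Agent.P.MP_714120_an.Cert3

/-! Real-variable consequences of the certificates. -/

open Filter Topology Set

namespace Pool.Agent.P.MP_714120_an.LP

attribute [local irreducible] Psi Sg Eps Ee Mu c0 c1 c2 c3 PP A0 B0

theorem region_of_cube {P : P3}
    (h1 : ∀ s u v : ℝ, s ∈ Icc (0 : ℝ) 1 → u ∈ Icc (0 : ℝ) 1 → v ∈ Icc (0 : ℝ) 1 →
      0 ≤ ev3 s u v (subX 1 P))
    (h2 : ∀ s u v : ℝ, s ∈ Icc (0 : ℝ) 1 → u ∈ Icc (0 : ℝ) 1 → v ∈ Icc (0 : ℝ) 1 →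
      0 ≤ ev3 s u v (subX (-1) P))
    {g p y : ℝ} (hg : 0 ≤ g) (h : (g + |p|) ^ 2 + y ^ 2 ≤ 1) : 0 ≤ ev3 g p (y ^ 2) P := by
  set s := g + |p| with hs
  have hp := abs_nonneg p
  have hs0 : 0 ≤ s := by positivity
  have hs1 : s ≤ 1 := by nlinarith [sq_nonneg y]
  obtain ⟨u, hu, hu1, hu2⟩ : ∃ u ∈ Icc (0 : ℝ) 1, s * u = g ∧ s * (1 - u) = |p| := by
    rcases hs0.lt_or_eq with h0 | h0
    · refine ⟨g / s, ⟨by positivity, by rw [div_le_one h0]; linarith⟩, by field_simp, ?_⟩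
      field_simp; linarith
    · refine ⟨0, ⟨le_rfl, zero_le_one⟩, by linarith, by linarith⟩
  obtain ⟨v, hv, hv1⟩ : ∃ v ∈ Icc (0 : ℝ) 1, (1 - s ^ 2) * v = y ^ 2 := by
    have h3 : 0 ≤ 1 - s ^ 2 := by nlinarith [sq_nonneg y]
    rcases h3.lt_or_eq with h0 | h0
    · refine ⟨y ^ 2 / (1 - s ^ 2), ⟨by positivity, by rw [div_le_one h0]; linarith⟩, by field_simp⟩
    · refine ⟨0, ⟨le_rfl, zero_le_one⟩, by nlinarith [sq_nonneg y]⟩
  rcases le_total 0 p with hp0 | hp0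
  · have := h1 s u v ⟨hs0, hs1⟩ hu hv
    rw [ev3_subX, hu1, hv1] at this
    have e : ((1 : ℤ) : ℝ) * s * (1 - u) = p := by
      rw [abs_of_nonneg hp0] at hu2; push_cast; linarith
    rwa [e] at this
  · have := h2 s u v ⟨hs0, hs1⟩ hu hv
    rw [ev3_subX, hu1, hv1] at this
    have e : ((-1 : ℤ) : ℝ) * s * (1 - u) = p := by
      rw [abs_of_nonpos hp0] at hu2; push_cast; linarith
    rwa [e] at this

theorem Ee_nonneg {g p y : ℝ} (hg : 0 ≤ g) (h : (g + |p|) ^ 2 + y ^ 2 ≤ 1) :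
    0 ≤ ev3 g p (y ^ 2) Ee :=
  region_of_cube (fun _ _ _ a b c => cube_nonneg chk_E1 a b c)
    (fun _ _ _ a b c => cube_nonneg chk_E2 a b c) hg h

theorem Ff_nonneg {g p y : ℝ} (hg : 0 ≤ g) (h : (g + |p|) ^ 2 + y ^ 2 ≤ 1) :
    0 ≤ ev3 g p (y ^ 2) Ff :=
  region_of_cube (fun _ _ _ a b c => cube_nonneg chk_F1 a b c)
    (fun _ _ _ a b c => cube_nonneg chk_F2 a b c) hg h

theorem perturb {P : P3}
    (hP : ∀ g p y : ℝ, 0 ≤ g → (g + |p|) ^ 2 + y ^ 2 ≤ 1 → 0 ≤ ev3 g p (y ^ 2) P) :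
    ∃ L : ℝ, 0 ≤ L ∧ ∀ η g p y : ℝ, 0 ≤ η → η ≤ 1 → 0 ≤ g → (g + |p|) ^ 2 + y ^ 2 ≤ 1 + η →
      -(L * η) ≤ ev3 g p (y ^ 2) P := by
  set Φ : ℝ × ℝ × ℝ → ℝ := fun v => ev3 v.1 v.2.1 (v.2.2 ^ 2) P with hΦ
  have hc : ContDiff ℝ 1 Φ := contDiff_iff_contDiffAt.2 fun v =>
    contDiffAt_ev3 (by fun_prop) (by fun_prop) (by fun_prop) P
  obtain ⟨K, hK⟩ := (hc.locallyLipschitz.locallyLipschitzOn
    (s := Metric.closedBall 0 2)).exists_lipschitzOnWith_of_compact (isCompact_closedBall 0 2)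
  refine ⟨2 * K, by positivity, fun η g p y h0 h1 hg h => ?_⟩
  set l := 1 / (1 + η) with hl
  have hl0 : 0 < l := by positivity
  have hl1 : l * (1 + η) = 1 := by rw [hl]; field_simp
  have hl2 : l ≤ 1 := by nlinarith
  have hl3 : 1 - l ≤ η := by nlinarith
  have hp := abs_nonneg p
  have hs : g + |p| ≤ 2 := by nlinarith [sq_nonneg y]
  have hy : |y| ≤ 2 := by
    rw [abs_le]; constructor <;> nlinarith [sq_nonneg (g + |p|)]
  have hv : ‖((g, p, y) : ℝ × ℝ × ℝ)‖ ≤ 2 := by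
    simp only [Prod.norm_def, Real.norm_eq_abs, abs_of_nonneg hg, max_le_iff]
    exact ⟨by linarith, by linarith, hy⟩
  have h2 : 0 ≤ Φ (l • (g, p, y)) := by
    simp only [hΦ, Prod.smul_mk, smul_eq_mul]
    refine hP _ _ _ (by positivity) ?_
    rw [abs_mul, abs_of_pos hl0]
    have : (l * g + l * |p|) ^ 2 + (l * y) ^ 2 = l ^ 2 * ((g + |p|) ^ 2 + y ^ 2) := by ring
    rw [this]
    calc l ^ 2 * ((g + |p|) ^ 2 + y ^ 2) ≤ l ^ 2 * (1 + η) := by gcongr
      _ = l := by rw [sq, mul_assoc, hl1, mul_one]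
      _ ≤ 1 := hl2
  have h3 := hK.dist_le_mul (l • (g, p, y)) (by
    rw [mem_closedBall_zero_iff, norm_smul, Real.norm_eq_abs, abs_of_pos hl0]
    nlinarith [norm_nonneg ((g, p, y) : ℝ × ℝ × ℝ)]) (g, p, y) (by rwa [mem_closedBall_zero_iff])
  have h4 : dist (l • ((g, p, y) : ℝ × ℝ × ℝ)) (g, p, y) ≤ η * 2 := by
    rw [dist_eq_norm]
    have : l • ((g, p, y) : ℝ × ℝ × ℝ) - (g, p, y) = (l - 1) • (g, p, y) := by
      rw [sub_smul, one_smul]
    rw [this, norm_smul, Real.norm_eq_abs, abs_of_nonpos (by linarith)]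
    exact mul_le_mul (by linarith) hv (norm_nonneg _) h0
  have h5 : Φ (l • (g, p, y)) - Φ (g, p, y) ≤ K * (η * 2) := by
    calc _ ≤ |Φ (l • (g, p, y)) - Φ (g, p, y)| := le_abs_self _
      _ ≤ K * dist (l • ((g, p, y) : ℝ × ℝ × ℝ)) (g, p, y) := by rwa [← Real.dist_eq]
      _ ≤ _ := by gcongr
  have : Φ (g, p, y) = ev3 g p (y ^ 2) P := rfl
  linarith

@[simp] theorem ev3_mx (x y z : ℝ) (P : P3) : ev3 x y z (mx P) = (x + y) * ev3 x y z P := by
  simp [mx]; ring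
@[simp] theorem ev3_mN (x y z : ℝ) (P : P3) :
    ev3 x y z (mN P) = ((x + y) ^ 2 + z) * ev3 x y z P := by simp [mN]; ring
@[simp] theorem ev3_mN2 (x y z : ℝ) (P : P3) :
    ev3 x y z (mN2 P) = ((x + y) ^ 2 + z ^ 2) * ev3 x y z P := by simp [mN2]; ring

theorem p_sq_le {g p y η : ℝ} (hg : 0 ≤ g) (hR : (g + |p|) ^ 2 + y ^ 2 ≤ 1 + η) (h : η ≤ 1) :
    p ^ 2 ≤ 2 := by
  have := abs_nonneg p
  have h3 : |p| ^ 2 ≤ (g + |p|) ^ 2 := by gcongr; linarith
  rw [sq_abs] at h3; linarith [sq_nonneg y]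

theorem pE_le {a p E : ℝ} (ha : 0 ≤ a) (hp : p ^ 2 ≤ 2) (hE : -a ≤ E) : -(2 * a) ≤ p ^ 2 * E := by
  nlinarith [sq_nonneg p]

theorem fin_ineq {N e τ a b M X : ℝ} (h0 : 0 ≤ N) (h1 : N ≤ 1) (hτ : 0 ≤ τ) (ha : 0 ≤ a) (hb : 0 ≤ b)
    (he : -(2 * a) ≤ e) (hc : (3 - N) * (4 * τ) ≤ (1 + N) * (1 - N) ^ 2)
    (hF : -b ≤ 4 * (3 - N) * e + (1 - N) ^ 2 * M) (key : (1 + N) * X = (1 + N) * e + τ * M) :
    -(2 * a + b) ≤ X := by
  have hN : 0 < 1 + N := by linarith
  rcases le_total 0 M with hM | hM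
  · have h2 : 0 ≤ τ * M := by positivity
    have : (1 + N) * e ≤ (1 + N) * X := by linarith
    have := le_of_mul_le_mul_left this hN
    linarith
  · have h4 : (1 + N) * (1 - N) ^ 2 * M ≤ (3 - N) * (4 * τ) * M := mul_le_mul_of_nonpos_right hc hM
    have h5 := mul_le_mul_of_nonneg_left hF hN.le
    have h6 : (1 + N) * (-b) ≤ (1 + N) * (4 * (3 - N) * X) := by
      have : (1 + N) * (4 * (3 - N) * X) = 4 * (3 - N) * ((1 + N) * e + τ * M) := by
        rw [← key]; ring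
      rw [this]; linarith
    have h7 := le_of_mul_le_mul_left h6 hN
    by_contra hcon
    push Not at hcon
    have h8 : X < -b := by linarith
    nlinarith

/-- the main pointwise inequality -/
theorem main_ineq : ∃ L : ℝ, 0 ≤ L ∧ ∀ η g p y P1 h Y2 T : ℝ, 0 ≤ η → η ≤ 1 → 0 < g →
    (g + |p|) ^ 2 + y ^ 2 ≤ 1 + η → (g + p) ^ 2 + y ^ 2 ≤ 1 →
    (P1 + p) * (Y2 + (g + p)) - h ^ 2 = -T → 0 ≤ T →
    (1 + ((g + p) ^ 2 + y ^ 2)) * ((P1 + p) + (Y2 + (g + p))) = -(4 * g * T) →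
    (3 - ((g + p) ^ 2 + y ^ 2)) * (4 * g ^ 2 * T) ≤
      (1 + ((g + p) ^ 2 + y ^ 2)) * (1 - ((g + p) ^ 2 + y ^ 2)) ^ 2 →
    ev3 g p y Eps - L * η ≤ ev3 g p y c0 + ev3 g p y c1 * P1 + ev3 g p y c2 * h +
      ev3 g p y c3 * Y2 + ev3 g p y PP * (P1 * Y2 - h ^ 2) := by
  obtain ⟨L1, hL1, h1⟩ := perturb (P := Ee) fun g p y => Ee_nonneg
  obtain ⟨L2, hL2, h2⟩ := perturb (P := Ff) fun g p y => Ff_nonneg
  refine ⟨2 * L1 + L2, by positivity, fun η g p y P1 h Y2 T h0 h1' hg hR hN hdet hT htr hcurv => ?_⟩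
  have e2 := isz3_ev id_c2 g p y
  have e1 := isz3_ev id_c1 g p y
  have ee := isz3_ev id_e g p y
  have em := isz3_ev id_mu g p y
  simp only [ev3_sub, ev3_add, ev3_mX, ev3_mY, ev3_sqZ, ev3_sm, ev3_mN2, e00, mm, ev3_mx] at e1 ee em
  have hE := h1 η g p y h0 h1' hg.le hR
  have hF := h2 η g p y h0 h1' hg.le hR
  simp only [Ff, ev3_sub, ev3_add, ev3_mY, ev3_sm, ev3_mN] at hF
  set N := (g + p) ^ 2 + y ^ 2 with hNdef
  set E := ev3 g p (y ^ 2) Ee
  set M := ev3 g p (y ^ 2) Mu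
  set C0 := ev3 g p y c0
  set C1 := ev3 g p y c1
  set C3 := ev3 g p y c3
  set Q := ev3 g p y PP
  set ε := ev3 g p y Eps
  have hN0 : 0 ≤ N := by positivity
  push_cast at em hF
  have key : (1 + N) * (C0 + C1 * P1 + ev3 g p y c2 * h + C3 * Y2 + Q * (P1 * Y2 - h ^ 2) - ε) =
      (1 + N) * (p ^ 2 * E) + g ^ 2 * T * M := by
    rw [e2]
    have a3 : C3 = C1 - g * Q := by linarith
    rw [a3] at ee ⊢
    linear_combination (1 + N) * ee + (1 + N) * Q * hdet + (C1 - (g + p) * Q) * htr - T * em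
  have hp2 : p ^ 2 ≤ 2 := p_sq_le hg.le hR h1'
  have := fin_ineq (e := p ^ 2 * E) (τ := g ^ 2 * T) (a := L1 * η) (b := L2 * η) (M := M)
    hN0 hN (by positivity) (by positivity) (by positivity) (pE_le (by positivity) hp2 hE)
    (by linarith) (by linarith) key
  linarith

theorem bound_ev3 (P : P3) (R : ℝ) : ∃ C : ℝ, 0 ≤ C ∧ ∀ x y z : ℝ, |x| ≤ R → |y| ≤ R → |z| ≤ R →
    |ev3 x y z P| ≤ C := by
  have hc : Continuous fun v : ℝ × ℝ × ℝ => ev3 v.1 v.2.1 v.2.2 P :=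
    continuous_ev3 (by fun_prop) (by fun_prop) (by fun_prop) P
  obtain ⟨C, hC⟩ := (isCompact_closedBall (0 : ℝ × ℝ × ℝ) R).exists_bound_of_continuousOn
    hc.continuousOn
  refine ⟨max C 0, le_max_right _ _, fun x y z hx hy hz => ?_⟩
  have := hC (x, y, z) (by
    simp only [mem_closedBall_zero_iff, Prod.norm_def, Real.norm_eq_abs, max_le_iff]
    exact ⟨hx, hy, hz⟩)
  exact this.trans (le_max_left _ _)

/-! The one-dimensional Lagrangian and its field of extremals. -/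

def Kl : P3 := [[],
  [],
  [[0, 3009825000]],
  [],
  [[0, -14447160000, 0, -4815720000]],
  [],
  [[0, 37361961000, 0, 24907974000, 0, 7472392200]],
  [],
  [[0, -56253629250, 0, -56253629250, 0, -33752177550, 0, -8036232750]],
  [],
  [[0, 49415306850, 0, 65887075800, 0, 59298368220, 0, 28237318200, 0, 5490589650]],
  [],
  [[0, -23506733250, 0, -39177888750, 0, -47013466500, 0, -33581047500, 0, -13059296250, 0,
    -2136975750]],
  [],
  [[0, 4682427750, 0, 9364855500, 0, 14047283250, 0, 13378365000, 0, 7804046250, 0, 2554051500, 0,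
    360186750]]]

def Il : P1 := [0, 3009825000, -14447160000, 37361961000, -56253629250, 49415306850, -23506733250,
  4682427750]
def Ml : P1 := [6019650000, -57788640000, 224171766000, -450029034000, 494153068500, -282080799000,
  65553988500]

def comp1 (f : P3 → P3) : P1 → P3
  | [] => []
  | c :: l => add3 [[[c]]] (f (comp1 f l))

theorem ev3_comp1 {f : P3 → P3} {x y z N : ℝ} (hf : ∀ P, ev3 x y z (f P) = N * ev3 x y z P) :
    ∀ l : P1, ev3 x y z (comp1 f l) = ev1 N l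
  | [] => rfl
  | c :: l => by
    simp only [comp1, ev3_add, hf, ev3_comp1 hf l, ev1_cons, ev3_cons, ev2_cons, ev3_nil, ev2_nil,
      ev1_nil]
    ring

def diag2 : P2 → P3
  | [] => []
  | c :: l => add3 (comp1 (fun P => mX (mZ P)) c) (mY (diag2 l))
def diag3 : P3 → P3
  | [] => []
  | c :: l => add3 (diag2 c) (mX (diag3 l))

theorem ev3_diag2 (x y z : ℝ) : ∀ l : P2, ev3 x y z (diag2 l) = ev2 y (x * z) l
  | [] => rfl
  | c :: l => by
    have := ev3_comp1 (f := fun P => mX (mZ P)) (x := x) (y := y) (z := z) (N := x * z)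
      (fun P => by simp; ring) c
    simp only [diag2, ev3_add, this, ev3_mY, ev3_diag2 x y z l, ev2_cons]
@[simp] theorem ev3_diag3 (x y z : ℝ) : ∀ l : P3, ev3 x y z (diag3 l) = ev3 x y (x * z) l
  | [] => rfl
  | c :: l => by simp only [diag3, ev3_add, ev3_diag2, ev3_mX, ev3_diag3 x y z l, ev3_cons]

theorem id_M : isz3 (sub3 (dZ (dZ Eps)) (comp1 (fun P => add3 (mX (mX P)) (mZ (mZ P))) Ml)) = true := by
  decide +kernel
theorem id_I : isz3 (sub3 (add3 (dZ Kl) (mZ (mZ (dZ Kl))))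
    (comp1 (fun P => mX (mX (add3 P (mZ (mZ P))))) Il)) = true := by decide +kernel
theorem id_Kg : isz3 (sub3 (dX Kl) (diag3 (dZ Eps))) = true := by decide +kernel
theorem id_Kc : isz3 (add3 (sub3 (diag3 Eps) (mX (mZ (diag3 (dZ Eps)))))
    (add3 (dZ Kl) (mZ (mZ (dZ Kl))))) = true := by decide +kernel
theorem id_Kp : isz3 (dY Kl) = true := by decide +kernel
theorem id_Ep : isz3 (dY Eps) = true := by decide +kernel

theorem Ml_nonneg (N : ℝ) : 0 ≤ ev1 N Ml := by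
  have : ev1 N Ml = 60196500 * ((1 - N) * (10 - 38 * N + 33 * N ^ 2)) ^ 2 := by
    simp only [Ml, ev1_cons, ev1_nil]; push_cast; ring
  rw [this]; positivity

theorem hasDerivAt_Z (P : P3) (x y z : ℝ) :
    HasDerivAt (fun z => ev3 x y z P) (ev3 x y z (dZ P)) z := by
  have := (hasFDerivAt_ev3 (hasFDerivAt_const x z) (hasFDerivAt_const y z) (hasFDerivAt_id z)
    P).hasDerivAt
  simpa using this

theorem hasDerivAt_Y (P : P3) (x y z : ℝ) :
    HasDerivAt (fun y => ev3 x y z P) (ev3 x y z (dY P)) y := by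
  have := (hasFDerivAt_ev3 (hasFDerivAt_const x y) (hasFDerivAt_id y) (hasFDerivAt_const z y)
    P).hasDerivAt
  simpa using this

theorem indep_Y {P : P3} (h : isz3 (dY P) = true) (x y z : ℝ) : ev3 x y z P = ev3 x 0 z P :=
  is_const_of_deriv_eq_zero (f := fun y => ev3 x y z P)
    (fun y => (hasDerivAt_Y P x y z).differentiableAt)
    (fun y => by rw [(hasDerivAt_Y P x y z).deriv, isz3_ev h]) y 0

theorem tangent_le {φ φ1 φ2 : ℝ → ℝ} (h1 : ∀ s, HasDerivAt φ (φ1 s) s)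
    (h2 : ∀ s, HasDerivAt φ1 (φ2 s) s) (h3 : ∀ s, 0 ≤ φ2 s) (q y : ℝ) :
    φ q + φ1 q * (y - q) ≤ φ y := by
  have hm : Monotone φ1 := monotone_of_deriv_nonneg (fun s => (h2 s).differentiableAt)
    (fun s => by rw [(h2 s).deriv]; exact h3 s)
  rcases lt_trichotomy q y with h | rfl | h
  · obtain ⟨c, hc, e⟩ := exists_hasDerivAt_eq_slope φ φ1 h
      (fun s _ => (h1 s).continuousAt.continuousWithinAt) (fun s _ => h1 s)
    have := hm hc.1.le
    rw [e, le_div_iff₀ (by linarith)] at this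
    linarith
  · simp
  · obtain ⟨c, hc, e⟩ := exists_hasDerivAt_eq_slope φ φ1 h
      (fun s _ => (h1 s).continuousAt.continuousWithinAt) (fun s _ => h1 s)
    have := hm hc.2.le
    rw [e, div_le_iff₀ (by linarith)] at this
    linarith

/-- Weierstrass excess inequality -/
theorem picone (g p y c : ℝ) :
    ev3 g 0 c (dX Kl) * y - (1 + c ^ 2) * ev3 g 0 c (dZ Kl) ≤ ev3 g p y Eps := by
  rw [indep_Y id_Ep]
  have h := tangent_le (φ := fun y => ev3 g 0 y Eps) (fun s => hasDerivAt_Z Eps g 0 s)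
    (fun s => hasDerivAt_Z (dZ Eps) g 0 s) (fun s => by
      have := isz3_ev id_M g 0 s
      rw [ev3_sub, ev3_comp1 (N := g ^ 2 + s ^ 2) (fun P => by simp; ring)] at this
      have := Ml_nonneg (g ^ 2 + s ^ 2)
      linarith) (g * c) y
  have e1 := isz3_ev id_Kg g 0 c
  have e2 := isz3_ev id_Kc g 0 c
  simp only [ev3_sub, ev3_add, ev3_mX, ev3_mZ, ev3_diag3] at e1 e2
  have e3 : ev3 g 0 c (dX Kl) = ev3 g 0 (g * c) (dZ Eps) := by linarith
  rw [e3]; nlinarith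

noncomputable def If (N : ℝ) : ℝ := ev1 N Il

theorem If_mono : Monotone If := by
  have h : ∀ N, HasDerivAt If (ev1 N Ml / 2) N := fun N => by
    have := (hasFDerivAt_ev1 (hasFDerivAt_id N) Il).hasDerivAt
    have e : ev1 N (lder Int.mul Il) = ev1 N Ml / 2 := by
      have : lder Int.mul Il = [3009825000, -28894320000, 112085883000, -225014517000,
        247076534250, -141040399500, 32776994250] := by decide +kernel
      rw [this]; simp only [Ml, ev1_cons, ev1_nil]; push_cast; ring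
    show HasDerivAt (fun q => ev1 q Il) _ _
    simpa [e] using this
  exact monotone_of_deriv_nonneg (fun s => (h s).differentiableAt)
    (fun s => by rw [(h s).deriv]; have := Ml_nonneg s; positivity)

theorem If_pos {N : ℝ} (hN : 0 < N) : 0 < If N := by
  have key : ∀ N : ℝ, 0 < N → N ≤ 1 / 64 → 0 < If N := fun N h0 h1 => by
    have e : If N = N * (3009825000 - 14447160000 * N + 37361961000 * N ^ 2 - 56253629250 * N ^ 3 +
        49415306850 * N ^ 4 - 23506733250 * N ^ 5 + 4682427750 * N ^ 6) := by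
      simp only [If, Il, ev1_cons, ev1_nil]; push_cast; ring
    have h3 : N ^ 3 ≤ N := pow_le_of_le_one h0.le (by linarith) (by norm_num)
    have h5 : N ^ 5 ≤ N := pow_le_of_le_one h0.le (by linarith) (by norm_num)
    have h2 : 0 ≤ N ^ 2 := by positivity
    have h4 : 0 ≤ N ^ 4 := by positivity
    have h6 : 0 ≤ N ^ 6 := by positivity
    rw [e]; apply mul_pos h0; linarith
  exact (key (min N (1 / 64)) (by positivity) (min_le_right _ _)).trans_le
    (If_mono (min_le_left _ _))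

theorem If_cont : Continuous If :=
  continuous_iff_continuousAt.2 fun _ =>
    (contDiffAt_ev1 (n := 0) contDiffAt_id Il).continuousAt

theorem Kc_eq (g c : ℝ) : (1 + c ^ 2) * ev3 g 0 c (dZ Kl) = If (g ^ 2 * (1 + c ^ 2)) := by
  have := isz3_ev id_I g 0 c
  rw [ev3_sub, ev3_comp1 (N := g ^ 2 * (1 + c ^ 2)) (fun P => by simp; ring)] at this
  simp only [ev3_add, ev3_mZ] at this
  unfold If; linarith

theorem If_le : ∃ C : ℝ, 0 ≤ C ∧ ∀ g : ℝ, 0 ≤ g → g ≤ 2 → If (g ^ 2) ≤ C * g := by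
  obtain ⟨C, hC, h⟩ := bound_ev3 [[Il.tail]] 4
  refine ⟨2 * C, by positivity, fun g h0 h2 => ?_⟩
  have h1 := h 0 0 (g ^ 2) (by simp) (by simp) (by rw [abs_of_nonneg (by positivity)]; nlinarith)
  have e : If (g ^ 2) = g ^ 2 * ev3 0 0 (g ^ 2) [[Il.tail]] := by
    simp [If, Il, ev3_cons, ev2_cons, ev1_cons]
  rw [e]
  have := (le_abs_self _).trans h1
  calc _ ≤ g ^ 2 * C := by gcongr
    _ ≤ 2 * C * g := by nlinarith [mul_nonneg h0 hC]

/-- a polynomial whose first slice vanishes is divisible by the first variable -/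
theorem ev3_tail {P : P3} (h : isz3 (P.take 1) = true) (x y z : ℝ) :
    ev3 x y z P = x * ev3 x y z P.tail := by
  cases P with
  | nil => simp [ev3_nil]
  | cons c l =>
    have := isz3_ev h x y z
    simp only [List.take_succ_cons, List.take_zero, ev3_cons, ev3_nil] at this
    simp only [ev3_cons, List.tail_cons]; linarith

theorem bound_div {P : P3} (h : isz3 (P.take 1) = true) (R : ℝ) : ∃ C : ℝ, 0 ≤ C ∧
    ∀ x y z : ℝ, |x| ≤ R → |y| ≤ R → |z| ≤ R → |ev3 x y z P| ≤ C * |x| := by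
  obtain ⟨C, hC, h1⟩ := bound_ev3 P.tail R
  refine ⟨C, hC, fun x y z hx hy hz => ?_⟩
  rw [ev3_tail h, abs_mul, mul_comm]
  exact mul_le_mul_of_nonneg_right (h1 x y z hx hy hz) (abs_nonneg _)

theorem bound_div2 {P : P3} (h : isz3 (P.take 1) = true) (h' : isz3 (P.tail.take 1) = true) (R : ℝ) :
    ∃ C : ℝ, 0 ≤ C ∧
    ∀ x y z : ℝ, |x| ≤ R → |y| ≤ R → |z| ≤ R → |ev3 x y z P| ≤ C * x ^ 2 := by
  obtain ⟨C, hC, h1⟩ := bound_div h' R
  refine ⟨C, hC, fun x y z hx hy hz => ?_⟩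
  rw [ev3_tail h, abs_mul, ← sq_abs x]
  have := mul_le_mul_of_nonneg_left (h1 x y z hx hy hz) (abs_nonneg x)
  linarith

theorem z_A0 : isz3 (A0.take 1) = true := by decide +kernel
theorem z_B0 : isz3 (B0.take 1) = true := by decide +kernel
theorem z_Kl : isz3 (Kl.take 1) = true := by decide +kernel
theorem z_Py : isz3 ((dY Psi).take 1) = true := by decide +kernel
theorem z_Py' : isz3 ((dY Psi).tail.take 1) = true := by decide +kernel
theorem z_Pz : isz3 ((dZ Psi).take 1) = true := by decide +kernel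
theorem z_Pz' : isz3 ((dZ Psi).tail.take 1) = true := by decide +kernel

end Pool.Agent.P.MP_714120_an.LP
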