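import Pool.Agent.P.MP_714120_an.Data

namespace Pool.Agent.P.MP_714120_an.LP

theorem id_c2 : isz3 c2 = true := by decide +kernel
theorem id_c1 : isz3 (sub3 (sub3 c1 c3) (mX PP)) = true := by decide +kernel
theorem id_e : isz3 (sub3 (sub3 e00 Eps) (mY (mY (sqZ Ee)))) = true := by decide +kernel
theorem id_mu : isz3 (add3 (add3 (sm3 4 (mX mm)) (add3 PP (mN2 PP))) (mX (mX (sqZ Mu)))) = true := by
  decide +kernel
theorem chk_E1 : checkCube 14 13 7 (.sY (.sZ .leaf .leaf) .leaf) (subX 1 Ee) = true := by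
  decide +kernel
theorem chk_E2 : checkCube 14 13 7 (.sY (.sZ .leaf .leaf) .leaf) (subX (-1) Ee) = true := by
  decide +kernel

end Pool.Agent.P.MP_714120_an.LP
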