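import Pool.Agent.P.MP_714120_an.Bel

/-! The isothermal chart. -/

open Complex Filter Topology MeasureTheory Set
open scoped Real ComplexConjugate

noncomputable section
namespace Pool.Agent.P.MP_714120_an

def rEquiv (a b : ℂ) (h : a * conj a - b * conj b ≠ 0) : ℂ ≃L[ℝ] ℂ :=
  ContinuousLinearEquiv.equivOfInverse (rlin a b)
    (rlin (conj a / (a * conj a - b * conj b)) (-b / (a * conj a - b * conj b)))
    (fun d => by
      simp only [rlin_apply, map_add, map_mul, conj_conj, div_eq_mul_inv]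
      linear_combination d * mul_inv_cancel₀ h)
    (fun d => by
      simp only [rlin_apply, map_add, map_mul, map_inv₀, map_sub, map_neg, conj_conj, div_eq_mul_inv]
      rw [mul_comm (conj a) a, mul_comm (conj b) b]
      linear_combination d * mul_inv_cancel₀ h)

theorem rEquiv_coe (a b : ℂ) (h) : (rEquiv a b h : ℂ →L[ℝ] ℂ) = rlin a b := rfl
theorem rEquiv_symm_coe (a b : ℂ) (h) : ((rEquiv a b h).symm : ℂ →L[ℝ] ℂ) =
    rlin (conj a / (a * conj a - b * conj b)) (-b / (a * conj a - b * conj b)) := rfl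

theorem loc_inv {F : ℂ → ℂ} {a : ℂ} {n : WithTop ℕ∞} (hn : n ≠ 0) (hF : ContDiffAt ℝ n F a)
    (e : ℂ ≃L[ℝ] ℂ) (h : HasFDerivAt F (e : ℂ →L[ℝ] ℂ) a) :
    ∃ G : ℂ → ℂ, G (F a) = a ∧ ContDiffAt ℝ n G (F a) ∧ ∀ᶠ y in 𝓝 (F a), F (G y) = y :=
  ⟨hF.localInverse h hn, hF.localInverse_apply_image h hn, hF.to_localInverse h hn,
    (hF.hasStrictFDerivAt' h hn).eventually_right_inverse⟩

theorem contDiffAt_rlin {E : Type} [NormedAddCommGroup E] [NormedSpace ℝ E] {n : WithTop ℕ∞}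
    {a b : E → ℂ} {z : E} (ha : ContDiffAt ℝ n a z) (hb : ContDiffAt ℝ n b z) :
    ContDiffAt ℝ n (fun z => rlin (a z) (b z)) z :=
  (ha.smul contDiffAt_const).add (hb.smul contDiffAt_const)

def al (u : ℂ → ℝ) (z : ℂ) : ℂ := 2 * (1 - (phi u z * conj (phi u z)) ^ 2)⁻¹
def be (u : ℂ → ℝ) (z : ℂ) : ℂ := al u z * conj (phi u z) ^ 2

theorem D_ne (u : ℂ → ℝ) (z : ℂ) : 1 - (phi u z * conj (phi u z)) ^ 2 ≠ 0 := by
  have h1 := Nf_lt u z
  have h0 := Nf_nonneg u z
  rw [phi_mul_conj, ← ofReal_pow, ← ofReal_one, ← ofReal_sub, ofReal_ne_zero]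
  nlinarith

theorem al_mul (u : ℂ → ℝ) (z : ℂ) : al u z * (1 - (phi u z * conj (phi u z)) ^ 2) = 2 := by
  have := D_ne u z
  rw [al, mul_assoc, inv_mul_cancel₀ this, mul_one]

theorem conj_al (u : ℂ → ℝ) (z : ℂ) : conj (al u z) = al u z := by
  simp only [al, map_mul, map_inv₀, map_sub, map_pow, conj_conj, map_one, map_ofNat,
    mul_comm (conj (phi u z))]

theorem contDiffAt_al {u : ℂ → ℝ} {z : ℂ} (h : ContDiffAt ℝ 1 (phi u) z) :
    ContDiffAt ℝ 1 (al u) z ∧ ContDiffAt ℝ 1 (be u) z := by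
  have hc : ContDiffAt ℝ 1 (fun z => conj (phi u z)) z := conjCLE.contDiff.contDiffAt.comp z h
  have h1 : ContDiffAt ℝ 1 (al u) z :=
    contDiffAt_const.mul ((contDiffAt_const.sub ((h.mul hc).pow 2)).inv (D_ne u z))
  exact ⟨h1, h1.mul (hc.pow 2)⟩

theorem closed_form {u : ℂ → ℝ} (H : Sol u) {z : ℂ} (hz : 0 < u z) (x y : ℂ) :
    fderiv ℝ (fun z => rlin (al u z) (be u z)) z x y =
      fderiv ℝ (fun z => rlin (al u z) (be u z)) z y x := by
  obtain ⟨cφ, -, dφ, -⟩ := bel u H z hz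
  obtain ⟨ca, -⟩ := contDiffAt_al cφ
  have da := (ca.differentiableAt one_ne_zero).hasFDerivAt
  have dc : HasFDerivAt (fun z => conj (phi u z)) _ z := conjCLE.hasFDerivAt.comp z dφ
  have db : HasFDerivAt (be u) _ z := da.mul (dc.pow 2)
  have dω : HasFDerivAt (fun z => rlin (al u z) (be u z)) _ z :=
    (da.smul_const (ContinuousLinearMap.id ℝ ℂ)).add (db.smul_const (conjCLE : ℂ →L[ℝ] ℂ))
  have d1 : HasFDerivAt (fun z => al u z * (1 - (phi u z * conj (phi u z)) ^ 2)) _ z :=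
    da.mul (((dφ.mul dc).pow 2).const_sub 1)
  rw [funext (al_mul u)] at d1
  have d2 := d1.unique (hasFDerivAt_const 2 z)
  have hx := congrArg (fun T : ℂ →L[ℝ] ℂ => T x) d2
  have hy := congrArg (fun T : ℂ →L[ℝ] ℂ => T y) d2
  rw [dω.fderiv]
  simp at hx hy ⊢
  apply mul_right_cancel₀ (D_ne u z)
  linear_combination (y + conj (phi u z) ^ 2 * conj y) * hx - (x + conj (phi u z) ^ 2 * conj x) * hy

theorem chart : S_Chart := by
  intro u H z0 hz0
  have hΩ : IsOpen {z | 0 < u z} := isOpen_lt continuous_const H.cont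
  obtain ⟨r, hr, hball⟩ := Metric.isOpen_iff.1 hΩ z0 hz0
  have cω : ∀ z, 0 < u z → ContDiffAt ℝ 1 (fun z => rlin (al u z) (be u z)) z := fun z hz => by
    obtain ⟨ca, cb⟩ := contDiffAt_al (bel u H z hz).1
    exact contDiffAt_rlin ca cb
  obtain ⟨ζ, hζ⟩ := (convex_ball z0 r).exists_forall_hasFDerivAt_of_fderiv_symmetric
    (𝕜 := ℝ) (ω := fun z => rlin (al u z) (be u z)) Metric.isOpen_ball
    (fun z hz => ((cω z (hball hz)).differentiableAt one_ne_zero).differentiableWithinAt)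
    (fun z hz x y => closed_form H (hball hz) x y)
  have hne : ∀ z, al u z * conj (al u z) - be u z * conj (be u z) = 2 * al u z := fun z => by
    simp only [be, map_mul, map_pow, conj_al, conj_conj]
    linear_combination al u z * al_mul u z
  have hal : ∀ z, al u z ≠ 0 := fun z h => by
    have := al_mul u z; rw [h] at this; simp at this
  have hne' : ∀ z, al u z * conj (al u z) - be u z * conj (be u z) ≠ 0 := fun z => by
    rw [hne]; exact mul_ne_zero two_ne_zero (hal z)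
  have cζ : ContDiffAt ℝ ((0 : ℕ) + 1) ζ z0 := by
    rw [contDiffAt_succ_iff_hasFDerivAt]
    exact ⟨_, ⟨_, Metric.ball_mem_nhds z0 hr, hζ⟩, (cω z0 hz0).of_le (by norm_num)⟩
  obtain ⟨G, G0, cG, hG⟩ := loc_inv (by norm_num) cζ (rEquiv _ _ (hne' z0))
    (hζ z0 (Metric.mem_ball_self hr))
  have tend : Tendsto (fun w => w + ζ z0) (𝓝 0) (𝓝 (ζ z0)) := by
    have : Continuous fun w : ℂ => w + ζ z0 := by fun_prop
    simpa using this.tendsto 0
  have main : ∀ᶠ y in 𝓝 (ζ z0), 0 < u (G y) ∧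
      HasFDerivAt G (rlin (1 / 2) (-(conj (phi u (G y)) ^ 2) / 2)) y := by
    have h1 : ∀ᶠ y in 𝓝 (ζ z0), G y ∈ Metric.ball z0 r := by
      apply cG.continuousAt.eventually
      rw [G0]; exact Metric.ball_mem_nhds z0 hr
    filter_upwards [h1, cG.eventually (by simp), hG.eventually_nhds] with y h1 h2 h3
    refine ⟨hball h1, ?_⟩
    have := HasFDerivAt.of_local_left_inverse (f' := rEquiv _ _ (hne' (G y))) h2.continuousAt
      (hζ _ h1) h3
    rw [rEquiv_symm_coe, hne, conj_al] at this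
    have h4 := hal (G y)
    have e1 : al u (G y) / (2 * al u (G y)) = 1 / 2 := by field_simp
    have e2 : -be u (G y) / (2 * al u (G y)) = -(conj (phi u (G y)) ^ 2) / 2 := by
      rw [be]; field_simp
    rwa [e1, e2] at this
  have all : ∀ᶠ w in 𝓝 (0 : ℂ), 0 < u (G (w + ζ z0)) ∧
      HasFDerivAt (fun w => G (w + ζ z0))
        (rlin (1 / 2) (-(conj (phi u (G (w + ζ z0))) ^ 2) / 2)) w ∧
      HasFDerivAt (fun w => u (G (w + ζ z0))) (rdot (phi u (G (w + ζ z0)))) w ∧
      HasDerivAt (fun w => phi u (G (w + ζ z0)))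
        (dphi u (G (w + ζ z0)) * (1 - (Nf u (G (w + ζ z0)) : ℂ) ^ 2) / 2) w := by
    filter_upwards [tend.eventually main] with w ⟨h1, h2⟩
    have h3 : HasFDerivAt (fun w => G (w + ζ z0))
        (rlin (1 / 2) (-(conj (phi u (G (w + ζ z0))) ^ 2) / 2)) w := by
      exact (h2.comp w ((hasFDerivAt_id w).add_const (ζ z0))).congr_fderiv
        (ContinuousLinearMap.comp_id _)
    obtain ⟨-, hN, dφ, du, -⟩ := bel u H _ h1
    set z := G (w + ζ z0)
    have hN1 : (1 - Nf u z) ≠ 0 := by linarith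
    refine ⟨h1, h3, (du.comp w h3).congr_fderiv ?_, ?_⟩
    · ext d
      have e : 2 * phi u z / (1 - (Nf u z : ℂ)) * (1 / 2 * d + -conj (phi u z) ^ 2 / 2 * conj d) =
          (((1 - Nf u z)⁻¹ : ℝ) : ℂ) * (phi u z * d - (Nf u z : ℝ) * conj (phi u z * d)) := by
        rw [← phi_mul_conj]; push_cast
        rw [← phi_mul_conj, map_mul]; ring
      simp only [ContinuousLinearMap.comp_apply, rlin_apply, rdot_apply, e, re_ofReal_mul, sub_re,
        conj_re]
      field_simp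
    · have h4 := dφ.comp w h3
      rw [hasDerivAt_iff_hasFDerivAt]
      refine hasFDerivAt_of_restrictScalars ℝ h4 ?_
      ext d
      simp [← phi_mul_conj, map_ofNat]
      ring
  refine ⟨fun w => G (w + ζ z0), by simpa using G0, ?_, all⟩
  rw [analyticAt_iff_eventually_differentiableAt]
  filter_upwards [all] with w hw using hw.2.2.2.differentiableAt

end Pool.Agent.P.MP_714120_an
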