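import Pool.Agent.P.MP_714120_an.Polar

/-! The horospherical support function in cylinder coordinates. -/

open Complex Filter Topology MeasureTheory Set
open scoped Real ComplexConjugate

noncomputable section
namespace Pool.Agent.P.MP_714120_an

def gC (f : ℂ → ℝ) (q : ℝ × ℝ) : ℝ := Real.exp (-q.1) * f (Ex q)
def wC (γ : ℂ → ℂ) (q : ℝ × ℝ) : ℂ := conj (om q) * γ (Ex q)
def yC (γ : ℂ → ℂ) (q : ℝ × ℝ) : ℝ := (wC γ q).im
def pC (f : ℂ → ℝ) (γ : ℂ → ℂ) (q : ℝ × ℝ) : ℝ := (wC γ q).re - gC f q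

theorem gC_pos {f : ℂ → ℝ} {q : ℝ × ℝ} : 0 < gC f q ↔ 0 < f (Ex q) :=
  mul_pos_iff_of_pos_left (Real.exp_pos _)

theorem gC_mul (f : ℂ → ℝ) (q : ℝ × ℝ) : Real.exp q.1 * gC f q = f (Ex q) := by
  rw [gC, ← mul_assoc, ← Real.exp_add]; simp

theorem gC_cont {f : ℂ → ℝ} (h : Continuous f) : Continuous (gC f) :=
  (by fun_prop : Continuous fun q : ℝ × ℝ => Real.exp (-q.1)).mul
    (h.comp (contDiff_Ex (n := 0)).continuous)

theorem hasFDerivAt_gC {f : ℂ → ℝ} {f' : ℂ →L[ℝ] ℝ} {q : ℝ × ℝ} (h : HasFDerivAt f f' (Ex q)) :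
    fderiv ℝ (gC f) q (1, 0) = f' (om q) - gC f q ∧ fderiv ℝ (gC f) q (0, 1) = f' (I * om q) := by
  have h1 := ((hasFDerivAt_fst (𝕜 := ℝ) (p := q)).neg.exp).mul (h.comp q (hasFDerivAt_Ex q))
  have h2 : HasFDerivAt (gC f) _ q := h1
  have e1 : f' (Ex q) = Real.exp q.1 * f' (om q) := by
    rw [Ex, ← real_smul, map_smul, smul_eq_mul]
  have e2 : f' (I * Ex q) = Real.exp q.1 * f' (I * om q) := by
    rw [Ex, mul_left_comm, ← real_smul, map_smul, smul_eq_mul]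
  have e3 : Real.exp (-q.1) * Real.exp q.1 = 1 := by rw [← Real.exp_add]; simp
  rw [h2.fderiv]
  constructor
  · simp [e1, gC]; linear_combination (f' (om q)) * e3
  · simp [e2]; linear_combination (f' (I * om q)) * e3

theorem HSol.contDiffAt {f : ℂ → ℝ} {γ : ℂ → ℂ} (H : HSol f γ) {p : ℂ} (hp : 0 < f p) :
    ContDiffAt ℝ 2 f p := by
  have : ContDiffAt ℝ ((1 : ℕ) + 1) f p := by
    rw [contDiffAt_succ_iff_hasFDerivAt]
    refine ⟨fun z => rdot (conj (γ z)), ⟨{z | 0 < f z},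
      (isOpen_lt continuous_const H.cont).mem_nhds hp, fun z hz => H.grad z hz⟩, ?_⟩
    exact contDiff_rdot.contDiffAt.comp p
      (conjCLE.contDiff.contDiffAt.comp p ((H.c2 p hp).of_le (by norm_num)))
  exact this

theorem normSq_wC (γ : ℂ → ℂ) (q : ℝ × ℝ) : normSq (wC γ q) = normSq (γ (Ex q)) := by
  rw [wC, map_mul, normSq_conj, normSq_eq_norm_sq (om q), norm_om]; simp

theorem cyl {f : ℂ → ℝ} {γ : ℂ → ℂ} (H : HSol f γ) {q : ℝ × ℝ} (hq : 0 < gC f q) :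
    ContDiffAt ℝ 2 (gC f) q ∧ ContDiffAt ℝ 2 (pC f γ) q ∧ ContDiffAt ℝ 2 (yC γ) q ∧
    fderiv ℝ (gC f) q (1, 0) = pC f γ q ∧ fderiv ℝ (gC f) q (0, 1) = yC γ q ∧
    fderiv ℝ (pC f γ) q (0, 1) = fderiv ℝ (yC γ) q (1, 0) ∧
    (gC f q + pC f γ q) ^ 2 + yC γ q ^ 2 ≤ 1 ∧
    |gC f q * (fderiv ℝ (pC f γ) q (1, 0) + pC f γ q)| ≤ 2 ∧
    |gC f q * fderiv ℝ (yC γ) q (1, 0)| ≤ 1 ∧
    |gC f q * (fderiv ℝ (yC γ) q (0, 1) + (gC f q + pC f γ q))| ≤ 2 ∧
    ∃ T, 0 ≤ T ∧ (fderiv ℝ (pC f γ) q (1, 0) + pC f γ q) *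
        (fderiv ℝ (yC γ) q (0, 1) + (gC f q + pC f γ q)) - fderiv ℝ (yC γ) q (1, 0) ^ 2 = -T ∧
      (1 + ((gC f q + pC f γ q) ^ 2 + yC γ q ^ 2)) * ((fderiv ℝ (pC f γ) q (1, 0) + pC f γ q) +
        (fderiv ℝ (yC γ) q (0, 1) + (gC f q + pC f γ q))) = -(4 * gC f q * T) ∧
      (3 - ((gC f q + pC f γ q) ^ 2 + yC γ q ^ 2)) * (4 * gC f q ^ 2 * T) ≤
        (1 + ((gC f q + pC f γ q) ^ 2 + yC γ q ^ 2)) *
          (1 - ((gC f q + pC f γ q) ^ 2 + yC γ q ^ 2)) ^ 2 := by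
  have hf := gC_pos.1 hq
  have cg : ContDiffAt ℝ 2 (gC f) q :=
    (by fun_prop : ContDiffAt ℝ 2 (fun q : ℝ × ℝ => Real.exp (-q.1)) q).mul
      ((H.contDiffAt hf).comp q contDiff_Ex.contDiffAt)
  have cw : ContDiffAt ℝ 2 (wC γ) q :=
    (conjCLE.contDiff.contDiffAt.comp q contDiff_om.contDiffAt).mul
      ((H.c2 _ hf).comp q contDiff_Ex.contDiffAt)
  have cp : ContDiffAt ℝ 2 (pC f γ) q := (reCLM.contDiff.contDiffAt.comp q cw).sub cg
  have cy : ContDiffAt ℝ 2 (yC γ) q := imCLM.contDiff.contDiffAt.comp q cw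
  obtain ⟨g1, g2⟩ := hasFDerivAt_gC (H.grad _ hf)
  have g1' : fderiv ℝ (gC f) q (1, 0) = pC f γ q := by
    rw [g1]; simp [pC, wC]; ring
  have g2' : fderiv ℝ (gC f) q (0, 1) = yC γ q := by
    rw [g2]; simp [yC, wC]; ring
  obtain ⟨A, B, hγ, hpde, hAB, hcurv, hB⟩ := H.hess _ hf
  have dw : HasFDerivAt (wC γ) _ q :=
    (conjCLE.hasFDerivAt.comp q (hasFDerivAt_om q)).mul (hγ.comp q (hasFDerivAt_Ex q))
  set r := Real.exp q.1 with hr
  set Bq := B * conj (om q) ^ 2 with hBq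
  have hoc := om_mul_conj q
  have w1 : fderiv ℝ (wC γ) q (1, 0) = r * A + r * Bq := by
    rw [dw.fderiv]; simp [Ex, ← hr, hBq]
    linear_combination (r * A : ℂ) * hoc
  have w2 : fderiv ℝ (wC γ) q (0, 1) = I * (r * A) - I * (r * Bq) - I * wC γ q := by
    rw [dw.fderiv]; simp [Ex, ← hr, hBq, wC]
    linear_combination (I * r * A : ℂ) * hoc
  have dw' := (cw.differentiableAt two_ne_zero).hasFDerivAt
  have dp : HasFDerivAt (pC f γ) _ q :=
    (reCLM.hasFDerivAt.comp q dw').sub (cg.differentiableAt two_ne_zero).hasFDerivAt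
  have dy : HasFDerivAt (yC γ) _ q := imCLM.hasFDerivAt.comp q dw'
  have p1 : fderiv ℝ (pC f γ) q (1, 0) + pC f γ q = r * (A + Bq.re) := by
    rw [dp.fderiv]; simp [w1, g1']; ring
  have p2 : fderiv ℝ (pC f γ) q (0, 1) = r * Bq.im := by
    rw [dp.fderiv]; simp [w2, g2', yC]
  have y1 : fderiv ℝ (yC γ) q (1, 0) = r * Bq.im := by
    rw [dy.fderiv]; simp [w1]
  have y2 : fderiv ℝ (yC γ) q (0, 1) + (gC f q + pC f γ q) = r * (A - Bq.re) := by
    rw [dy.fderiv]; simp [w2, pC]; ring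
  have hN : (gC f q + pC f γ q) ^ 2 + yC γ q ^ 2 = normSq (γ (Ex q)) := by
    rw [← normSq_wC, normSq_apply]; simp [pC, yC]; ring
  have nB : ‖Bq‖ = ‖B‖ := by rw [hBq, norm_mul, norm_pow, norm_conj, norm_om]; simp
  have nB2 : normSq B = Bq.re ^ 2 + Bq.im ^ 2 := by
    rw [normSq_eq_norm_sq, ← nB, ← normSq_eq_norm_sq, normSq_apply]; ring
  have hgr : r * gC f q = f (Ex q) := gC_mul f q
  have hA : |A| ≤ ‖B‖ := by
    rw [normSq_eq_norm_sq] at hAB; exact abs_le_of_sq_le_sq hAB (norm_nonneg _) |> fun h => h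
  have b1 : |Bq.re| ≤ ‖B‖ := nB ▸ abs_re_le_norm Bq
  have b2 : |Bq.im| ≤ ‖B‖ := nB ▸ abs_im_le_norm Bq
  have bd : ∀ c k : ℝ, |c| ≤ k * ‖B‖ → 0 ≤ k → |gC f q * (r * c)| ≤ k := fun c k hc hk => by
    rw [← mul_assoc, mul_comm (gC f q), hgr, abs_mul, abs_of_pos hf]
    calc _ ≤ f (Ex q) * (k * ‖B‖) := by gcongr
      _ = k * (f (Ex q) * ‖B‖) := by ring
      _ ≤ k * 1 := by gcongr
      _ = k := mul_one k
  refine ⟨cg, cp, cy, g1', g2', by rw [p2, y1], by rw [hN]; exact H.le_one _ hf, ?_, ?_, ?_,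
    r ^ 2 * (normSq B - A ^ 2), mul_nonneg (by positivity) (by linarith), ?_, ?_, ?_⟩
  · rw [p1]; exact bd _ _ ((abs_add_le _ _).trans (by linarith)) (by norm_num)
  · rw [y1]; exact bd _ _ (by linarith) (by norm_num)
  · rw [y2]; exact bd _ _ ((abs_sub _ _).trans (by linarith)) (by norm_num)
  · rw [p1, y2, y1, nB2]; ring
  · rw [p1, y2, hN]; rw [← hgr] at hpde; linear_combination 2 * r * hpde
  · rw [hN]; rw [← hgr] at hcurv; linarith

theorem HSol.lip {f : ℂ → ℝ} {γ : ℂ → ℂ} (H : HSol f γ) (p p' : ℂ) : f p - ‖p' - p‖ ≤ f p' := by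
  have := lip_seg (φ := fun s : ℝ => f (p + s * (p' - p))) (L := ‖p' - p‖) (norm_nonneg _)
    (H.cont.comp (by fun_prop)) (fun s => H.nonneg _) (fun s hs => by
      have h1 : HasDerivAt (fun s : ℝ => p + s * (p' - p)) (p' - p) s := by
        simpa using (((hasDerivAt_id s).ofReal_comp).mul_const (p' - p)).const_add p
      refine ⟨_, (H.grad _ hs).comp_hasDerivAt s h1, ?_⟩
      rw [rdot_apply]
      have h2 := abs_re_le_norm (conj (γ (p + s * (p' - p))) * (p' - p))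
      rw [norm_mul, norm_conj] at h2
      have h3 : ‖γ (p + s * (p' - p))‖ ≤ 1 := by
        have := H.le_one _ hs
        rw [normSq_eq_norm_sq] at this
        exact (sq_le_one_iff₀ (norm_nonneg _)).1 this
      have h4 := mul_le_mul_of_nonneg_right h3 (norm_nonneg (p' - p))
      linarith [(abs_le.1 h2).1])
  simpa using this

theorem region {f : ℂ → ℝ} {γ : ℂ → ℂ} (H : HSol f γ) {p0 : ℂ} (h0 : f p0 = 0) {q : ℝ × ℝ}
    (hq : 0 < gC f q) (ht : 11 * ‖p0‖ * Real.exp (-q.1) ≤ 1) :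
    (gC f q + |pC f γ q|) ^ 2 + yC γ q ^ 2 ≤ 1 + 11 * ‖p0‖ * Real.exp (-q.1) := by
  have hf := gC_pos.1 hq
  obtain ⟨-, -, -, -, -, -, hN, -⟩ := cyl H hq
  set e := ‖p0‖ * Real.exp (-q.1) with he
  have he0 : 0 ≤ e := by positivity
  have he1 : 11 * ‖p0‖ * Real.exp (-q.1) = 11 * e := by rw [he]; ring
  rw [he1] at ht ⊢
  rcases le_total 0 (pC f γ q) with hp | hp
  · rw [abs_of_nonneg hp]; linarith
  rw [abs_of_nonpos hp]
  set r := Real.exp q.1 with hr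
  have hr0 : 0 < r := Real.exp_pos _
  have hre : r * e = ‖p0‖ := by
    rw [he, mul_left_comm, hr, ← Real.exp_add]; simp
  have hgr : r * gC f q = f (Ex q) := gC_mul f q
  have hd : ‖Ex q - p0‖ ≤ r * (1 + e) := by
    refine (norm_sub_le _ _).trans ?_
    rw [norm_Ex]; linarith
  have hg : gC f q ≤ 1 + e := by
    have := H.lip (Ex q) p0
    rw [h0, norm_sub_rev] at this
    exact le_of_mul_le_mul_left (by linarith) hr0
  have hdisc := H.disc (Ex q) p0 hf h0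
  have hN' : (gC f q + pC f γ q) ^ 2 + yC γ q ^ 2 = normSq (γ (Ex q)) := by
    rw [← normSq_wC, normSq_apply]; simp [pC, yC]; ring
  have h1 : normSq (Ex q - p0) ≤ (r * (1 + e)) ^ 2 := by
    rw [normSq_eq_norm_sq]; gcongr
  have h2 : (conj (γ (Ex q)) * (Ex q - p0)).re ≤ r * (gC f q + pC f γ q) + r * e := by
    have a1 : (conj (γ (Ex q)) * Ex q).re = r * (gC f q + pC f γ q) := by
      simp only [pC, wC]
      generalize γ (Ex q) = c
      simp [Ex, ← hr]; ring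
    have a2 := abs_re_le_norm (conj (γ (Ex q)) * p0)
    rw [norm_mul, norm_conj] at a2
    have h3 : ‖γ (Ex q)‖ ≤ 1 := by
      have := H.le_one _ hf
      rw [normSq_eq_norm_sq] at this
      exact (sq_le_one_iff₀ (norm_nonneg _)).1 this
    have h4 := mul_le_mul_of_nonneg_right h3 (norm_nonneg p0)
    rw [mul_sub, sub_re, a1]
    linarith [(abs_le.1 a2).1]
  rw [← hN', ← hgr] at hdisc
  set g := gC f q
  set p := pC f γ q
  set y := yC γ q
  have h3 : r ^ 2 * (4 * g ^ 2) ≤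
      r ^ 2 * ((1 - ((g + p) ^ 2 + y ^ 2)) * (1 + e) ^ 2 + 4 * g * (g + p + e)) := by
    have a1 := mul_le_mul_of_nonneg_left h1 (sub_nonneg.2 hN)
    have a2 := mul_le_mul_of_nonneg_left h2 (by positivity : 0 ≤ 4 * (r * g))
    linarith
  have h4 := le_of_mul_le_mul_left h3 (by positivity)
  have h5 : (1 - ((g + p) ^ 2 + y ^ 2)) * (2 * e + e ^ 2) ≤ 1 * (3 * e) :=
    mul_le_mul (by nlinarith [sq_nonneg (g + p), sq_nonneg y]) (by nlinarith) (by positivity)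
      zero_le_one
  have h6 : g * e ≤ 2 * e := mul_le_mul_of_nonneg_right (by linarith) he0
  linarith

end Pool.Agent.P.MP_714120_an
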