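import Mathlib

/-! Definitions and module statements for the proof that no positive minimal graph with zero
boundary values lives over a domain of asymptotic angle below pi. -/

open Complex Filter Topology MeasureTheory Set
open scoped Real ComplexConjugate

noncomputable section
namespace Pool.Agent.P.MP_714120_an

/-- the real-linear map `d ↦ a d + b conj d` -/
def rlin (a b : ℂ) : ℂ →L[ℝ] ℂ :=
  a • (ContinuousLinearMap.id ℝ ℂ) + b • (Complex.conjCLE : ℂ →L[ℝ] ℂ)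

@[simp] theorem rlin_apply (a b d : ℂ) : rlin a b d = a * d + b * conj d := by
  simp [rlin]

/-- the real-linear form `d ↦ re (w d)` -/
def rdot (w : ℂ) : ℂ →L[ℝ] ℝ := Complex.reCLM.comp (w • ContinuousLinearMap.id ℝ ℂ)

@[simp] theorem rdot_apply (w d : ℂ) : rdot w d = (w * d).re := by
  simp [rdot]

def ux (u : ℂ → ℝ) (z : ℂ) : ℝ := fderiv ℝ u z 1
def uy (u : ℂ → ℝ) (z : ℂ) : ℝ := fderiv ℝ u z I
def Wf (u : ℂ → ℝ) (z : ℂ) : ℝ := √(1 + ux u z ^ 2 + uy u z ^ 2)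

/-- the minimal surface equation at `z` -/
def mseAt (u : ℂ → ℝ) (z : ℂ) : Prop :=
  fderiv ℝ (fun w => ux u w / Wf u w) z 1 + fderiv ℝ (fun w => uy u w / Wf u w) z I = 0

/-- a solution extended by zero to the whole plane -/
structure Sol (u : ℂ → ℝ) : Prop where
  cont : Continuous u
  nonneg : ∀ z, 0 ≤ u z
  c2 : ∀ z, 0 < u z → ContDiffAt ℝ 2 u z
  mse : ∀ z, 0 < u z → mseAt u z

/-- conjugate of the stereographic Gauss map -/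
def phi (u : ℂ → ℝ) (z : ℂ) : ℂ := ((ux u z : ℂ) - I * (uy u z : ℂ)) / (1 + (Wf u z : ℂ))

/-- the Wirtinger derivative of `phi` -/
def dphi (u : ℂ → ℝ) (z : ℂ) : ℂ := (fderiv ℝ (phi u) z 1 - I * fderiv ℝ (phi u) z I) / 2

/-- `|phi|^2` -/
def Nf (u : ℂ → ℝ) (z : ℂ) : ℝ := normSq (phi u z)

/-- angular measure of the positivity set at most `β` on all circles of radius at least `R` -/
def Ang (u : ℂ → ℝ) (β R : ℝ) : Prop :=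
  ∀ r, R ≤ r → volume {θ ∈ Ico (0 : ℝ) (2 * π) | 0 < u (r * Complex.exp (θ * I))} ≤ ENNReal.ofReal β

/-- the horospherical support function `f` and its gradient `γ` -/
structure HSol (f : ℂ → ℝ) (γ : ℂ → ℂ) : Prop where
  cont : Continuous f
  nonneg : ∀ p, 0 ≤ f p
  c2 : ∀ p, 0 < f p → ContDiffAt ℝ 2 γ p
  grad : ∀ p, 0 < f p → HasFDerivAt f (rdot (conj (γ p))) p
  le_one : ∀ p, 0 < f p → normSq (γ p) ≤ 1
  hess : ∀ p, 0 < f p → ∃ (A : ℝ) (B : ℂ), HasFDerivAt γ (rlin A B) p ∧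
    (1 + normSq (γ p)) * A = 2 * f p * (A ^ 2 - normSq B) ∧ A ^ 2 ≤ normSq B ∧
    (3 - normSq (γ p)) * (4 * f p ^ 2 * (normSq B - A ^ 2)) ≤
      (1 + normSq (γ p)) * (1 - normSq (γ p)) ^ 2 ∧ f p * ‖B‖ ≤ 1
  disc : ∀ p p0, 0 < f p → f p0 = 0 →
    4 * f p ^ 2 ≤ (1 - normSq (γ p)) * normSq (p - p0) + 4 * f p * (conj (γ p) * (p - p0)).re

/-- Beltrami equation for the Gauss map -/
def S_Bel : Prop := ∀ u, Sol u → ∀ z, 0 < u z →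
  ContDiffAt ℝ 1 (phi u) z ∧ Nf u z < 1 ∧
  HasFDerivAt (phi u) (rlin (dphi u z) (dphi u z * conj (phi u z) ^ 2)) z ∧
  HasFDerivAt u (rdot (2 * phi u z / (1 - (Nf u z : ℂ)))) z ∧ ContinuousAt (dphi u) z

/-- isothermal chart -/
def S_Chart : Prop := ∀ u, Sol u → ∀ z0, 0 < u z0 → ∃ Z : ℂ → ℂ, Z 0 = z0 ∧
  AnalyticAt ℂ (fun ζ => phi u (Z ζ)) 0 ∧
  ∀ᶠ ζ in 𝓝 (0 : ℂ), 0 < u (Z ζ) ∧
    HasFDerivAt Z (rlin (1 / 2) (-(conj (phi u (Z ζ)) ^ 2) / 2)) ζ ∧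
    HasFDerivAt (fun ζ => u (Z ζ)) (rdot (phi u (Z ζ))) ζ ∧
    HasDerivAt (fun ζ => phi u (Z ζ)) (dphi u (Z ζ) * (1 - (Nf u (Z ζ) : ℂ) ^ 2) / 2) ζ

/-- curvature bound (height times principal curvature is at most the vertical normal) -/
def S_Max : Prop := ∀ u, Sol u → ∀ z, 0 < u z → 2 * u z * ‖dphi u z‖ ≤ 1

/-- supporting inequality of the convex function `u^2 + |z|^2` -/
def S_Supp : Prop := ∀ u, Sol u → ∀ z, 0 < u z → ∀ z' : ℂ,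
  u z ^ 2 + normSq z +
    2 * ((conj z + (u z : ℂ) * (2 * phi u z / (1 - (Nf u z : ℂ)))) * (z' - z)).re ≤
  u z' ^ 2 + normSq z'

/-- the horospherical transform -/
def S_Horo : Prop := ∀ u, Sol u → ∃ f γ, HSol f γ ∧ (∀ p, 0 < f p ↔ 0 < u p) ∧
  ∀ z, 0 < u z → ∃ p, u z ≤ 2 * f p ∧ ‖z - p‖ ≤ f p

/-- logarithmic cut-off -/
def S_Cut : Prop := ∀ c0 σ : ℝ, 0 < c0 → 0 < σ → ∃ (η : ℝ → ℝ) (c : ℝ), 0 < c ∧ ContDiff ℝ 1 η ∧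
  (∀ s, s ≤ c → η s = 0) ∧ (∀ s, c0 ≤ s → η s = 1) ∧ (∀ s, 0 ≤ η s ∧ η s ≤ 1) ∧
  ∀ s, 0 ≤ deriv η s ∧ s * deriv η s ≤ σ

/-- the angle function for the Picone identity -/
def S_P : Prop := ∀ (G : ℝ → ℝ) (β κ : ℝ), Continuous G → (∀ θ, 0 ≤ G θ) →
  (∀ θ, G (θ + 2 * π) = G θ) →
  volume {θ ∈ Ico (0 : ℝ) (2 * π) | 0 < G θ} ≤ ENNReal.ofReal β → 0 ≤ β → 1 ≤ κ → κ * β < π →
  ∃ θ0, G θ0 = 0 ∧ ∃ c : ℝ → ℝ, ∀ θ ∈ Icc θ0 (θ0 + 2 * π), |c θ| ≤ Real.tan (κ * β / 2) ∧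
    (0 < G θ → HasDerivAt c (-(κ * (1 + c θ ^ 2))) θ)

/-- monotonicity on the cylinder: divergence theorem with a cut-off and a Picone potential -/
def S_M : Prop := ∀ (G a b Δ : ℝ × ℝ → ℝ) (t1 t2 C : ℝ), t1 ≤ t2 → 0 ≤ C →
  Continuous G → (∀ q, 0 ≤ G q) → Continuous Δ →
  (∀ t θ, G (t, θ + 2 * π) = G (t, θ)) → (∀ t θ, a (t, θ + 2 * π) = a (t, θ)) →
  (∀ t θ, b (t, θ + 2 * π) = b (t, θ)) → (∀ t θ, Δ (t, θ + 2 * π) = Δ (t, θ)) →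
  (∀ q, 0 < G q → ContDiffAt ℝ 1 G q ∧ ContDiffAt ℝ 1 a q ∧ ContDiffAt ℝ 1 b q) →
  (∀ q : ℝ × ℝ, q.1 ∈ Icc t1 t2 → |a q| ≤ C * G q ∧ Δ q ≤ C * G q) →
  (∀ t ∈ Icc t1 t2, ∃ (θ0 : ℝ) (k : ℝ → ℝ), (G (t, θ0) = 0 ∨ k θ0 = k (θ0 + 2 * π)) ∧
    ∀ θ ∈ Icc θ0 (θ0 + 2 * π), 0 < G (t, θ) → ∃ k', HasDerivAt k k' θ ∧
      k' + Δ (t, θ) ≤ fderiv ℝ a (t, θ) (1, 0) + fderiv ℝ b (t, θ) (0, 1) ∧
      k θ * fderiv ℝ G (t, θ) (0, 1) - C * G (t, θ) ≤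
        fderiv ℝ G (t, θ) (1, 0) * a (t, θ) + fderiv ℝ G (t, θ) (0, 1) * b (t, θ)) →
  (∫ t in t1..t2, ∫ θ in (0 : ℝ)..(2 * π), Δ (t, θ)) ≤
    (∫ θ in (0 : ℝ)..(2 * π), a (t2, θ)) - ∫ θ in (0 : ℝ)..(2 * π), a (t1, θ)

/-- the sublinear case -/
def S_Sub : Prop := ∀ (u : ℂ → ℝ) (β R : ℝ), Sol u → Ang u β R → 0 ≤ β → β < π →
  (∀ ε, 0 < ε → ∃ R', ∀ z, R' ≤ ‖z‖ → u z ≤ ε * ‖z‖) → ∀ z, u z = 0

/-- the calibration argument: the support function is sublinear -/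
def S_One : Prop := ∀ (f : ℂ → ℝ) (γ : ℂ → ℂ) (β R : ℝ), HSol f γ → Ang f β R → 0 ≤ β → β < π →
  ∀ ε, 0 < ε → ∃ R', ∀ p, R' ≤ ‖p‖ → f p ≤ ε * ‖p‖

end Pool.Agent.P.MP_714120_an
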