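import Pool.Agent.P.MP_714120_an.Supp

/-! The horospherical transform of a solution. -/

open Complex Filter Topology MeasureTheory Set
open scoped Real ComplexConjugate

noncomputable section
namespace Pool.Agent.P.MP_714120_an

/-- the contact point at the ideal boundary -/
def Pm (u : ℂ → ℝ) (z : ℂ) : ℂ := z + u z * conj (phi u z)
/-- the radius of the tangent horoball -/
def Fm (u : ℂ → ℝ) (z : ℂ) : ℝ := u z * (1 + Nf u z) / 2

theorem supp' {u : ℂ → ℝ} (H : Sol u) {z : ℂ} (hz : 0 < u z) (z' : ℂ) :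
    4 * u z * (phi u z * (z' - z)).re ≤ (1 - Nf u z) * (normSq (z' - z) + u z' ^ 2 - u z ^ 2) := by
  have h := supp u H z hz z'
  have hN : 0 < 1 - Nf u z := by linarith [Nf_lt u z]
  have e : ((conj z + (u z : ℂ) * (2 * phi u z / (1 - (Nf u z : ℂ)))) * (z' - z)).re =
      ((z' - z) * conj z).re + u z * (2 * (phi u z * (z' - z)).re / (1 - Nf u z)) := by
    rw [add_mul, add_re, mul_assoc, re_ofReal_mul, ← ofReal_one, ← ofReal_sub, div_mul_eq_mul_div,
      div_ofReal_re, mul_assoc, mul_comm (z' - z)]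
    simp
  have e2 : normSq z' = normSq z + normSq (z' - z) + 2 * ((z' - z) * conj z).re := by
    simp [normSq_apply]; ring
  rw [e, e2] at h
  have h2 : 4 * u z * (phi u z * (z' - z)).re / (1 - Nf u z) ≤
      normSq (z' - z) + u z' ^ 2 - u z ^ 2 := by
    rw [mul_div_assoc]; rw [mul_div_assoc] at h; linarith
  rwa [div_le_iff₀' hN] at h2

theorem keyK {u : ℂ → ℝ} (H : Sol u) {z : ℂ} (hz : 0 < u z) (z' : ℂ) :
    (normSq (z' - z) + (u z' - u z) ^ 2) / 2 ≤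
      normSq (z' - Pm u z) + u z' ^ 2 - 2 * Fm u z * u z' := by
  have h := supp' H hz z'
  have e : normSq (z' - Pm u z) =
      normSq (z' - z) - 2 * u z * (phi u z * (z' - z)).re + u z ^ 2 * Nf u z := by
    simp [Pm, Nf, normSq_apply]; ring
  have h2 := mul_nonneg (Nf_nonneg u z)
    (add_nonneg (normSq_nonneg (z' - z)) (sq_nonneg (u z' - u z)))
  rw [e, Fm]
  linarith

theorem on_horo (u : ℂ → ℝ) (z : ℂ) : normSq (z - Pm u z) + u z ^ 2 = 2 * Fm u z * u z := by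
  simp [Pm, Fm, Nf, normSq_apply]; ring

theorem Fm_pos {u : ℂ → ℝ} {z : ℂ} (hz : 0 < u z) : 0 < Fm u z := by
  have := Nf_nonneg u z; unfold Fm; positivity

theorem Pm_inj {u : ℂ → ℝ} (H : Sol u) {z z' : ℂ} (hz : 0 < u z) (hz' : 0 < u z')
    (h : Pm u z = Pm u z') : z = z' := by
  have a := keyK H hz z'
  have b := keyK H hz' z
  have c := on_horo u z
  have d := on_horo u z'
  rw [h] at a c
  have n1 := normSq_nonneg (z' - z)
  have n2 := normSq_nonneg (z - z')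
  have s1 := sq_nonneg (u z' - u z)
  have s2 := sq_nonneg (u z - u z')
  have e1 : Fm u z ≤ Fm u z' := le_of_mul_le_mul_right (by linarith) hz'
  have e2 : Fm u z' ≤ Fm u z := le_of_mul_le_mul_right (by linarith) hz
  rw [le_antisymm e1 e2] at c
  exact sub_eq_zero.1 (normSq_eq_zero.1 (by linarith))

theorem Pm_pos {u : ℂ → ℝ} (H : Sol u) {z : ℂ} (hz : 0 < u z) :
    0 < u (Pm u z) ∧ 2 * Fm u z ≤ u (Pm u z) := by
  have a := keyK H hz (Pm u z)
  rw [sub_self, map_zero] at a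
  have n1 := normSq_nonneg (Pm u z - z)
  have h0 : 0 < u (Pm u z) := (H.nonneg _).lt_of_ne fun h => by
    rw [← h] at a; nlinarith
  exact ⟨h0, le_of_mul_le_mul_right (by nlinarith [sq_nonneg (u (Pm u z) - u z)]) h0⟩

theorem Pm_surj {u : ℂ → ℝ} (H : Sol u) {p : ℂ} (hp : 0 < u p) : ∃ z, 0 < u z ∧ Pm u z = p := by
  have hc := H.cont
  have cn := continuous_normSq
  set K := {z | normSq (z - p) + u z ^ 2 ≤ u p * u z} with hK
  have Kc : IsCompact K := by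
    refine Metric.isCompact_of_isClosed_isBounded (isClosed_le (by fun_prop) (by fun_prop)) ?_
    refine (Metric.isBounded_closedBall (x := p) (r := u p)).subset fun w hw => ?_
    rw [mem_closedBall_iff_norm]
    have : normSq (w - p) + u w ^ 2 ≤ u p * u w := hw
    rw [normSq_eq_norm_sq] at this
    exact le_of_sq_le_sq (by nlinarith [sq_nonneg (u p - u w), sq_nonneg (u w)]) hp.le
  have Kp : ∀ w ∈ K, 0 < u w := fun w hw => (H.nonneg w).lt_of_ne fun h => by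
    have : normSq (w - p) + u w ^ 2 ≤ u p * u w := hw
    rw [← h] at this
    have h2 : w = p := sub_eq_zero.1 (normSq_eq_zero.1
      (le_antisymm (by simpa using this) (normSq_nonneg _)))
    rw [h2] at h; exact hp.ne h
  have pK : p ∈ K := by simp [hK, sq]
  obtain ⟨z, zK, hm⟩ := Kc.exists_isMinOn ⟨p, pK⟩ (f := fun w => (normSq (w - p) + u w ^ 2) / u w)
    (ContinuousOn.div (by fun_prop) hc.continuousOn fun w hw => (Kp w hw).ne')
  have hz := Kp z zK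
  set g := (normSq (z - p) + u z ^ 2) / u z with hg
  have g0 : normSq (z - p) + u z ^ 2 = g * u z := by rw [hg]; field_simp
  have g1 : g ≤ u p := by rw [hg, div_le_iff₀ hz]; exact zK
  have gm : ∀ w, g * u w ≤ normSq (w - p) + u w ^ 2 := fun w => by
    by_cases hw : w ∈ K
    · exact (le_div_iff₀ (Kp w hw)).1 (hm hw)
    · exact (mul_le_mul_of_nonneg_right g1 (H.nonneg w)).trans (not_le.1 hw).le
  have g2 : 0 < g := by
    have := normSq_nonneg (z - p); rw [hg]; positivity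
  have g3 : g ≤ 2 * u z := by
    by_contra hcon
    push Not at hcon
    obtain ⟨w, hw, e⟩ := (convex_closedBall p ‖z - p‖).isPreconnected.intermediate_value
      (mem_closedBall_iff_norm.2 le_rfl) (Metric.mem_closedBall_self (norm_nonneg _))
      hc.continuousOn (show g / 2 ∈ Icc (u z) (u p) from ⟨by linarith, by linarith⟩)
    have a := gm w
    rw [mem_closedBall_iff_norm] at hw
    have b : normSq (w - p) ≤ normSq (z - p) := by
      rw [normSq_eq_norm_sq, normSq_eq_norm_sq]; gcongr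
    rw [e] at a
    nlinarith
  refine ⟨z, hz, ?_⟩
  have du := (bel u H z hz).2.2.2.1
  have hN : 0 < 1 - Nf u z := by linarith [Nf_lt u z]
  have dn : HasFDerivAt (fun w => normSq (w - p)) (rdot (2 * conj (z - p))) z := by
    have a := reCLM.hasFDerivAt.comp z ((hasFDerivAt_id z).sub_const p)
    have b := imCLM.hasFDerivAt.comp z ((hasFDerivAt_id z).sub_const p)
    exact ((a.mul a).add (b.mul b)).congr_fderiv (by ext d; simp; ring)
  have lm : IsLocalMin (fun w => normSq (w - p) + u w ^ 2 - g * u w) z :=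
    Eventually.of_forall fun w => by have := gm w; simp only; linarith
  have d0 := lm.hasFDerivAt_eq_zero ((dn.add (du.pow 2)).sub (du.const_mul g))
  have e : 2 * phi u z / (1 - (Nf u z : ℂ)) = ((2 / (1 - Nf u z) : ℝ) : ℂ) * phi u z := by
    push_cast; ring
  rw [e] at d0
  have d1 := congrArg (fun T : ℂ →L[ℝ] ℝ => T 1) d0
  have d2 := congrArg (fun T : ℂ →L[ℝ] ℝ => T I) d0
  simp [-ofReal_div] at d1 d2
  set t := (2 * u z - g) / (1 - Nf u z) with ht
  have t0 : t * (1 - Nf u z) = 2 * u z - g := by rw [ht]; field_simp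
  have t1 : 0 ≤ t := div_nonneg (by linarith) hN.le
  have x1 : z.re - p.re = -t * (phi u z).re := by
    rw [ht]; field_simp; field_simp at d1; linarith
  have x2 : z.im - p.im = t * (phi u z).im := by
    rw [ht]; field_simp; field_simp at d2; linarith
  have x3 : normSq (z - p) = t ^ 2 * Nf u z := by
    rw [normSq_apply, sub_re, sub_im, x1, x2, Nf, normSq_apply]; ring
  have x4 : (t - u z) * (t * Nf u z + u z) = 0 := by
    linear_combination g0 - x3 + u z * t0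
  have x5 : t = u z := by
    have := mul_nonneg t1 (Nf_nonneg u z)
    rcases mul_eq_zero.1 x4 with h | h <;> linarith
  rw [x5] at x1 x2
  apply Complex.ext <;> simp [Pm] <;> linarith

open Classical in
/-- inverse of the contact map -/
def Qm (u : ℂ → ℝ) (p : ℂ) : ℂ := if h : ∃ z, 0 < u z ∧ Pm u z = p then h.choose else p

theorem Qm_spec {u : ℂ → ℝ} (H : Sol u) {p : ℂ} (hp : 0 < u p) :
    0 < u (Qm u p) ∧ Pm u (Qm u p) = p := by
  rw [Qm, dif_pos (Pm_surj H hp)]; exact (Pm_surj H hp).choose_spec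

theorem Qm_Pm {u : ℂ → ℝ} (H : Sol u) {z : ℂ} (hz : 0 < u z) : Qm u (Pm u z) = z :=
  Pm_inj H (Qm_spec H (Pm_pos H hz).1).1 hz (Qm_spec H (Pm_pos H hz).1).2

theorem Fm_Qm_zero {u : ℂ → ℝ} (H : Sol u) {p : ℂ} (hp : u p = 0) : Fm u (Qm u p) = 0 := by
  rw [Qm, dif_neg, Fm, hp]; · simp
  rintro ⟨z, hz, rfl⟩
  exact (Pm_pos H hz).1.ne' hp

theorem hess_alg {h N n : ℝ} (hh : 0 < h) (N0 : 0 ≤ N) (N1 : N < 1) (n0 : 0 ≤ n)
    (hx : 4 * h * n ≤ 1 - N ^ 2) {D : ℝ} (hD : D = ((1 + N) / 2) ^ 2 - h ^ 2 * n ^ 2) :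
    0 < D ∧ (3 - N) * (4 * (h * (1 + N) / 2) ^ 2 * (n ^ 2 / D)) ≤ (1 + N) * (1 - N) ^ 2 ∧
      h * (1 + N) / 2 * ((1 + N) / 2 * n / D) ≤ 1 := by
  have x0 : 0 ≤ h * n := by positivity
  have x1 : (4 * (h * n)) ^ 2 ≤ (1 - N ^ 2) ^ 2 := by gcongr; linarith
  have x2 : h * n ≤ 1 / 4 := by nlinarith
  have x3 : 1 / 4 ≤ ((1 + N) / 2) ^ 2 := by nlinarith
  have x4 : (h * n) ^ 2 ≤ (1 / 4) ^ 2 := by gcongr
  have D0 : 0 < D := by rw [hD]; linarith
  refine ⟨D0, ?_, ?_⟩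
  · rw [← mul_div_assoc, ← mul_div_assoc, div_le_iff₀ D0, hD]
    have := mul_le_mul_of_nonneg_left x1 (by linarith : 0 ≤ 1 + N)
    linarith
  · rw [← mul_div_assoc, div_le_one D0, hD]
    have := mul_le_mul_of_nonneg_left x2 (sq_nonneg ((1 + N) / 2))
    linarith

theorem horo_loc {u : ℂ → ℝ} (H : Sol u) {z : ℂ} (hz : 0 < u z) :
    ContDiffAt ℝ 2 (fun p => conj (phi u (Qm u p))) (Pm u z) ∧
    HasFDerivAt (fun p => Fm u (Qm u p)) (rdot (phi u z)) (Pm u z) ∧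
    ∃ (A : ℝ) (B : ℂ), HasFDerivAt (fun p => conj (phi u (Qm u p))) (rlin A B) (Pm u z) ∧
      (1 + Nf u z) * A = 2 * Fm u z * (A ^ 2 - normSq B) ∧ A ^ 2 ≤ normSq B ∧
      (3 - Nf u z) * (4 * Fm u z ^ 2 * (normSq B - A ^ 2)) ≤ (1 + Nf u z) * (1 - Nf u z) ^ 2 ∧
      Fm u z * ‖B‖ ≤ 1 := by
  obtain ⟨Z, rfl, hφ, hZ⟩ := chart u H z hz
  obtain ⟨-, dZ, dh, dφ⟩ := hZ.self_of_nhds
  set ψ := dphi u (Z 0) * (1 - (Nf u (Z 0) : ℂ) ^ 2) / 2 with hψ
  have cφ : ∀ {n : WithTop ℕ∞}, ContDiffAt ℝ n (fun ζ => phi u (Z ζ)) 0 :=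
    hφ.contDiffAt.restrict_scalars ℝ
  have cc : ∀ {n : WithTop ℕ∞}, ContDiffAt ℝ n (fun ζ => conj (phi u (Z ζ))) 0 :=
    conjCLE.contDiff.contDiffAt.comp 0 cφ
  have cZ : ContDiffAt ℝ ((1 : ℕ) + 1) Z 0 := by
    rw [contDiffAt_succ_iff_hasFDerivAt]
    exact ⟨_, ⟨_, hZ, fun ζ h => h.2.1⟩,
      contDiffAt_rlin contDiffAt_const ((cc.pow 2).neg.div_const 2)⟩
  have ch : ContDiffAt ℝ ((1 : ℕ) + 1) (fun ζ => u (Z ζ)) 0 := by
    rw [contDiffAt_succ_iff_hasFDerivAt]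
    exact ⟨_, ⟨_, hZ, fun ζ h => h.2.2.1⟩, contDiff_rdot.contDiffAt.comp 0 cφ⟩
  have cP : ContDiffAt ℝ 2 (fun ζ => Pm u (Z ζ)) 0 :=
    ContDiffAt.add cZ ((ofRealCLM.contDiff.contDiffAt.comp 0 ch).mul cc)
  have dφ' := dφ.hasFDerivAt.restrictScalars ℝ
  have dc : HasFDerivAt (fun ζ => conj (phi u (Z ζ))) _ 0 := conjCLE.hasFDerivAt.comp 0 dφ'
  set h := u (Z 0) with hh
  set N := Nf u (Z 0) with hN
  set φ := phi u (Z 0) with hφ0
  have eN : φ * conj φ = N := phi_mul_conj _ _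
  have dP : HasFDerivAt (fun ζ => Pm u (Z ζ)) (rlin (((1 + N) / 2 : ℝ) : ℂ) (h * conj ψ)) 0 := by
    refine (dZ.add ((ofRealCLM.hasFDerivAt.comp 0 dh).mul dc)).congr_fderiv ?_
    ext d
    simp [re_eq_add_conj, -mul_re, ← hh, ← hφ0]
    linear_combination d / 2 * eN
  have N0 : 0 ≤ N := Nf_nonneg _ _
  have N1 : N < 1 := Nf_lt _ _
  have nψ : 4 * h * ‖ψ‖ ≤ 1 - N ^ 2 := by
    have a : 0 ≤ 1 - N ^ 2 := by nlinarith
    rw [hψ, norm_div, norm_mul, ← ofReal_pow, ← ofReal_one, ← ofReal_sub, norm_real,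
      Real.norm_of_nonneg a, Complex.norm_two]
    have := mul_le_mul_of_nonneg_right (maxp u H _ hz) a
    linarith
  obtain ⟨D0, a1, a2⟩ := hess_alg hz N0 N1 (norm_nonneg ψ) nψ rfl
  set D := ((1 + N) / 2) ^ 2 - h ^ 2 * ‖ψ‖ ^ 2 with hD
  have eψ : ψ * conj ψ = ((‖ψ‖ ^ 2 : ℝ) : ℂ) := by rw [mul_conj, normSq_eq_norm_sq]
  have eD : (((1 + N) / 2 : ℝ) : ℂ) * conj (((1 + N) / 2 : ℝ) : ℂ) -
      h * conj ψ * conj (h * conj ψ) = D := by
    rw [conj_ofReal, map_mul, conj_ofReal, conj_conj, hD]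
    push_cast at eψ ⊢
    linear_combination (-(h : ℂ) ^ 2) * eψ
  have hne : (((1 + N) / 2 : ℝ) : ℂ) * conj (((1 + N) / 2 : ℝ) : ℂ) -
      h * conj ψ * conj (h * conj ψ) ≠ 0 := by rw [eD, ofReal_ne_zero]; exact D0.ne'
  obtain ⟨G, G0, cG, hG⟩ := loc_inv two_ne_zero cP (rEquiv _ _ hne) dP
  have dP' : HasFDerivAt (fun ζ => Pm u (Z ζ)) (rEquiv _ _ hne : ℂ →L[ℝ] ℂ) (G (Pm u (Z 0))) := by
    rw [G0]; exact dP
  have dG := HasFDerivAt.of_local_left_inverse cG.continuousAt dP' hG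
  have hQ : Qm u =ᶠ[𝓝 (Pm u (Z 0))] fun y => Z (G y) := by
    have t : Tendsto G (𝓝 (Pm u (Z 0))) (𝓝 0) := by
      have := cG.continuousAt.tendsto; rwa [G0] at this
    filter_upwards [hG, t.eventually hZ] with y h1 h2
    rw [← Qm_Pm H h2.1, h1]
  have eγ : (fun p => conj (phi u (Qm u p))) =ᶠ[𝓝 (Pm u (Z 0))]
      (fun ζ => conj (phi u (Z ζ))) ∘ G := hQ.mono fun y hy => by simp only [hy]; rfl
  have ef : (fun p => Fm u (Qm u p)) =ᶠ[𝓝 (Pm u (Z 0))]
      (fun ζ => Fm u (Z ζ)) ∘ G := hQ.mono fun y hy => by simp only [hy]; rfl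
  refine ⟨(ContDiffAt.comp _ (by rw [G0]; exact cc) cG).congr_of_eventuallyEq eγ, ?_,
    -h * ‖ψ‖ ^ 2 / D, (((1 + N) / 2 / D : ℝ) : ℂ) * conj ψ, ?_, ?_⟩
  · have dF : HasFDerivAt (fun ζ => Fm u (Z ζ))
        ((rdot φ).comp (rEquiv _ _ hne : ℂ →L[ℝ] ℂ)) (G (Pm u (Z 0))) := by
      rw [G0]
      have dr := reCLM.hasFDerivAt.comp 0 dφ'
      have di := imCLM.hasFDerivAt.comp 0 dφ'
      refine ((dh.mul (((dr.mul dr).add (di.mul di)).const_add 1)).mul_const (2⁻¹)).congr_fderiv ?_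
      ext d
      simp [rEquiv_coe, ← hh, ← hφ0, hN, Nf, normSq_apply, -ofReal_div, -ofReal_add]
      ring
    refine ((dF.comp _ dG).congr_fderiv ?_).congr_of_eventuallyEq ef
    ext d; simp
  · have dc' : HasFDerivAt (fun ζ => conj (phi u (Z ζ))) (rlin 0 (conj ψ)) (G (Pm u (Z 0))) := by
      rw [G0]; exact dc.congr_fderiv (by ext d; simp [mul_comm])
    refine ((dc'.comp _ dG).congr_fderiv ?_).congr_of_eventuallyEq eγ
    ext d
    rw [rEquiv_symm_coe, eD]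
    push_cast at eψ
    simp [map_ofNat]
    linear_combination (-h * d / D) * eψ
  have eB : normSq ((((1 + N) / 2 / D : ℝ) : ℂ) * conj ψ) = ((1 + N) / 2 / D) ^ 2 * ‖ψ‖ ^ 2 := by
    rw [map_mul, normSq_ofReal, normSq_conj, normSq_eq_norm_sq, sq ((1 + N) / 2 / D)]
  have eA : ((1 + N) / 2 / D) ^ 2 * ‖ψ‖ ^ 2 - (-h * ‖ψ‖ ^ 2 / D) ^ 2 = ‖ψ‖ ^ 2 / D := by
    field_simp; rw [hD]; ring
  rw [eB, eA, Fm, ← hh, ← hN]
  refine ⟨?_, ?_, a1, ?_⟩
  · rw [← neg_sub, eA]; ring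
  · have : 0 ≤ ‖ψ‖ ^ 2 / D := by positivity
    linarith
  · rw [norm_mul, norm_real, Real.norm_of_nonneg (by positivity), RCLike.norm_conj]
    refine le_of_eq_of_le ?_ a2
    ring

theorem horo : S_Horo := by
  intro u H
  have pos : ∀ p, 0 < Fm u (Qm u p) ↔ 0 < u p := fun p =>
    ⟨fun h => (H.nonneg p).lt_of_ne fun h0 => h.ne' (Fm_Qm_zero H h0.symm),
      fun h => Fm_pos (Qm_spec H h).1⟩
  have nn : ∀ p, 0 ≤ Fm u (Qm u p) := fun p => by
    have := H.nonneg (Qm u p); have := Nf_nonneg u (Qm u p); unfold Fm; positivity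
  have loc := fun p (hp : 0 < Fm u (Qm u p)) => by
    have h := horo_loc H (Qm_spec H ((pos p).1 hp)).1
    rw [(Qm_spec H ((pos p).1 hp)).2] at h
    exact h
  refine ⟨fun p => Fm u (Qm u p), fun p => conj (phi u (Qm u p)), ⟨?_, nn, fun p hp => (loc p hp).1,
    fun p hp => by simpa using (loc p hp).2.1, fun p _ => by rw [normSq_conj]; exact (Nf_lt u _).le,
    fun p hp => by simpa only [normSq_conj, Nf] using (loc p hp).2.2, fun p p0 hp h0 => ?_⟩, pos,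
    fun z hz => ⟨Pm u z, ?_, ?_⟩⟩
  · refine continuous_iff_continuousAt.2 fun p => ?_
    rcases (H.nonneg p).eq_or_lt with h0 | h0
    · rw [ContinuousAt, Fm_Qm_zero H h0.symm]
      refine squeeze_zero nn (g := u) (fun p => ?_) (h0 ▸ H.cont.tendsto p)
      rcases (H.nonneg p).eq_or_lt with h1 | h1
      · rw [Fm_Qm_zero H h1.symm, ← h1]
      · have := (Pm_pos H (Qm_spec H h1).1).2
        rw [(Qm_spec H h1).2] at this
        linarith [nn p]
    · exact (loc p ((pos p).2 h0)).2.1.continuousAt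
  · have h1 : u p0 = 0 := ((H.nonneg p0).eq_or_lt.resolve_right fun h => ((pos p0).2 h).ne' h0).symm
    obtain ⟨h2, h3⟩ := Qm_spec H ((pos p).1 hp)
    have h4 := supp' H h2 p0
    generalize Qm u p = z at h2 h3 h4 ⊢
    rw [h1] at h4
    subst h3
    simp [Pm, Fm, Nf, normSq_apply] at h4 ⊢
    linarith
  · simp only [Qm_Pm H hz, Fm]
    nlinarith [Nf_nonneg u z]
  · simp only [Qm_Pm H hz]
    simp only [Fm, Pm, Nf, sub_add_cancel_left, norm_neg, norm_mul, norm_real,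
      RCLike.norm_conj, Real.norm_of_nonneg hz.le, normSq_eq_norm_sq]
    nlinarith [sq_nonneg (‖phi u z‖ - 1)]

end Pool.Agent.P.MP_714120_an
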