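import Pool.Agent.P.MP_714120_an.Defs

/-! Second order jets along a line. -/

open Complex Filter Topology Set
open scoped Real ComplexConjugate

noncomputable section
namespace Pool.Agent.P.MP_714120_an

def J2 {E : Type} [NormedAddCommGroup E] [NormedSpace ℝ E] (F : ℝ → E) (a b c : E) : Prop :=
  F 0 = a ∧ ∃ F1 : ℝ → E, (∀ᶠ s in 𝓝 (0 : ℝ), HasDerivAt F (F1 s) s) ∧ F1 0 = b ∧ HasDerivAt F1 c 0

theorem J2.nonpos {F : ℝ → ℝ} {a b c : ℝ} (h : J2 F a b c) (hm : IsLocalMax F 0) : c ≤ 0 := by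
  obtain ⟨-, F1, h1, -, h3⟩ := h
  have h0 : F1 0 = 0 := hm.hasDerivAt_eq_zero h1.self_of_nhds
  by_contra hc
  push Not at hc
  have h4 : ∀ᶠ s in 𝓝[>] (0 : ℝ), 0 < F1 s := by
    have := (hasDerivAt_iff_tendsto_slope.1 h3).mono_left (nhdsGT_le_nhdsNE 0)
    filter_upwards [this.eventually (lt_mem_nhds hc), self_mem_nhdsWithin] with s hs hs0
    rw [slope_def_field, h0, sub_zero, sub_zero] at hs
    exact (div_pos_iff_of_pos_right hs0).1 hs
  obtain ⟨δ, hδ, h5⟩ := Metric.eventually_nhds_iff.1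
    ((h1.and hm).and (eventually_nhdsWithin_iff.1 h4))
  have hd : ∀ s ∈ Icc 0 (δ / 2), dist s 0 < δ := fun s hs => by
    rw [Real.dist_eq, sub_zero, abs_of_nonneg hs.1]; linarith [hs.2]
  obtain ⟨ξ, hξ, e⟩ := exists_hasDerivAt_eq_slope F F1 (by linarith : (0 : ℝ) < δ / 2)
    (fun s hs => (h5 (hd s hs)).1.1.continuousAt.continuousWithinAt)
    (fun s hs => (h5 (hd s (Ioo_subset_Icc_self hs))).1.1)
  have h6 := (h5 (hd ξ (Ioo_subset_Icc_self hξ))).2 hξ.1
  have h7 := (h5 (hd (δ / 2) ⟨by linarith, le_rfl⟩)).1.2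
  rw [e, div_pos_iff_of_pos_right (by linarith)] at h6
  linarith

theorem J2.congr {E : Type} [NormedAddCommGroup E] [NormedSpace ℝ E] {F : ℝ → E} {a b c b' c' : E}
    (h : J2 F a b c) (hb : b = b') (hc : c = c') : J2 F a b' c' := hb ▸ hc ▸ h

theorem J2.const (a : ℝ) : J2 (fun _ => a) a 0 0 :=
  ⟨rfl, fun _ => 0, Eventually.of_forall fun s => hasDerivAt_const s a, rfl, hasDerivAt_const _ _⟩

theorem J2.add {F G : ℝ → ℝ} {a b c a' b' c' : ℝ} (h : J2 F a b c) (h' : J2 G a' b' c') :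
    J2 (fun s => F s + G s) (a + a') (b + b') (c + c') := by
  obtain ⟨rfl, F1, h1, rfl, h3⟩ := h
  obtain ⟨rfl, G1, g1, rfl, g3⟩ := h'
  exact ⟨rfl, fun s => F1 s + G1 s, (h1.and g1).mono fun s hs => hs.1.add hs.2, rfl, h3.add g3⟩

theorem J2.mul {F G : ℝ → ℝ} {a b c a' b' c' : ℝ} (h : J2 F a b c) (h' : J2 G a' b' c') :
    J2 (fun s => F s * G s) (a * a') (b * a' + a * b') (c * a' + 2 * b * b' + a * c') := by
  obtain ⟨rfl, F1, h1, rfl, h3⟩ := h
  obtain ⟨rfl, G1, g1, rfl, g3⟩ := h'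
  refine ⟨rfl, fun s => F1 s * G s + F s * G1 s, (h1.and g1).mono fun s hs => hs.1.mul hs.2, rfl, ?_⟩
  exact ((h3.mul g1.self_of_nhds).add (h1.self_of_nhds.mul g3)).congr_deriv (by ring)

theorem J2.smul {F : ℝ → ℝ} {a b c : ℝ} (k : ℝ) (h : J2 F a b c) :
    J2 (fun s => k * F s) (k * a) (k * b) (k * c) := by
  simpa using (J2.const k).mul h

theorem J2.log {F : ℝ → ℝ} {a b c : ℝ} (h : J2 F a b c) (ha : a ≠ 0) :
    J2 (fun s => Real.log (F s)) (Real.log a) (b / a) (c / a - b ^ 2 / a ^ 2) := by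
  obtain ⟨rfl, F1, h1, rfl, h3⟩ := h
  have h2 := h1.self_of_nhds.continuousAt.eventually_ne ha
  refine ⟨rfl, fun s => F1 s / F s, (h1.and h2).mono fun s hs => hs.1.log hs.2, rfl, ?_⟩
  exact (h3.div h1.self_of_nhds ha).congr_deriv (by field_simp)

theorem J2.clm {F : ℝ → ℂ} {a b c : ℂ} (h : J2 F a b c) (L : ℂ →L[ℝ] ℝ) :
    J2 (fun s => L (F s)) (L a) (L b) (L c) := by
  obtain ⟨rfl, F1, h1, rfl, h3⟩ := h
  exact ⟨rfl, fun s => L (F1 s), h1.mono fun s hs => L.hasFDerivAt.comp_hasDerivAt s hs, rfl,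
    L.hasFDerivAt.comp_hasDerivAt 0 h3⟩

theorem J2.normSq {F : ℝ → ℂ} {a b c : ℂ} (h : J2 F a b c) :
    J2 (fun s => normSq (F s)) (normSq a) (2 * (b * conj a).re)
      (2 * normSq b + 2 * (c * conj a).re) := by
  have := ((h.clm reCLM).mul (h.clm reCLM)).add ((h.clm imCLM).mul (h.clm imCLM))
  exact J2.congr this (by simp; ring) (by simp [normSq_apply]; ring)

theorem line_tendsto (e : ℂ) : Tendsto (fun s : ℝ => (s : ℂ) * e) (𝓝 0) (𝓝 0) := by
  have : Continuous fun s : ℝ => (s : ℂ) * e := by fun_prop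
  simpa using this.tendsto 0

theorem line_deriv (e : ℂ) (s : ℝ) : HasDerivAt (fun s : ℝ => (s : ℂ) * e) e s := by
  simpa using ((hasDerivAt_id s).ofReal_comp).mul_const e

theorem line_comp {F : ℂ → ℂ} {F' : ℂ} (e : ℂ) (s : ℝ) (h : HasDerivAt F F' (s * e)) :
    HasDerivAt (fun s : ℝ => F (s * e)) (F' * e) s := by
  have := (h.hasFDerivAt.restrictScalars ℝ).comp_hasDerivAt s (line_deriv e s)
  exact this.congr_deriv (by simp [mul_comm])

theorem J2.analytic {F : ℂ → ℂ} (h : AnalyticAt ℂ F 0) (e : ℂ) :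
    J2 (fun s : ℝ => F (s * e)) (F 0) (deriv F 0 * e) (deriv (deriv F) 0 * e ^ 2) := by
  refine ⟨by simp, fun s => deriv F (s * e) * e, ?_, by simp, ?_⟩
  · filter_upwards [(line_tendsto e).eventually h.eventually_analyticAt] with s hs
    exact line_comp e s hs.differentiableAt.hasDerivAt
  · have h1 : HasDerivAt (deriv F) (deriv (deriv F) 0) (((0 : ℝ) : ℂ) * e) := by
      simpa using h.deriv.differentiableAt.hasDerivAt
    exact ((line_comp e 0 h1).mul_const e).congr_deriv (by ring)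

end Pool.Agent.P.MP_714120_an
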