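import Pool.Agent.P.MP_714120_an.Defs

/-! Cut-off, angle function and the monotonicity lemma on the cylinder. -/

open Filter Topology MeasureTheory Set
open scoped Real

noncomputable section
namespace Pool.Agent.P.MP_714120_an

theorem st_deriv_bound : ∃ B : ℝ, 0 < B ∧ ∀ x, deriv Real.smoothTransition x ≤ B := by
  have hc : Continuous (deriv Real.smoothTransition) :=
    (Real.smoothTransition.contDiff (n := 1)).continuous_deriv le_rfl
  obtain ⟨B, hB⟩ := (isCompact_Icc (a := (0 : ℝ)) (b := 1)).exists_bound_of_continuousOn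
    hc.continuousOn
  refine ⟨max B 1, by positivity, fun x => ?_⟩
  by_cases h0 : x < 0
  · have : Real.smoothTransition =ᶠ[𝓝 x] fun _ => 0 := by
      filter_upwards [Iio_mem_nhds h0] with y hy using Real.smoothTransition.zero_of_nonpos (le_of_lt hy)
    rw [this.deriv_eq]; simp
  by_cases h1 : 1 < x
  · have : Real.smoothTransition =ᶠ[𝓝 x] fun _ => 1 := by
      filter_upwards [Ioi_mem_nhds h1] with y hy using Real.smoothTransition.one_of_one_le (le_of_lt hy)
    rw [this.deriv_eq]; simp
  · exact ((le_abs_self _).trans (hB x ⟨not_lt.1 h0, not_lt.1 h1⟩)).trans (le_max_left _ _)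

theorem cut : S_Cut := by
  intro c0 σ hc0 hσ
  obtain ⟨B, hB0, hB⟩ := st_deriv_bound
  set L := B / σ with hL
  have hL0 : 0 < L := by positivity
  set c := c0 * Real.exp (-L) with hc
  have hcp : 0 < c := by positivity
  set η : ℝ → ℝ := fun s => if 0 < s then Real.smoothTransition (1 + Real.log (s / c0) / L) else 0
    with hη
  have hz : ∀ s, s ≤ c → η s = 0 := fun s hs => by
    simp only [hη]
    split_ifs with h
    · apply Real.smoothTransition.zero_of_nonpos
      have : Real.log (s / c0) ≤ -L := by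
        rw [Real.log_le_iff_le_exp (by positivity), div_le_iff₀ hc0]; linarith
      have : Real.log (s / c0) / L ≤ -1 := by rw [div_le_iff₀ hL0]; linarith
      linarith
    · rfl
  have hzero : ∀ s, s < c → η =ᶠ[𝓝 s] fun _ => 0 := fun s hs => by
    filter_upwards [Iio_mem_nhds hs] with y hy using hz y (le_of_lt hy)
  have hpos : ∀ s, 0 < s →
      η =ᶠ[𝓝 s] fun s => Real.smoothTransition (1 + Real.log (s / c0) / L) := fun s hs => by
    filter_upwards [Ioi_mem_nhds hs] with y hy using if_pos hy
  refine ⟨η, c, hcp, contDiff_iff_contDiffAt.2 fun s => ?_, hz, fun s hs => ?_, fun s => ?_,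
    fun s => ?_⟩
  · by_cases h : 0 < s
    · refine ContDiffAt.congr_of_eventuallyEq ?_ (hpos s h)
      refine (Real.smoothTransition.contDiffAt (n := 1)).comp s ?_
      exact contDiffAt_const.add (((contDiffAt_id.div_const c0).log (by
        simp only [id]; positivity)).div_const L)
    · exact contDiffAt_const.congr_of_eventuallyEq (hzero s (by linarith))
  · have h : 0 < s := by linarith
    simp only [hη, if_pos h]
    apply Real.smoothTransition.one_of_one_le
    have : 0 ≤ Real.log (s / c0) := Real.log_nonneg (by rw [le_div_iff₀ hc0]; linarith)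
    have : 0 ≤ Real.log (s / c0) / L := by positivity
    linarith
  · simp only [hη]
    split_ifs
    · exact ⟨Real.smoothTransition.nonneg _, Real.smoothTransition.le_one _⟩
    · exact ⟨le_rfl, zero_le_one⟩
  · by_cases h : 0 < s
    · have h1 : HasDerivAt (fun s => 1 + Real.log (s / c0) / L) ((1 / c0) / (s / c0) / L) s :=
        ((((hasDerivAt_id s).div_const c0).log (by simp only [id]; positivity)).div_const L).const_add 1
      have h2 := (((Real.smoothTransition.contDiff (n := 1)).differentiable one_ne_zero)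
        (1 + Real.log (s / c0) / L)).hasDerivAt.comp s h1
      have h3 : deriv η s = deriv Real.smoothTransition (1 + Real.log (s / c0) / L) *
          ((1 / c0) / (s / c0) / L) := by
        rw [(hpos s h).deriv_eq]; exact h2.deriv
      have h4 := Real.smoothTransition.monotone.deriv_nonneg (x := 1 + Real.log (s / c0) / L)
      have h5 := hB (1 + Real.log (s / c0) / L)
      rw [h3]
      refine ⟨by positivity, ?_⟩
      have : s * (deriv Real.smoothTransition (1 + Real.log (s / c0) / L) * ((1 / c0) / (s / c0) / L))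
          = deriv Real.smoothTransition (1 + Real.log (s / c0) / L) / L := by field_simp
      rw [this, div_le_iff₀ hL0]
      have : σ * L = B := by rw [hL]; field_simp
      linarith
    · rw [(hzero s (by linarith)).deriv_eq]; simp [hσ.le]

theorem angle : S_P := by
  intro G β κ hG hG0 hper hvol hβ hκ hκβ
  set S : Set ℝ := {θ | 0 < G θ} with hS
  have hSo : IsOpen S := isOpen_lt continuous_const hG
  set χ : ℝ → ℝ := S.indicator fun _ => 1 with hχ
  have hχ0 : ∀ θ, 0 ≤ χ θ := fun θ => indicator_nonneg (fun _ _ => zero_le_one) θ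
  have hχm : Measurable χ := measurable_const.indicator hSo.measurableSet
  have hχi : ∀ a b, IntervalIntegrable χ volume a b := fun a b =>
    ⟨(integrableOn_const (C := (1 : ℝ)) measure_Ioc_lt_top.ne).indicator hSo.measurableSet,
     (integrableOn_const (C := (1 : ℝ)) measure_Ioc_lt_top.ne).indicator hSo.measurableSet⟩
  have hχp : Function.Periodic χ (2 * π) := fun θ => by
    simp only [hχ, indicator, hS, mem_ofPred_eq, hper]
  have hpi := Real.pi_pos
  have hint : ∫ θ in (0 : ℝ)..(2 * π), χ θ ≤ β := by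
    rw [intervalIntegral.integral_of_le (by positivity), integral_Ioc_eq_integral_Ioo,
      ← integral_Ico_eq_integral_Ioo, hχ, setIntegral_indicator hSo.measurableSet]
    simp only [integral_const, MeasurableSet.univ, measureReal_restrict_apply, univ_inter,
      smul_eq_mul, mul_one]
    exact ENNReal.toReal_le_of_le_ofReal hβ hvol
  have hβπ : β < π := by nlinarith
  obtain ⟨θ0, hθ0⟩ : ∃ θ0, G θ0 = 0 := by
    by_contra hcon
    push Not at hcon
    have : χ = fun _ => 1 := by
      funext θ; exact indicator_of_mem (show θ ∈ S from (hG0 θ).lt_of_ne (hcon θ).symm) _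
    rw [this] at hint
    simp at hint; linarith
  refine ⟨θ0, hθ0, fun θ => -Real.tan (κ * (∫ x in θ0..θ, χ x) - κ * β / 2), fun θ hθ => ?_⟩
  have h1 : 0 ≤ ∫ x in θ0..θ, χ x := intervalIntegral.integral_nonneg hθ.1 fun x _ => hχ0 x
  have h2 : ∫ x in θ0..θ, χ x ≤ β := by
    have e := hχp.intervalIntegral_add_eq θ0 0
    rw [zero_add] at e
    refine le_trans ?_ (e ▸ hint)
    exact intervalIntegral.integral_mono_interval le_rfl hθ.1 hθ.2
      (Eventually.of_forall hχ0) (hχi _ _)
  set ψ := ∫ x in θ0..θ, χ x with hψ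
  have h3 : -(κ * β / 2) ≤ κ * ψ - κ * β / 2 := by nlinarith
  have h4 : κ * ψ - κ * β / 2 ≤ κ * β / 2 := by nlinarith
  have h5 : 0 ≤ κ * β := by positivity
  have m1 : κ * ψ - κ * β / 2 ∈ Ioo (-(π / 2)) (π / 2) := ⟨by linarith, by linarith⟩
  have m2 : κ * β / 2 ∈ Ioo (-(π / 2)) (π / 2) := ⟨by linarith, by linarith⟩
  have m3 : -(κ * β / 2) ∈ Ioo (-(π / 2)) (π / 2) := ⟨by linarith, by linarith⟩
  constructor
  · rw [abs_neg, abs_le]
    have a1 := Real.strictMonoOn_tan.monotoneOn m1 m2 h4
    have a2 := Real.strictMonoOn_tan.monotoneOn m3 m1 h3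
    rw [Real.tan_neg] at a2
    exact ⟨a2, a1⟩
  · intro hθG
    have hc : χ =ᶠ[𝓝 θ] fun _ => 1 := by
      filter_upwards [hSo.mem_nhds hθG] with x hx using indicator_of_mem hx _
    have hd := intervalIntegral.integral_hasDerivAt_right (hχi θ0 θ)
      hχm.stronglyMeasurable.stronglyMeasurableAtFilter
      (continuousAt_const.congr hc.symm)
    rw [hc.eq_of_nhds] at hd
    have hcos : Real.cos (κ * ψ - κ * β / 2) ≠ 0 := (Real.cos_pos_of_mem_Ioo m1).ne'
    have hd2 := ((Real.hasDerivAt_tan hcos).comp θ ((hd.const_mul κ).sub_const (κ * β / 2))).neg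
    refine hd2.congr_deriv ?_
    have := Real.inv_one_add_tan_sq hcos
    rw [← this, neg_sq, one_div, inv_inv, ← hψ]; ring

theorem contDiff_cut {G a : ℝ × ℝ → ℝ} {η : ℝ → ℝ} {c : ℝ} (hc : 0 < c) (hη : ContDiff ℝ 1 η)
    (hz : ∀ s, s ≤ c → η s = 0) (hG : Continuous G)
    (h : ∀ q, 0 < G q → ContDiffAt ℝ 1 G q ∧ ContDiffAt ℝ 1 a q) :
    ContDiff ℝ 1 fun q => η (G q) * a q := by
  refine contDiff_iff_contDiffAt.2 fun q => ?_
  by_cases h0 : 0 < G q
  · exact (hη.contDiffAt.comp q (h q h0).1).mul (h q h0).2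
  · refine (contDiffAt_const (c := (0 : ℝ))).congr_of_eventuallyEq ?_
    filter_upwards [hG.continuousAt.eventually_lt continuousAt_const (show G q < c by linarith)]
      with y hy
    rw [hz _ hy.le, zero_mul]

theorem fderiv_periodic {F : ℝ × ℝ → ℝ} (h : ∀ t θ, F (t, θ + 2 * π) = F (t, θ)) (t θ : ℝ) :
    fderiv ℝ F (t, θ + 2 * π) = fderiv ℝ F (t, θ) := by
  have e : (fun x : ℝ × ℝ => F (x + (0, 2 * π))) = F := by
    funext x; obtain ⟨x1, x2⟩ := x; simp [h]
  have := fderiv_comp_add_right (𝕜 := ℝ) (f := F) (x := (t, θ)) ((0, 2 * π) : ℝ × ℝ)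
  rw [e] at this
  simpa using this.symm

theorem cont_slice {G a : ℝ × ℝ → ℝ} {t C : ℝ} (hG : Continuous G) (hG0 : ∀ q, 0 ≤ G q)
    (ha : ∀ q, 0 < G q → ContinuousAt a q) (hb : ∀ θ, |a (t, θ)| ≤ C * G (t, θ)) :
    Continuous fun θ => a (t, θ) := by
  refine continuous_iff_continuousAt.2 fun θ => ?_
  have hl : Continuous fun θ : ℝ => ((t, θ) : ℝ × ℝ) := by fun_prop
  rcases (hG0 (t, θ)).lt_or_eq with h0 | h0
  · exact ContinuousAt.comp (f := fun θ : ℝ => ((t, θ) : ℝ × ℝ)) (ha _ h0) hl.continuousAt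
  · have h1 : a (t, θ) = 0 := by
      have := hb θ; rw [← h0, mul_zero] at this; exact abs_nonpos_iff.1 this
    rw [ContinuousAt, h1]
    have h2 : Tendsto (fun θ => C * G (t, θ)) (𝓝 θ) (𝓝 0) := by
      have := ((hG.comp hl).const_mul C).tendsto θ
      simpa [← h0] using this
    exact squeeze_zero_norm hb h2

theorem mono : S_M := by
  intro G a b Δ t1 t2 C ht hC hG hG0 hΔ pG pa pb pΔ hC1 hbd hk
  have hpi := Real.pi_pos
  refine le_of_forall_pos_le_add fun ε hε => ?_
  set σ := ε / (4 * π * C * (t2 - t1) + 4 * π * C + 1) with hσ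
  have hden : 0 < 4 * π * C * (t2 - t1) + 4 * π * C + 1 := by
    have : 0 ≤ t2 - t1 := by linarith
    positivity
  have hσ0 : 0 < σ := by positivity
  obtain ⟨η, c, hc, hη, hz, ho, h01, hd⟩ := cut σ σ hσ0 hσ0
  set A : ℝ × ℝ → ℝ := fun q => η (G q) * a q with hA
  set B : ℝ × ℝ → ℝ := fun q => η (G q) * b q with hB
  have cA : ContDiff ℝ 1 A := contDiff_cut hc hη hz hG fun q h => ⟨(hC1 q h).1, (hC1 q h).2.1⟩
  have cB : ContDiff ℝ 1 B := contDiff_cut hc hη hz hG fun q h => ⟨(hC1 q h).1, (hC1 q h).2.2⟩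
  set D : ℝ × ℝ → ℝ := fun q => fderiv ℝ A q (1, 0) + fderiv ℝ B q (0, 1) with hD
  have cD : Continuous D :=
    ((cA.continuous_fderiv one_ne_zero).clm_apply continuous_const).add
      ((cB.continuous_fderiv one_ne_zero).clm_apply continuous_const)
  have pA : ∀ t θ, A (t, θ + 2 * π) = A (t, θ) := fun t θ => by simp only [hA, pG, pa]
  have pB : ∀ t θ, B (t, θ + 2 * π) = B (t, θ) := fun t θ => by simp only [hB, pG, pb]
  have hdiv := integral2_divergence_prod_of_hasFDerivAt A B (fderiv ℝ A) (fderiv ℝ B) t1 0 t2 (2 * π)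
    cA.continuous.continuousOn cB.continuous.continuousOn
    (fun x _ => (cA.differentiable one_ne_zero x).hasFDerivAt)
    (fun x _ => (cB.differentiable one_ne_zero x).hasFDerivAt)
    (cD.continuousOn.integrableOn_compact (isCompact_uIcc.prod isCompact_uIcc))
  have eB : (fun x => B (x, 2 * π)) = fun x => B (x, 0) := by
    funext x; have := pB x 0; rwa [zero_add] at this
  rw [eB, sub_self, zero_add] at hdiv
  have hl : ∀ t : ℝ, Continuous fun θ : ℝ => ((t, θ) : ℝ × ℝ) := fun t => by fun_prop
  have inner : ∀ t ∈ Icc t1 t2, ∫ θ in (0 : ℝ)..(2 * π), Δ (t, θ) ≤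
      (∫ θ in (0 : ℝ)..(2 * π), D (t, θ)) + 4 * π * C * σ := by
    intro t htt
    obtain ⟨θ0, k, hk0, hk1⟩ := hk t htt
    set φ : ℝ → ℝ := fun θ => D (t, θ) - Δ (t, θ) + 2 * C * σ with hφ
    have cDt : Continuous fun θ => D (t, θ) := cD.comp (hl t)
    have cΔt : Continuous fun θ => Δ (t, θ) := hΔ.comp (hl t)
    have cDΔ : Continuous fun θ => D (t, θ) - Δ (t, θ) := cDt.sub cΔt
    have cφ : Continuous φ := cDΔ.add continuous_const
    have pφ : Function.Periodic φ (2 * π) := fun θ => by
      simp only [hφ, hD, fderiv_periodic pA, fderiv_periodic pB, pΔ]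
    have key : ∀ θ ∈ Icc θ0 (θ0 + 2 * π), ∃ κ', HasDerivAt (fun θ => η (G (t, θ)) * k θ) κ' θ ∧
        κ' ≤ φ θ := by
      intro θ hθ
      have hb := hbd (t, θ) htt
      rcases (hG0 (t, θ)).lt_or_eq with h0 | h0
      · obtain ⟨k', hk', h1, h2⟩ := hk1 θ hθ h0
        obtain ⟨c1, c2, c3⟩ := hC1 _ h0
        have dG := (c1.differentiableAt one_ne_zero).hasFDerivAt
        have da := (c2.differentiableAt one_ne_zero).hasFDerivAt
        have db := (c3.differentiableAt one_ne_zero).hasFDerivAt
        have dη := (hη.differentiable one_ne_zero (G (t, θ))).hasDerivAt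
        have dηG := dη.comp_hasFDerivAt (t, θ) dG
        have dA : HasFDerivAt A _ (t, θ) := dηG.mul da
        have dB : HasFDerivAt B _ (t, θ) := dηG.mul db
        have dl : HasDerivAt (fun θ : ℝ => ((t, θ) : ℝ × ℝ)) (0, 1) θ :=
          (hasDerivAt_const θ t).prodMk (hasDerivAt_id θ)
        have dκ := (dηG.comp_hasDerivAt θ dl).mul hk'
        refine ⟨_, dκ, ?_⟩
        simp only [hφ, hD, dA.fderiv, dB.fderiv, add_apply, smul_apply, smul_eq_mul,
          Function.comp_apply]
        obtain ⟨d0, d1⟩ := hd (G (t, θ))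
        obtain ⟨e0, e1⟩ := h01 (G (t, θ))
        have i1 := mul_le_mul_of_nonneg_left h1 e0
        have i2 := mul_le_mul_of_nonneg_left h2 d0
        have i3 : (1 - η (G (t, θ))) * Δ (t, θ) ≤ C * σ := by
          rcases le_total σ (G (t, θ)) with h3 | h3
          · rw [ho _ h3]; simp; positivity
          · calc _ ≤ (1 - η (G (t, θ))) * (C * G (t, θ)) :=
                mul_le_mul_of_nonneg_left hb.2 (by linarith)
              _ ≤ 1 * (C * σ) := by gcongr; linarith
              _ = _ := one_mul _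
        have i4 := mul_le_mul_of_nonneg_left d1 hC
        linarith
      · have hev : ∀ᶠ q in 𝓝 ((t, θ) : ℝ × ℝ), η (G q) = 0 := by
          filter_upwards [hG.continuousAt.eventually_lt continuousAt_const
            (show G (t, θ) < c by linarith)] with y hy using hz _ hy.le
        have eA : A =ᶠ[𝓝 (t, θ)] fun _ => 0 := by
          filter_upwards [hev] with q hq; simp [hA, hq]
        have eB : B =ᶠ[𝓝 (t, θ)] fun _ => 0 := by
          filter_upwards [hev] with q hq; simp [hB, hq]
        refine ⟨0, (hasDerivAt_const θ (0 : ℝ)).congr_of_eventuallyEq ?_, ?_⟩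
        · filter_upwards [(hl t).continuousAt.eventually hev] with x hx; simp [hx]
        · simp only [hφ, hD, eA.fderiv_eq, eB.fderiv_eq]
          have := hb.2; rw [← h0] at this
          have : 0 ≤ C * σ := by positivity
          simp; linarith
    choose! κ' hκ using key
    have hle := intervalIntegral.sub_le_integral_of_hasDeriv_right_of_le
      (g := fun θ => η (G (t, θ)) * k θ) (g' := κ') (φ := φ) (a := θ0) (b := θ0 + 2 * π)
      (by linarith) (fun x hx => (hκ x hx).1.continuousAt.continuousWithinAt)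
      (fun x hx => (hκ x (Ioo_subset_Icc_self hx)).1.hasDerivWithinAt)
      cφ.integrableOn_Icc (fun x hx => (hκ x (Ioo_subset_Icc_self hx)).2)
    have e0 : η (G (t, θ0 + 2 * π)) * k (θ0 + 2 * π) - η (G (t, θ0)) * k θ0 = 0 := by
      rw [pG]
      rcases hk0 with h | h
      · rw [h, hz 0 hc.le]; simp
      · rw [h]; simp
    rw [e0, pφ.intervalIntegral_add_eq θ0 0, zero_add, hφ, intervalIntegral.integral_add
      (cDΔ.intervalIntegrable _ _) intervalIntegrable_const,
      intervalIntegral.integral_sub (cDt.intervalIntegrable _ _)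
        (cΔt.intervalIntegrable _ _)] at hle
    simp only [intervalIntegral.integral_const, sub_zero, smul_eq_mul] at hle
    linarith
  have c1 : Continuous fun t => ∫ θ in (0 : ℝ)..(2 * π), Δ (t, θ) :=
    intervalIntegral.continuous_parametric_intervalIntegral_of_continuous'
      (f := fun t θ => Δ (t, θ)) hΔ _ _
  have c2 : Continuous fun t => ∫ θ in (0 : ℝ)..(2 * π), D (t, θ) :=
    intervalIntegral.continuous_parametric_intervalIntegral_of_continuous'
      (f := fun t θ => D (t, θ)) cD _ _
  have c3 : Continuous fun t => (∫ θ in (0 : ℝ)..(2 * π), D (t, θ)) + 4 * π * C * σ :=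
    c2.add continuous_const
  have outer := intervalIntegral.integral_mono_on ht (c1.intervalIntegrable (μ := volume) _ _)
    (c3.intervalIntegrable _ _) inner
  rw [intervalIntegral.integral_add (c2.intervalIntegrable _ _) intervalIntegrable_const] at outer
  simp only [intervalIntegral.integral_const, smul_eq_mul] at outer
  have close : ∀ t ∈ Icc t1 t2, |(∫ θ in (0 : ℝ)..(2 * π), A (t, θ)) -
      ∫ θ in (0 : ℝ)..(2 * π), a (t, θ)| ≤ 2 * π * C * σ := by
    intro t htt
    have ca := cont_slice hG hG0 (fun q h => (hC1 q h).2.1.continuousAt)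
      (fun θ => (hbd (t, θ) htt).1)
    have cAt : Continuous fun θ => A (t, θ) := cA.continuous.comp (hl t)
    rw [← intervalIntegral.integral_sub (cAt.intervalIntegrable _ _)
      (ca.intervalIntegrable _ _)]
    have := intervalIntegral.norm_integral_le_of_norm_le_const (a := 0) (b := 2 * π) (C := C * σ)
      (f := fun θ => A (t, θ) - a (t, θ)) (fun θ _ => by
        have e : A (t, θ) - a (t, θ) = -((1 - η (G (t, θ))) * a (t, θ)) := by simp only [hA]; ring
        obtain ⟨e0, e1⟩ := h01 (G (t, θ))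
        rw [e, norm_neg, Real.norm_eq_abs, abs_mul, abs_of_nonneg (by linarith)]
        rcases le_total σ (G (t, θ)) with h3 | h3
        · rw [ho _ h3]; simp; positivity
        · calc _ ≤ (1 - η (G (t, θ))) * (C * G (t, θ)) :=
              mul_le_mul_of_nonneg_left (hbd (t, θ) htt).1 (by linarith)
            _ ≤ 1 * (C * σ) := by have := hG0 (t, θ); gcongr; linarith
            _ = _ := one_mul _)
    rw [Real.norm_eq_abs, sub_zero, abs_of_pos (by positivity : 0 < 2 * π)] at this
    calc _ ≤ C * σ * (2 * π) := this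
      _ = _ := by ring
  have k1 := abs_le.1 (close t1 ⟨le_rfl, ht⟩)
  have k2 := abs_le.1 (close t2 ⟨ht, le_rfl⟩)
  have k3 : σ * (4 * π * C * (t2 - t1) + 4 * π * C + 1) = ε := div_mul_cancel₀ _ hden.ne'
  have hdiv' : (∫ t in t1..t2, ∫ θ in (0 : ℝ)..(2 * π), D (t, θ)) =
      (∫ θ in (0 : ℝ)..(2 * π), A (t2, θ)) - ∫ θ in (0 : ℝ)..(2 * π), A (t1, θ) := hdiv
  linarith

end Pool.Agent.P.MP_714120_an
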