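import Pool.Agent.P.MP_714120_an.Cyl
import Pool.Agent.P.MP_714120_an.CalId

/-! The calibration argument: the support function is sublinear. -/

open Complex Filter Topology MeasureTheory Set
open scoped Real ComplexConjugate

noncomputable section
namespace Pool.Agent.P.MP_714120_an
open LP

attribute [local irreducible] Psi Sg Eps Ee Mu A0 B0 c0 c1 c2 c3 PP Kl

theorem sq_bd {C g X u k : ℝ} (hg : 0 ≤ g) (hX : |X| ≤ C * g ^ 2) (hu : |g * u| ≤ k) :
    |X * u| ≤ C * k * g := by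
  rcases hg.lt_or_eq with h | h
  · have hC : 0 ≤ C := by
      by_contra hc; push Not at hc
      have := mul_neg_of_neg_of_pos hc (pow_pos h 2)
      linarith [abs_nonneg X]
    rw [abs_mul] at hu ⊢
    rw [abs_of_pos h] at hu
    calc _ ≤ C * g ^ 2 * |u| := by gcongr
      _ = C * g * (g * |u|) := by ring
      _ ≤ C * g * k := by gcongr
      _ = _ := by ring
  · rw [← h] at hX ⊢
    have : X = 0 := abs_nonpos_iff.1 (by simpa using hX)
    simp [this]

theorem small_of_region {g p y e : ℝ} (hg : 0 ≤ g) (he : e ≤ 1) (h : (g + |p|) ^ 2 + y ^ 2 ≤ 1 + e) :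
    |g| ≤ 2 ∧ |p| ≤ 2 ∧ |y| ≤ 2 := by
  have hp := abs_nonneg p
  have h1 : g + |p| ≤ 2 := by nlinarith [sq_nonneg y]
  refine ⟨by rw [abs_of_nonneg hg]; linarith, by linarith, ?_⟩
  rw [abs_le]; constructor <;> nlinarith [sq_nonneg (g + |p|)]

theorem ab_bound : ∃ C : ℝ, 0 ≤ C ∧ ∀ (f : ℂ → ℝ) (γ : ℂ → ℂ), HSol f γ → ∀ q, |gC f q| ≤ 2 →
    |pC f γ q| ≤ 2 → |yC γ q| ≤ 2 → 0 < gC f q →
    |aF (gC f) (pC f γ) (yC γ) q| ≤ C * gC f q ∧ |bF (gC f) (pC f γ) (yC γ) q| ≤ C * gC f q := by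
  obtain ⟨C1, h1, b1⟩ := bound_div z_A0 2
  obtain ⟨C2, h2, b2⟩ := bound_div z_B0 2
  obtain ⟨C3, h3, b3⟩ := bound_div2 z_Py z_Py' 2
  obtain ⟨C4, h4, b4⟩ := bound_div2 z_Pz z_Pz' 2
  refine ⟨C1 + C2 + 10 * C3 + 10 * C4, by positivity, fun f γ H q hg hp hy h0 => ?_⟩
  obtain ⟨-, -, -, -, -, e, -, d1, d2, d3, -⟩ := cyl H h0
  have a1 := b1 _ _ _ hg hp hy
  have a2 := b2 _ _ _ hg hp hy
  have a3 := b3 _ _ _ hg hp hy
  have a4 := b4 _ _ _ hg hp hy
  rw [abs_of_pos h0] at a1 a2 hg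
  have m1 : |gC f q * pC f γ q| ≤ 4 := by
    rw [abs_mul, abs_of_pos h0]; nlinarith [abs_nonneg (pC f γ q)]
  have m2 : |gC f q * gC f q| ≤ 4 := by rw [abs_mul, abs_of_pos h0]; nlinarith
  have u1 : |gC f q * fderiv ℝ (pC f γ) q (1, 0)| ≤ 10 := by
    rw [abs_le] at *; constructor <;> linarith
  have u2 : |gC f q * fderiv ℝ (yC γ) q (0, 1)| ≤ 10 := by
    rw [abs_le] at *; constructor <;> linarith
  have u3 : |gC f q * fderiv ℝ (yC γ) q (1, 0)| ≤ 10 := by linarith
  have s1 := sq_bd h0.le a3 u2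
  have s2 := sq_bd h0.le a4 u3
  have s3 := sq_bd h0.le a4 u1
  have s4 := sq_bd h0.le a3 u3
  have p1 := mul_nonneg h1 h0.le
  have p2 := mul_nonneg h2 h0.le
  unfold aF bF
  rw [e]
  constructor
  · refine (abs_sub _ _).trans ((add_le_add_left (abs_add_le _ _) _).trans ?_); linarith
  · refine (abs_sub _ _).trans ((add_le_add_left (abs_add_le _ _) _).trans ?_); linarith

theorem aF_zero {g p y : ℝ × ℝ → ℝ} {q : ℝ × ℝ} (h : g q = 0) : aF g p y q = 0 := by
  unfold aF
  rw [ev3_tail z_A0, ev3_tail z_Py, ev3_tail z_Pz, h]; simp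

theorem one : S_One := by
  intro f γ β R H hang hβ0 hβ
  have hpi := Real.pi_pos
  obtain ⟨κ, hκ1, hκβ⟩ := exists_kappa hβ0 hβ
  have cg := gC_cont H.cont
  have g0 : ∀ q, 0 ≤ gC f q := fun q => mul_nonneg (Real.exp_pos _).le (H.nonneg _)
  have pg : ∀ t θ, gC f (t, θ + 2 * π) = gC f (t, θ) := fun t θ => by simp only [gC, Ex_per]
  have py : ∀ t θ, yC γ (t, θ + 2 * π) = yC γ (t, θ) := fun t θ => by
    simp only [yC, wC, Ex_per, om_per]
  have pp : ∀ t θ, pC f γ (t, θ + 2 * π) = pC f γ (t, θ) := fun t θ => by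
    simp only [pC, wC, Ex_per, om_per, pg]
  have hl : ∀ t : ℝ, Continuous fun θ : ℝ => ((t, θ) : ℝ × ℝ) := fun t => by fun_prop
  have hA : ∀ t, R ≤ Real.exp t → ∃ θ0, gC f (t, θ0) = 0 ∧ ∃ c : ℝ → ℝ,
      ∀ θ ∈ Icc θ0 (θ0 + 2 * π), |c θ| ≤ Real.tan (κ * β / 2) ∧
        (0 < gC f (t, θ) → HasDerivAt c (-(κ * (1 + c θ ^ 2))) θ) := fun t ht =>
    angle (fun θ => gC f (t, θ)) β κ (cg.comp (hl t)) (fun θ => g0 _) (pg t) (ang_slice hang ht)
      hβ0 hκ1.le hκβ
  obtain ⟨θ0, hθ0, -⟩ := hA R (by linarith [Real.add_one_le_exp R])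
  set p0 := Ex (R, θ0) with hp0
  have f0 : f p0 = 0 := by rw [hp0, ← gC_mul f, hθ0, mul_zero]
  set t0 := max R (11 * ‖p0‖) with ht0
  set e : ℝ → ℝ := fun t => 11 * ‖p0‖ * Real.exp (-t) with he
  have e0 : ∀ t, 0 ≤ e t := fun t => by simp only [he]; positivity
  have tR : ∀ t, t0 ≤ t → R ≤ Real.exp t := fun t ht => by
    linarith [Real.add_one_le_exp t, le_max_left R (11 * ‖p0‖)]
  have e1 : ∀ t, t0 ≤ t → e t ≤ 1 := fun t ht => by
    have : 11 * ‖p0‖ ≤ Real.exp t := by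
      linarith [Real.add_one_le_exp t, le_max_right R (11 * ‖p0‖)]
    simp only [he]
    rw [Real.exp_neg, ← div_eq_mul_inv, div_le_one (Real.exp_pos _)]; exact this
  have reg : ∀ q : ℝ × ℝ, t0 ≤ q.1 → 0 < gC f q →
      (gC f q + |pC f γ q|) ^ 2 + yC γ q ^ 2 ≤ 1 + e q.1 := fun q ht hq =>
    region H f0 hq (e1 _ ht)
  have gle : ∀ q : ℝ × ℝ, t0 ≤ q.1 → gC f q ≤ 2 := fun q ht => by
    rcases (g0 q).lt_or_eq with h | h
    · exact (le_abs_self _).trans (small_of_region h.le (e1 _ ht) (reg q ht h)).1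
    · linarith
  obtain ⟨Ca, hCa, bab⟩ := ab_bound
  obtain ⟨L, hL, main⟩ := main_ineq
  obtain ⟨CI, hCI, bI⟩ := If_le
  obtain ⟨CK, hCK, bK⟩ := bound_div z_Kl (max 2 (Real.tan (κ * β / 2)))
  set C := 4 * Ca + 2 * CK + (κ - 1) * CI with hC
  have hκI : 0 ≤ (κ - 1) * CI := mul_nonneg (by linarith) hCI
  have hC0 : 0 ≤ C := by positivity
  have abd : ∀ q : ℝ × ℝ, t0 ≤ q.1 → |aF (gC f) (pC f γ) (yC γ) q| ≤ Ca * gC f q := fun q ht => by
    rcases (g0 q).lt_or_eq with h | h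
    · obtain ⟨s1, s2, s3⟩ := small_of_region h.le (e1 _ ht) (reg q ht h)
      exact (bab f γ H q s1 s2 s3 h).1
    · rw [aF_zero h.symm, ← h]; simp
  have cI : Continuous fun q => If (gC f q ^ 2) := If_cont.comp (cg.pow 2)
  have If0 : ∀ s : ℝ, 0 ≤ If (s ^ 2) := fun s => by
    rcases (sq_nonneg s).lt_or_eq with h | h
    · exact (If_pos h).le
    · rw [← h]; simp [If, Il, ev1_cons]
  set J : ℝ → ℝ := fun t => ∫ θ in (0 : ℝ)..(2 * π), If (gC f (t, θ) ^ 2) with hJ
  have cJ : Continuous J :=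
    intervalIntegral.continuous_parametric_intervalIntegral_of_continuous'
      (f := fun t θ => If (gC f (t, θ) ^ 2)) cI _ _
  have ce : Continuous e := by simp only [he]; fun_prop
  have bound : ∀ t2, t0 ≤ t2 → ∫ t in t0..t2, J t ≤ (8 * π * Ca + 2 * π * L) / (κ - 1) := by
    intro t2 ht2
    have hm := mono (gC f) (aF (gC f) (pC f γ) (yC γ)) (bF (gC f) (pC f γ) (yC γ))
      (fun q => (κ - 1) * If (gC f q ^ 2) - L * e q.1) t0 t2 C ht2 hC0 cg g0
      ((cI.const_mul _).sub ((ce.comp continuous_fst).const_mul _)) pg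
      (fun t θ => by simp only [aF, pg, pp, py, fderiv_periodic pp, fderiv_periodic py])
      (fun t θ => by simp only [bF, pg, pp, py, fderiv_periodic pp, fderiv_periodic py])
      (fun t θ => by simp only [pg])
      (fun q hq => by
        obtain ⟨c1, c2, c3, d1, d2, d3, -⟩ := cyl H hq
        obtain ⟨k1, k2, -⟩ := calib_id c1 c2 c3 d1 d2 d3
        exact ⟨c1.of_le one_le_two, k1, k2⟩)
      (fun q hq => by
        have a1 := abd q hq.1
        have a2 := bI _ (g0 q) (gle q hq.1)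
        have a3 := mul_le_mul_of_nonneg_left a2 (by linarith : 0 ≤ κ - 1)
        have a4 := mul_nonneg hL (e0 q.1)
        have a5 := mul_nonneg hCa (g0 q)
        have a6 := mul_nonneg hCK (g0 q)
        have a7 := mul_nonneg hκI (g0 q)
        constructor
        · rw [hC]; linarith
        · rw [hC]; linarith)
      (fun t ht => by
        obtain ⟨θ1, h1, c, hc⟩ := hA t (tR t ht.1)
        refine ⟨θ1, fun θ => ev3 (gC f (t, θ)) 0 (c θ) Kl, Or.inl h1, fun θ hθ hq => ?_⟩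
        obtain ⟨c1, c2, c3, d1, d2, d3, hN, -, -, -, T, hT, hdet, htr, hcurv⟩ := cyl H hq
        obtain ⟨-, -, hid⟩ := calib_id c1 c2 c3 d1 d2 d3
        have hreg := reg (t, θ) ht.1 hq
        obtain ⟨s1, s2, s3⟩ := small_of_region hq.le (e1 _ ht.1) hreg
        have dl : HasDerivAt (fun θ : ℝ => ((t, θ) : ℝ × ℝ)) (0, 1) θ :=
          (hasDerivAt_const θ t).prodMk (hasDerivAt_id θ)
        have dg := (c1.differentiableAt two_ne_zero).hasFDerivAt.comp_hasDerivAt θ dl
        rw [d2] at dg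
        have dk := (hasFDerivAt_ev3 dg.hasFDerivAt (hasFDerivAt_const (0 : ℝ) θ)
          ((hc θ hθ).2 hq).hasFDerivAt Kl).hasDerivAt
        refine ⟨_, dk, ?_, ?_⟩
        · rw [hid]
          have m := main _ _ _ _ _ _ _ _ (e0 t) (e1 t ht.1) hq hreg hN hdet hT htr hcurv
          have pc := picone (gC f (t, θ)) (pC f γ (t, θ)) (yC γ (t, θ)) (c θ)
          have kc := Kc_eq (gC f (t, θ)) (c θ)
          have im : If (gC f (t, θ) ^ 2) ≤ If (gC f (t, θ) ^ 2 * (1 + c θ ^ 2)) :=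
            If_mono (le_mul_of_one_le_right (sq_nonneg _) (le_add_of_nonneg_right (sq_nonneg _)))
          have im2 := mul_le_mul_of_nonneg_left im (by linarith : 0 ≤ κ - 1)
          simp only [add_apply, smul_apply, smul_eq_mul, ContinuousLinearMap.toSpanSingleton_apply,
            one_mul, Function.comp_apply, zero_apply, mul_zero, add_zero]
          rw [← kc] at im2
          linarith
        · rw [d1, d2]
          obtain ⟨b1, b2⟩ := bab f γ H _ s1 s2 s3 hq
          have b3 := bK _ 0 (c θ) (s1.trans (le_max_left _ _)) (by simp)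
            ((hc θ hθ).1.trans (le_max_right _ _))
          rw [abs_of_pos hq] at b3
          have q1 : |ev3 (gC f (t, θ)) 0 (c θ) Kl * yC γ (t, θ)| ≤ CK * gC f (t, θ) * 2 := by
            rw [abs_mul]; exact mul_le_mul b3 s3 (abs_nonneg _) (by positivity)
          have q2 : |pC f γ (t, θ) * aF (gC f) (pC f γ) (yC γ) (t, θ)| ≤ 2 * (Ca * gC f (t, θ)) := by
            rw [abs_mul]; exact mul_le_mul s2 b1 (abs_nonneg _) (by positivity)
          have q3 : |yC γ (t, θ) * bF (gC f) (pC f γ) (yC γ) (t, θ)| ≤ 2 * (Ca * gC f (t, θ)) := by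
            rw [abs_mul]; exact mul_le_mul s3 b2 (abs_nonneg _) (by positivity)
          have a7 := mul_nonneg hκI hq.le
          rw [hC]
          linarith [(abs_le.1 q1).2, (abs_le.1 q2).1, (abs_le.1 q3).1])
    have z : ∀ t, t0 ≤ t → |∫ θ in (0 : ℝ)..(2 * π), aF (gC f) (pC f γ) (yC γ) (t, θ)| ≤
        2 * π * (Ca * 2) := fun t ht =>
      abs_int_le fun θ => (abd (t, θ) ht).trans (mul_le_mul_of_nonneg_left (gle (t, θ) ht) hCa)
    have z1 := abs_le.1 (z t0 le_rfl)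
    have z2 := abs_le.1 (z t2 ht2)
    have i1 : ∀ t, ∫ θ in (0 : ℝ)..(2 * π), ((κ - 1) * If (gC f (t, θ) ^ 2) - L * e t) =
        (κ - 1) * J t - 2 * π * L * e t := fun t => by
      have c1 : Continuous fun θ => (κ - 1) * If (gC f (t, θ) ^ 2) := (cI.comp (hl t)).const_mul _
      rw [intervalIntegral.integral_sub (c1.intervalIntegrable _ _) intervalIntegrable_const,
        intervalIntegral.integral_const_mul]
      simp only [intervalIntegral.integral_const, sub_zero, smul_eq_mul, hJ]; ring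
    simp only [i1] at hm
    rw [intervalIntegral.integral_sub ((cJ.const_mul _).intervalIntegrable _ _)
      ((ce.const_mul _).intervalIntegrable _ _), intervalIntegral.integral_const_mul,
      intervalIntegral.integral_const_mul] at hm
    have i2 : ∫ t in t0..t2, e t = e t0 - e t2 := by
      have := intervalIntegral.integral_eq_sub_of_hasDerivAt (a := t0) (b := t2)
        (f := fun t => -e t) (f' := e) (fun t _ => by
          have := ((hasDerivAt_neg t).exp.const_mul (11 * ‖p0‖)).neg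
          exact this.congr_deriv (by simp [he])) (ce.intervalIntegrable _ _)
      rw [this]; ring
    rw [i2] at hm
    have i3 : 2 * π * L * (e t0 - e t2) ≤ 2 * π * L * 1 :=
      mul_le_mul_of_nonneg_left (by linarith [e1 t0 le_rfl, e0 t2]) (by positivity)
    rw [le_div_iff₀ (by linarith)]
    linarith
  intro ε hε
  by_contra hcon
  push Not at hcon
  set δ := min ε 1 with hδ
  have δ0 : 0 < δ := by positivity
  have δ1 : δ ≤ 1 := min_le_right _ _
  refine no_bumps cJ (fun t => intervalIntegral.integral_nonneg (by positivity) fun θ _ => If0 _)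
    (l := δ / 8) (j := δ / 8 * If ((δ / 4) ^ 2)) (by positivity)
    (mul_pos (by positivity) (If_pos (by positivity))) bound fun T => ?_
  obtain ⟨p, hp1, hp2⟩ := hcon (Real.exp T)
  have hp0' : 0 < ‖p‖ := (Real.exp_pos T).trans_le hp1
  refine ⟨Real.log ‖p‖, by rwa [Real.le_log_iff_exp_le hp0'], fun s hs => ?_⟩
  refine per_lower (θ := arg p) (cI.comp (hl s)) (fun θ => If0 _) (fun θ => by simp only [pg])
    (by positivity) (by linarith) fun θ hθ => If_mono ?_
  set t := Real.log ‖p‖ with ht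
  have k1 := Ex_sub t (arg p) (s - t) (θ - arg p) (by linarith [hs.1]) (by linarith [hθ.1])
    (by linarith [hs.2, hθ.2])
  rw [add_sub_cancel, add_sub_cancel, ht, Ex_surj (norm_pos_iff.1 hp0'), Real.exp_log hp0', ← ht] at k1
  have k2 := H.lip p (Ex (s, θ))
  have k3 : δ * ‖p‖ ≤ ε * ‖p‖ := mul_le_mul_of_nonneg_right (min_le_left _ _) hp0'.le
  have k4 : ‖p‖ * (2 * (s - t + (θ - arg p))) ≤ ‖p‖ * (δ / 2) :=
    mul_le_mul_of_nonneg_left (by linarith [hs.2, hθ.2]) hp0'.le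
  have k5 : ‖p‖ * (δ / 2) ≤ f (Ex (s, θ)) := by linarith
  have k6 : 1 / 2 ≤ Real.exp (-s) * ‖p‖ := by
    rw [← Real.exp_log hp0', ← ht, ← Real.exp_add]
    linarith [Real.add_one_le_exp (-s + t), hs.2]
  have k7 : δ / 4 ≤ gC f (s, θ) := by
    have := mul_le_mul_of_nonneg_left k5 (Real.exp_pos (-s)).le
    have h2 := mul_le_mul_of_nonneg_right k6 (by positivity : 0 ≤ δ / 2)
    simp only [gC]; linarith
  show (δ / 4) ^ 2 ≤ gC f (s, θ) ^ 2
  gcongr

end Pool.Agent.P.MP_714120_an
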