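import Pool.Agent.P.MP_714120_an.Horo
import Pool.Agent.P.MP_714120_an.One

/-! Assembly: a solution with angle below pi vanishes. -/

open Complex Filter Topology MeasureTheory Set
open scoped Real ComplexConjugate

noncomputable section
namespace Pool.Agent.P.MP_714120_an

theorem main {u : ℂ → ℝ} {β R : ℝ} (H : Sol u) (hA : Ang u β R) (h0 : 0 ≤ β) (h1 : β < π) (z : ℂ) :
    u z = 0 := by
  refine sub u β R H hA h0 h1 (fun ε hε => ?_) z
  obtain ⟨f, γ, Hf, pos, link⟩ := horo u H
  have hAf : Ang f β R := fun r hr => by simpa only [pos] using hA r hr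
  obtain ⟨R', hR⟩ := one f γ β R Hf hAf h0 h1 (min (1 / 2) (ε / 8)) (by positivity)
  obtain ⟨C, hC⟩ := (isCompact_closedBall (0 : ℂ) R').bddAbove_image Hf.cont.continuousOn
  have hb : ∀ p, f p ≤ min (1 / 2) (ε / 8) * ‖p‖ + |C| := fun p => by
    rcases le_total R' ‖p‖ with h | h
    · exact (hR p h).trans (le_add_of_nonneg_right (abs_nonneg C))
    · exact ((hC ⟨p, mem_closedBall_zero_iff.2 h, rfl⟩).trans (le_abs_self C)).trans
        (le_add_of_nonneg_left (by positivity))
  refine ⟨8 * |C| / ε, fun w hw => ?_⟩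
  rcases (H.nonneg w).eq_or_lt with h | h
  · rw [← h]; positivity
  obtain ⟨p, p1, p2⟩ := link w h
  have p3 : ‖p‖ ≤ ‖w‖ + f p := by
    have := norm_sub_norm_le p w
    rw [norm_sub_rev] at this; linarith
  have p4 := mul_le_mul_of_nonneg_left p3 (by positivity : 0 ≤ min (1 / 2) (ε / 8))
  have p5 := mul_le_mul_of_nonneg_right (min_le_left (1 / 2) (ε / 8)) (Hf.nonneg p)
  have p6 := mul_le_mul_of_nonneg_right (min_le_right (1 / 2) (ε / 8)) (norm_nonneg w)
  have p7 := hb p
  rw [div_le_iff₀ hε] at hw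
  linarith

end Pool.Agent.P.MP_714120_an
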