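import Pool.Agent.P.MP_714120_an.Chart
import Pool.Agent.P.MP_714120_an.Jet

/-! The curvature bound by an Ahlfors-Schwarz type maximum principle. -/

open Complex Filter Topology MeasureTheory Set
open scoped Real ComplexConjugate

noncomputable section
namespace Pool.Agent.P.MP_714120_an

/-- second derivative of the test function along one direction -/
def sec (y N n δ Λ ρ h1 h2 N1 N2 n1 n2 r1 r2 : ℝ) : ℝ :=
  2 * (h2 / y - h1 ^ 2 / y ^ 2) + (n2 / n - n1 ^ 2 / n ^ 2) +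
  (-2) * (-(2 * N1 ^ 2 + 2 * N * N2) / (1 - N ^ 2) - (2 * N * N1) ^ 2 / (1 - N ^ 2) ^ 2) +
  2 * (δ * N2 / (1 + δ * N) - (δ * N1) ^ 2 / (1 + δ * N) ^ 2) +
  2 * (-(Λ⁻¹ * (r2 / (1 + ρ) - r1 ^ 2 / (1 + ρ) ^ 2)) / (1 - Λ⁻¹ * Real.log (1 + ρ)) -
    (Λ⁻¹ * (r1 / (1 + ρ))) ^ 2 / (1 - Λ⁻¹ * Real.log (1 + ρ)) ^ 2)

def test (c δ Λ h n N ρ : ℝ) : ℝ :=
  2 * Real.log (h - c) + Real.log n + (-2) * Real.log (1 - N ^ 2) + 2 * Real.log (1 + δ * N) +
    2 * Real.log (1 - Λ⁻¹ * Real.log (1 + ρ))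

theorem sec_nonpos {h n N ρ : ℝ → ℝ} {c δ Λ h0 h1 h2 n0 n1 n2 N0 N1 N2 r0 r1 r2 : ℝ}
    (jh : J2 h h0 h1 h2) (jn : J2 n n0 n1 n2) (jN : J2 N N0 N1 N2) (jr : J2 ρ r0 r1 r2)
    (a1 : h0 - c ≠ 0) (a2 : n0 ≠ 0) (a3 : 1 - N0 ^ 2 ≠ 0) (a4 : 1 + δ * N0 ≠ 0) (a5 : 1 + r0 ≠ 0)
    (a6 : 1 - Λ⁻¹ * Real.log (1 + r0) ≠ 0)
    (hm : IsLocalMax (fun s => test c δ Λ (h s) (n s) (N s) (ρ s)) 0) :
    sec (h0 - c) N0 n0 δ Λ r0 h1 h2 N1 N2 n1 n2 r1 r2 ≤ 0 := by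
  have j1 := ((jh.add (J2.const (-c))).log (by simpa [← sub_eq_add_neg] using a1)).smul 2
  have j2 := jn.log a2
  have j3 := (((J2.const 1).add ((jN.mul jN).smul (-1))).log
    (by intro h; apply a3; linarith)).smul (-2)
  have j4 := (((J2.const 1).add (jN.smul δ)).log a4).smul 2
  have j5 := (((J2.const 1).add (((((J2.const 1).add jr).log a5).smul Λ⁻¹).smul (-1))).log
    (by intro h; apply a6; linarith)).smul 2
  have := ((((j1.add j2).add j3).add j4).add j5).nonpos (by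
    refine hm.congr (Eventually.of_forall fun s => ?_)
    simp only [test]; ring_nf)
  refine le_of_eq_of_le ?_ this
  simp only [sec]; ring

theorem final_alg {y N n m δ Λ ρ h1 h1' h2 h2' N1 N1' N2 N2' n1 n1' n2 n2' r1 r1' r2 r2' : ℝ}
    (hy : 0 < y) (hN0 : 0 ≤ N) (hN1 : N < 1) (hn : 0 < n) (hδ : 0 < δ) (hδ1 : δ ≤ 1) (hΛ : 1 ≤ Λ)
    (hρ : y ^ 2 ≤ ρ) (hs : 0 < 1 - Λ⁻¹ * Real.log (1 + ρ))
    (e1 : h1 ^ 2 + h1' ^ 2 = N) (e2 : h2 + h2' = 0) (e3 : N1 ^ 2 + N1' ^ 2 = 4 * n * N)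
    (e4 : N2 + N2' = 4 * n) (e5 : n1 ^ 2 + n1' ^ 2 = 4 * m * n) (e6 : n2 + n2' = 4 * m)
    (e7 : r2 + r2' ≤ 4) (e8 : r1 ^ 2 + r1' ^ 2 ≤ 8 * ρ)
    (h : sec y N n δ Λ ρ h1 h2 N1 N2 n1 n2 r1 r2 + sec y N n δ Λ ρ h1' h2' N1' N2' n1' n2' r1' r2' ≤ 0) :
    16 * y ^ 2 * n / (1 - N ^ 2) ^ 2 * (1 - Λ⁻¹ * Real.log (1 + ρ)) ^ 2 ≤ 1 + 360 / (δ * Λ) := by
  have hD : 0 < 1 - N ^ 2 := by nlinarith
  have hE : 0 < 1 + δ * N := by positivity
  have hρ0 : 0 ≤ ρ := (sq_nonneg y).trans hρ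
  have hl : 0 ≤ Real.log (1 + ρ) := Real.log_nonneg (by linarith)
  set S := 1 - Λ⁻¹ * Real.log (1 + ρ) with hS
  have hΛ0 : 0 < Λ := by linarith
  have hS1 : S ≤ 1 := by have : 0 ≤ Λ⁻¹ * Real.log (1 + ρ) := by positivity
                         linarith
  have e : sec y N n δ Λ ρ h1 h2 N1 N2 n1 n2 r1 r2 + sec y N n δ Λ ρ h1' h2' N1' N2' n1' n2' r1' r2' =
      2 * (-(N / y ^ 2) + 16 * N * n / (1 - N ^ 2) ^ 2 + 4 * δ * n / (1 + δ * N) ^ 2 -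
        Λ⁻¹ * ((r2 + r2') / (1 + ρ)) / S + Λ⁻¹ * ((r1 ^ 2 + r1' ^ 2) / (1 + ρ) ^ 2) / S -
        Λ⁻¹ ^ 2 * ((r1 ^ 2 + r1' ^ 2) / (1 + ρ) ^ 2) / S ^ 2) := by
    have f1 : h2' = -h2 := by linarith
    have f2 : h1' ^ 2 = N - h1 ^ 2 := by linarith
    have f3 : N1' ^ 2 = 4 * n * N - N1 ^ 2 := by linarith
    have f4 : N2' = 4 * n - N2 := by linarith
    have f5 : n1' ^ 2 = 4 * m * n - n1 ^ 2 := by linarith
    have f6 : n2' = 4 * m - n2 := by linarith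
    simp only [sec, mul_pow, div_pow, ← hS, f1, f2, f3, f4, f5, f6]
    field_simp
    ring
  rw [e] at h
  set X := 16 * y ^ 2 * n / (1 - N ^ 2) ^ 2 with hX
  have hX0 : 0 ≤ X := by positivity
  have hΛi : Λ⁻¹ ≤ 1 := inv_le_one_of_one_le₀ hΛ
  have hΛi0 : 0 < Λ⁻¹ := by positivity
  have q0 : y ^ 2 / (1 + ρ) ≤ 1 := by rw [div_le_one (by linarith)]; linarith
  have q1 : y ^ 2 * S ^ 2 * (Λ⁻¹ * ((r2 + r2') / (1 + ρ)) / S) ≤ 4 * Λ⁻¹ := by
    have : y ^ 2 * S ^ 2 * (Λ⁻¹ * ((r2 + r2') / (1 + ρ)) / S) =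
        Λ⁻¹ * (S * (y ^ 2 / (1 + ρ)) * (r2 + r2')) := by field_simp
    rw [this, mul_comm 4]
    refine mul_le_mul_of_nonneg_left ?_ hΛi0.le
    have a : S * (y ^ 2 / (1 + ρ)) ≤ 1 := mul_le_one₀ hS1 (by positivity) q0
    have b : 0 ≤ S * (y ^ 2 / (1 + ρ)) := by positivity
    exact (mul_le_mul_of_nonneg_left e7 b).trans (mul_le_of_le_one_left (by norm_num) a)
  have q2 : 0 ≤ y ^ 2 * S ^ 2 * (Λ⁻¹ * ((r1 ^ 2 + r1' ^ 2) / (1 + ρ) ^ 2) / S) := by positivity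
  have q3 : y ^ 2 * S ^ 2 * (Λ⁻¹ ^ 2 * ((r1 ^ 2 + r1' ^ 2) / (1 + ρ) ^ 2) / S ^ 2) ≤ 8 * Λ⁻¹ := by
    have : y ^ 2 * S ^ 2 * (Λ⁻¹ ^ 2 * ((r1 ^ 2 + r1' ^ 2) / (1 + ρ) ^ 2) / S ^ 2) =
        Λ⁻¹ * (Λ⁻¹ * (y ^ 2 / (1 + ρ)) * ((r1 ^ 2 + r1' ^ 2) / (1 + ρ))) := by field_simp
    rw [this, mul_comm 8]
    refine mul_le_mul_of_nonneg_left ?_ hΛi0.le
    have a : Λ⁻¹ * (y ^ 2 / (1 + ρ)) ≤ 1 := mul_le_one₀ hΛi (by positivity) q0
    have b : (r1 ^ 2 + r1' ^ 2) / (1 + ρ) ≤ 8 := by rw [div_le_iff₀ (by linarith)]; linarith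
    calc _ ≤ 1 * 8 := mul_le_mul a b (by positivity) zero_le_one
      _ = 8 := one_mul 8
  have q4 : y ^ 2 * S ^ 2 * (N / y ^ 2) ≤ N := by
    have : y ^ 2 * S ^ 2 * (N / y ^ 2) = S ^ 2 * N := by field_simp
    rw [this]; exact mul_le_of_le_one_left hN0 (pow_le_one₀ hs.le hS1)
  have q5 : y ^ 2 * S ^ 2 * (16 * N * n / (1 - N ^ 2) ^ 2) = X * S ^ 2 * N := by
    rw [hX]; field_simp
  have q6 : X * S ^ 2 * (δ * (1 - N ^ 2) ^ 2 / 16) ≤ y ^ 2 * S ^ 2 * (4 * δ * n / (1 + δ * N) ^ 2) := by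
    have : X * S ^ 2 * (δ * (1 - N ^ 2) ^ 2 / 16) = y ^ 2 * S ^ 2 * (4 * δ * n / 4) := by
      rw [hX]; field_simp
    rw [this]
    have : (1 + δ * N) ^ 2 ≤ 4 := by
      have : δ * N ≤ 1 := mul_le_one₀ hδ1 hN0 hN1.le
      calc _ ≤ (2 : ℝ) ^ 2 := pow_le_pow_left₀ hE.le (by linarith only [this]) 2
        _ = 4 := by norm_num
    gcongr
  have q7 := mul_nonpos_of_nonneg_of_nonpos (by positivity : 0 ≤ y ^ 2 * S ^ 2) h
  have key : X * S ^ 2 * (N + δ * (1 - N ^ 2) ^ 2 / 16) ≤ N + 12 * Λ⁻¹ := by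
    linarith only [q1, q2, q3, q4, q5, q6, q7]
  have b1 : δ / 30 ≤ N + δ * (1 - N ^ 2) ^ 2 / 16 := by
    rcases le_total N (1 / 2) with h2 | h2
    · have : 3 / 4 ≤ 1 - N ^ 2 := by nlinarith only [h2, hN0]
      have : (3 / 4) ^ 2 ≤ (1 - N ^ 2) ^ 2 := by gcongr
      have := mul_le_mul_of_nonneg_left this hδ.le
      linarith only [this, hN0, hδ]
    · have : 0 ≤ δ * (1 - N ^ 2) ^ 2 / 16 := by positivity
      linarith only [this, h2, hδ1]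
  have b2 : N ≤ N + δ * (1 - N ^ 2) ^ 2 / 16 := le_add_of_nonneg_right (by positivity)
  by_contra hcon
  push Not at hcon
  have b3 := mul_lt_mul_of_pos_right hcon (by linarith : 0 < N + δ * (1 - N ^ 2) ^ 2 / 16)
  have b4 := mul_le_mul_of_nonneg_left b1 (by positivity : 0 ≤ 360 / (δ * Λ))
  have b5 : 360 / (δ * Λ) * (δ / 30) = 12 * Λ⁻¹ := by field_simp; ring
  linarith only [b2, b3, b4, b5, key]

def Pf (u : ℂ → ℝ) (δ Λ : ℝ) (z : ℂ) : ℝ :=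
  (u z - δ) * ‖dphi u z‖ * (1 + δ * Nf u z) * (1 - Λ⁻¹ * Real.log (1 + (normSq z + u z * u z)))

theorem rho_bound (z a : ℂ) (h b : ℝ) :
    (2 * (a * conj z).re + (b * h + h * b)) ^ 2 ≤ 4 * (normSq z + h * h) * (normSq a + b ^ 2) := by
  simp only [mul_re, conj_re, conj_im, normSq_apply]
  nlinarith [sq_nonneg (a.re * z.im - a.im * z.re), sq_nonneg (a.re * h - b * z.re),
    sq_nonneg (a.im * h - b * z.im)]

theorem at_max {u : ℂ → ℝ} (H : Sol u) {δ Λ : ℝ} (hδ : 0 < δ) (hδ1 : δ ≤ 1) (hΛ : 1 ≤ Λ) {z : ℂ}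
    (h1 : δ < u z) (h2 : dphi u z ≠ 0) (h3 : 0 < 1 - Λ⁻¹ * Real.log (1 + (normSq z + u z * u z)))
    (hm : IsLocalMax (Pf u δ Λ) z) :
    (2 * Pf u δ Λ z) ^ 2 ≤ (1 + δ) ^ 2 * (1 + 360 / (δ * Λ)) := by
  obtain ⟨Z, rfl, hφ, hZ⟩ := chart u H z (by linarith)
  set φ : ℂ → ℂ := fun ζ => phi u (Z ζ) with hφd
  set ψ := deriv φ with hψ
  have hψa : AnalyticAt ℂ ψ 0 := hφ.deriv
  have cZ : ContinuousAt Z 0 := hZ.self_of_nhds.2.1.continuousAt
  have hD : ∀ w, 0 < 1 - Nf u w ^ 2 := fun w => by nlinarith [Nf_lt u w, Nf_nonneg u w]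
  have nψ : ∀ᶠ ζ in 𝓝 (0 : ℂ), normSq (ψ ζ) = ‖dphi u (Z ζ)‖ ^ 2 * (1 - Nf u (Z ζ) ^ 2) ^ 2 / 4 := by
    filter_upwards [hZ] with ζ h
    rw [hψ, h.2.2.2.deriv, map_div₀, map_mul, normSq_eq_norm_sq, ← ofReal_pow, ← ofReal_one,
      ← ofReal_sub, normSq_ofReal]
    simp [normSq_apply]; ring
  have n0 : 0 < normSq (ψ 0) := by
    rw [nψ.self_of_nhds]; have := hD (Z 0); have := norm_pos_iff.2 h2; positivity
  have hE : ∀ w, 0 < 1 + δ * Nf u w := fun w => by have := Nf_nonneg u w; positivity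
  have cu : ContinuousAt (fun ζ => u (Z ζ)) 0 := H.cont.continuousAt.comp cZ
  have tmax : IsLocalMax (fun ζ => test δ δ Λ (u (Z ζ)) (normSq (ψ ζ)) (normSq (φ ζ))
      (normSq (Z ζ) + u (Z ζ) * u (Z ζ))) 0 := by
    have p1 : ∀ᶠ ζ in 𝓝 (0 : ℂ), δ < u (Z ζ) := cu.eventually (lt_mem_nhds h1)
    have p2 : ∀ᶠ ζ in 𝓝 (0 : ℂ), 0 < normSq (ψ ζ) :=
      (continuous_normSq.continuousAt.comp hψa.continuousAt).eventually (lt_mem_nhds n0)
    have p3 : ∀ᶠ ζ in 𝓝 (0 : ℂ),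
        0 < 1 - Λ⁻¹ * Real.log (1 + (normSq (Z ζ) + u (Z ζ) * u (Z ζ))) := by
      have hc : ContinuousAt (fun ζ => 1 - Λ⁻¹ * Real.log
          (1 + (normSq (Z ζ) + u (Z ζ) * u (Z ζ)))) 0 := by
        refine continuousAt_const.sub (continuousAt_const.mul (ContinuousAt.log
          (continuousAt_const.add ((continuous_normSq.continuousAt.comp cZ).add (cu.mul cu))) ?_))
        have := normSq_nonneg (Z 0); have := mul_self_nonneg (u (Z 0)); positivity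
      exact hc.eventually (lt_mem_nhds h3)
    have all : ∀ᶠ ζ in 𝓝 (0 : ℂ), 0 < Pf u δ Λ (Z ζ) ∧
        test δ δ Λ (u (Z ζ)) (normSq (ψ ζ)) (normSq (φ ζ)) (normSq (Z ζ) + u (Z ζ) * u (Z ζ)) =
          Real.log (Pf u δ Λ (Z ζ) ^ 2 / 4) := by
      filter_upwards [p1, p2, p3, nψ] with ζ q1 q2 q3 q4
      have q5 := hD (Z ζ)
      have q6 := hE (Z ζ)
      have q7 : 0 < u (Z ζ) - δ := by linarith
      have q8 : 0 < ‖dphi u (Z ζ)‖ := by
        rcases (norm_nonneg (dphi u (Z ζ))).lt_or_eq with h | h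
        · exact h
        · rw [q4, ← h] at q2; simp at q2
      refine ⟨by unfold Pf; positivity, ?_⟩
      have e : Pf u δ Λ (Z ζ) ^ 2 / 4 = (u (Z ζ) - δ) ^ 2 * normSq (ψ ζ) / (1 - Nf u (Z ζ) ^ 2) ^ 2 *
          (1 + δ * Nf u (Z ζ)) ^ 2 *
          (1 - Λ⁻¹ * Real.log (1 + (normSq (Z ζ) + u (Z ζ) * u (Z ζ)))) ^ 2 := by
        rw [q4, Pf]; field_simp
      rw [e, Real.log_mul (by positivity) (by positivity), Real.log_mul (by positivity)
        (by positivity), Real.log_div (by positivity) (by positivity), Real.log_mul (by positivity)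
        (by positivity), Real.log_pow, Real.log_pow, Real.log_pow, Real.log_pow]
      simp only [test, hφd, Nf]; push_cast; ring
    filter_upwards [all, cZ.eventually hm] with ζ q1 q2
    rw [q1.2, all.self_of_nhds.2]
    exact Real.log_le_log (by have := q1.1; positivity) (by have := q1.1.le; gcongr)
  have line : ∀ e : ℂ, sec (u (Z 0) - δ) (normSq (φ 0)) (normSq (ψ 0)) δ Λ
      (normSq (Z 0) + u (Z 0) * u (Z 0)) (φ 0 * e).re (ψ 0 * e ^ 2).re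
      (2 * (ψ 0 * e * conj (φ 0)).re)
      (2 * normSq (ψ 0 * e) + 2 * (deriv ψ 0 * e ^ 2 * conj (φ 0)).re)
      (2 * (deriv ψ 0 * e * conj (ψ 0)).re)
      (2 * normSq (deriv ψ 0 * e) + 2 * (deriv (deriv ψ) 0 * e ^ 2 * conj (ψ 0)).re)
      (2 * ((1 / 2 * e + -(conj (φ 0) ^ 2) / 2 * conj e) * conj (Z 0)).re +
        ((φ 0 * e).re * u (Z 0) + u (Z 0) * (φ 0 * e).re))
      (2 * normSq (1 / 2 * e + -(conj (φ 0) ^ 2) / 2 * conj e) +
        2 * (-conj (φ 0 * ψ 0 * e ^ 2) * conj (Z 0)).re +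
        ((ψ 0 * e ^ 2).re * u (Z 0) + 2 * (φ 0 * e).re * (φ 0 * e).re + u (Z 0) * (ψ 0 * e ^ 2).re))
      ≤ 0 := by
    intro e
    have dφ : HasDerivAt (fun s : ℝ => φ (s * e)) (ψ 0 * e) 0 :=
      line_comp e 0 (by rw [ofReal_zero, zero_mul]; exact hφ.differentiableAt.hasDerivAt)
    have hZe := (line_tendsto e).eventually hZ
    have jh : J2 (fun s : ℝ => u (Z (s * e))) (u (Z 0)) (φ 0 * e).re (ψ 0 * e ^ 2).re := by
      refine ⟨by simp, fun s => (φ (s * e) * e).re, ?_, by simp, ?_⟩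
      · filter_upwards [hZe] with s hs
        exact hs.2.2.1.comp_hasDerivAt s (line_deriv e s)
      · exact (reCLM.hasFDerivAt.comp_hasDerivAt 0 (dφ.mul_const e)).congr_deriv
          (by simp only [reCLM_apply]; congr 1; ring)
    have jZ : J2 (fun s : ℝ => Z (s * e)) (Z 0) (1 / 2 * e + -(conj (φ 0) ^ 2) / 2 * conj e)
        (-conj (φ 0 * ψ 0 * e ^ 2)) := by
      refine ⟨by simp, fun s => 1 / 2 * e + -(conj (φ (s * e)) ^ 2) / 2 * conj e, ?_, by simp, ?_⟩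
      · filter_upwards [hZe] with s hs
        exact (hs.2.1.comp_hasDerivAt s (line_deriv e s)).congr_deriv (rlin_apply _ _ _)
      · have dc : HasDerivAt (fun s : ℝ => conj (φ (s * e))) (conj (ψ 0 * e)) 0 :=
          conjCLE.hasFDerivAt.comp_hasDerivAt 0 dφ
        exact ((((dc.pow 2).neg.div_const 2).mul_const (conj e)).const_add (1 / 2 * e)).congr_deriv
          (by simp; ring)
    refine sec_nonpos jh (J2.analytic hψa e).normSq (J2.analytic hφ e).normSq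
      (jZ.normSq.add (jh.mul jh)) (by linarith) n0.ne' (hD (Z 0)).ne' (hE (Z 0)).ne' ?_ h3.ne' ?_
    · have := normSq_nonneg (Z 0); have := mul_self_nonneg (u (Z 0)); positivity
    · have : IsLocalMax (fun ζ => test δ δ Λ (u (Z ζ)) (normSq (ψ ζ)) (normSq (φ ζ))
          (normSq (Z ζ) + u (Z ζ) * u (Z ζ))) (((0 : ℝ) : ℂ) * e) := by simpa using tmax
      exact this.comp_continuous (g := fun s : ℝ => (s : ℂ) * e) (by fun_prop)
  have hN1 : normSq (φ 0) < 1 := Nf_lt u (Z 0)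
  have hN0 := normSq_nonneg (φ 0)
  have sq1 : normSq (1 / 2 * 1 + -(conj (φ 0) ^ 2) / 2 * conj 1) + (φ 0 * 1).re ^ 2 +
      (normSq (1 / 2 * I + -(conj (φ 0) ^ 2) / 2 * conj I) + (φ 0 * I).re ^ 2) =
      (1 + normSq (φ 0)) ^ 2 / 2 := by
    simp [normSq_apply, sq]; ring
  have sq2 : (1 + normSq (φ 0)) ^ 2 ≤ 4 := by nlinarith
  have fin := final_alg (m := normSq (deriv ψ 0)) (by linarith) hN0 hN1 n0 hδ hδ1 hΛ
    (by nlinarith [normSq_nonneg (Z 0)]) h3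
    (by simp [normSq_apply]; ring) (by simp) (by simp [normSq_apply]; ring)
    (by simp [normSq_apply]; ring) (by simp [normSq_apply]; ring) (by simp [normSq_apply]; ring)
    (by
      have e1 : (-conj (φ 0 * ψ 0 * 1 ^ 2) * conj (Z 0)).re +
        (-conj (φ 0 * ψ 0 * I ^ 2) * conj (Z 0)).re = 0 := by simp
      have e2 : (ψ 0 * 1 ^ 2).re + (ψ 0 * I ^ 2).re = 0 := by simp
      have e3 := congrArg (HMul.hMul (u (Z 0))) e2
      refine le_of_eq_of_le ?_ sq2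
      linear_combination 2 * sq1 + 2 * e1 + 2 * e3)
    (by
      have a1 := rho_bound (Z 0) (1 / 2 * 1 + -(conj (φ 0) ^ 2) / 2 * conj 1) (u (Z 0)) (φ 0 * 1).re
      have a2 := rho_bound (Z 0) (1 / 2 * I + -(conj (φ 0) ^ 2) / 2 * conj I) (u (Z 0)) (φ 0 * I).re
      have a3 : 0 ≤ normSq (Z 0) + u (Z 0) * u (Z 0) :=
        add_nonneg (normSq_nonneg _) (mul_self_nonneg _)
      have a4 := mul_le_mul_of_nonneg_left sq2 a3
      have a5 := congrArg (HMul.hMul (normSq (Z 0) + u (Z 0) * u (Z 0))) sq1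
      linarith)
    (add_nonpos (line 1) (line I))
  rw [nψ.self_of_nhds] at fin
  have e : (2 * Pf u δ Λ (Z 0)) ^ 2 = (1 + δ * Nf u (Z 0)) ^ 2 *
      (16 * (u (Z 0) - δ) ^ 2 * (‖dphi u (Z 0)‖ ^ 2 * (1 - Nf u (Z 0) ^ 2) ^ 2 / 4) /
        (1 - Nf u (Z 0) ^ 2) ^ 2 *
        (1 - Λ⁻¹ * Real.log (1 + (normSq (Z 0) + u (Z 0) * u (Z 0)))) ^ 2) := by
    have := (hD (Z 0)).ne'
    rw [Pf]; field_simp; ring
  rw [e]
  have : 1 + δ * Nf u (Z 0) ≤ 1 + δ := by nlinarith [Nf_lt u (Z 0)]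
  have h5 := (hE (Z 0)).le
  exact mul_le_mul (by gcongr) fin (by positivity) (by positivity)

theorem maxp : S_Max := by
  intro u H z hz
  set l := Real.log (1 + (normSq z + u z * u z)) with hl
  have key : ∀ δ, 0 < δ → δ ≤ 1 → δ < u z → δ ^ 2 / 360 * l ≤ 1 →
      2 * ((u z - δ) * ‖dphi u z‖ * (1 - δ ^ 2 / 360 * l)) ≤ (1 + δ) ^ 2 := by
    intro δ h0 h1 h2 h3
    set Λ := 360 / δ ^ 2 with hΛ
    have Λi : Λ⁻¹ = δ ^ 2 / 360 := by rw [hΛ, inv_div]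
    have Λ1 : 1 ≤ Λ := by rw [hΛ, le_div_iff₀ (by positivity)]; nlinarith
    set K := {w | δ ≤ u w ∧ 0 ≤ 1 - Λ⁻¹ * Real.log (1 + (normSq w + u w * u w))} with hK
    have pos : ∀ w, 0 < 1 + (normSq w + u w * u w) := fun w => by
      have := normSq_nonneg w; have := mul_self_nonneg (u w); positivity
    have cL : Continuous fun w => 1 - Λ⁻¹ * Real.log (1 + (normSq w + u w * u w)) :=
      continuous_const.sub (continuous_const.mul ((continuous_const.add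
        (continuous_normSq.add (H.cont.mul H.cont))).log fun w => (pos w).ne'))
    have Kc : IsCompact K := by
      refine Metric.isCompact_of_isClosed_isBounded
        ((isClosed_le continuous_const H.cont).inter (isClosed_le continuous_const cL)) ?_
      refine (Metric.isBounded_closedBall (x := (0 : ℂ)) (r := Real.exp Λ)).subset fun w hw => ?_
      have a1 : Real.log (1 + (normSq w + u w * u w)) ≤ Λ := by
        have := mul_le_mul_of_nonneg_left (sub_nonneg.1 hw.2) (by linarith : 0 ≤ Λ)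
        rwa [← mul_assoc, mul_inv_cancel₀ (by linarith), one_mul, mul_one] at this
      rw [Real.log_le_iff_le_exp (pos w), normSq_eq_norm_sq] at a1
      rw [mem_closedBall_zero_iff]
      nlinarith [mul_self_nonneg (u w), sq_nonneg (‖w‖ - 1)]
    have zK : z ∈ K := ⟨h2.le, by rw [Λi]; linarith⟩
    obtain ⟨w, wK, hw⟩ := Kc.exists_isMaxOn ⟨z, zK⟩ (f := Pf u δ Λ) (fun w hw => by
      obtain ⟨c1, -, -, -, c2⟩ := bel u H w (h0.trans_le hw.1)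
      exact ((((H.cont.continuousAt.sub continuousAt_const).mul c2.norm).mul
        (continuousAt_const.add (continuousAt_const.mul (continuous_normSq.continuousAt.comp
          c1.continuousAt)))).mul cL.continuousAt).continuousWithinAt)
    have b1 : (u z - δ) * ‖dphi u z‖ * (1 - δ ^ 2 / 360 * l) ≤ Pf u δ Λ z := by
      rw [Pf, Λi, ← hl]
      refine mul_le_mul_of_nonneg_right (le_mul_of_one_le_right ?_ ?_) (by linarith)
      · exact mul_nonneg (by linarith) (norm_nonneg _)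
      · have := Nf_nonneg u z; exact le_add_of_nonneg_right (by positivity)
    have b2 : Pf u δ Λ z ≤ Pf u δ Λ w := hw zK
    rcases le_or_gt (Pf u δ Λ w) 0 with h4 | h4
    · have : 0 ≤ (1 + δ) ^ 2 := by positivity
      linarith
    have c1 : δ < u w := wK.1.lt_of_ne fun h => by simp [Pf, ← h] at h4
    have c2 : dphi u w ≠ 0 := fun h => by simp [Pf, h] at h4
    have c3 : 0 < 1 - Λ⁻¹ * Real.log (1 + (normSq w + u w * u w)) :=
      wK.2.lt_of_ne fun h => by simp [Pf, ← h] at h4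
    have hm : IsLocalMax (Pf u δ Λ) w := hw.isLocalMax (by
      filter_upwards [H.cont.continuousAt.eventually (lt_mem_nhds c1),
        cL.continuousAt.eventually (lt_mem_nhds c3)] with x a b using ⟨a.le, b.le⟩)
    have b3 := at_max H h0 h1 Λ1 c1 c2 c3 hm
    have e : 360 / (δ * Λ) = δ := by rw [hΛ]; field_simp
    rw [e] at b3
    have b4 : 2 * Pf u δ Λ w ≤ (1 + δ) ^ 2 := by
      refine le_of_sq_le_sq (b3.trans ?_) (by positivity) |> fun h => h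
      have : (1 + δ) ≤ (1 + δ) ^ 2 := by nlinarith
      calc _ ≤ (1 + δ) ^ 2 * (1 + δ) ^ 2 := by gcongr
        _ = _ := by ring
    linarith
  have c1 : Continuous fun δ : ℝ =>
      2 * ((u z - δ) * ‖dphi u z‖ * (1 - δ ^ 2 / 360 * l)) - (1 + δ) ^ 2 := by fun_prop
  have c2 : Continuous fun δ : ℝ => δ ^ 2 / 360 * l := by fun_prop
  have t1 := (c1.tendsto 0).mono_left (nhdsWithin_le_nhds (s := Ioi 0))
  have := le_of_tendsto t1 (b := 0) (by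
    filter_upwards [self_mem_nhdsWithin, Ioo_mem_nhdsGT (lt_min zero_lt_one hz),
      ((c2.tendsto 0).eventually (gt_mem_nhds (by simp : (0 : ℝ) ^ 2 / 360 * l < 1))).filter_mono
        nhdsWithin_le_nhds] with δ h0 h1 h2
    have := key δ h0 (h1.2.le.trans (min_le_left _ _)) (h1.2.trans_le (min_le_right _ _)) h2.le
    linarith)
  simp at this
  linarith

end Pool.Agent.P.MP_714120_an
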