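import Pool.Agent.P.MP_714120_an.MLem

/-! Logarithmic polar coordinates and elementary lemmas. -/

open Complex Filter Topology MeasureTheory Set
open scoped Real ComplexConjugate

noncomputable section
namespace Pool.Agent.P.MP_714120_an

def om (q : ℝ × ℝ) : ℂ := Complex.exp (q.2 * I)
def Ex (q : ℝ × ℝ) : ℂ := (Real.exp q.1 : ℂ) * om q
def L1 : ℝ × ℝ →L[ℝ] ℂ := ofRealCLM.comp (ContinuousLinearMap.fst ℝ ℝ ℝ)
def L2 : ℝ × ℝ →L[ℝ] ℂ := ofRealCLM.comp (ContinuousLinearMap.snd ℝ ℝ ℝ)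

@[simp] theorem L1_apply (v : ℝ × ℝ) : L1 v = v.1 := rfl
@[simp] theorem L2_apply (v : ℝ × ℝ) : L2 v = v.2 := rfl

theorem contDiff_om {n : WithTop ℕ∞} : ContDiff ℝ n om :=
  (L2.contDiff.mul contDiff_const).cexp

theorem contDiff_Ex {n : WithTop ℕ∞} : ContDiff ℝ n Ex :=
  (ofRealCLM.contDiff.comp (contDiff_fst.exp)).mul contDiff_om

theorem hasFDerivAt_om (q : ℝ × ℝ) : HasFDerivAt om ((I * om q) • L2) q := by
  have := (L2.hasFDerivAt (x := q)).mul_const I |>.cexp
  refine this.congr_fderiv ?_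
  ext <;> simp [om] <;> ring

theorem hasFDerivAt_Ex (q : ℝ × ℝ) : HasFDerivAt Ex (Ex q • L1 + (I * Ex q) • L2) q := by
  have h1 : HasFDerivAt (fun q : ℝ × ℝ => (Real.exp q.1 : ℂ)) ((Real.exp q.1 : ℂ) • L1) q := by
    have := ofRealCLM.hasFDerivAt.comp q (hasFDerivAt_fst (𝕜 := ℝ) (p := q)).exp
    refine this.congr_fderiv ?_
    ext <;> simp
  refine (h1.mul (hasFDerivAt_om q)).congr_fderiv ?_
  ext <;> simp [Ex] <;> ring

theorem norm_om (q : ℝ × ℝ) : ‖om q‖ = 1 := norm_exp_ofReal_mul_I _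
theorem om_mul_conj (q : ℝ × ℝ) : om q * conj (om q) = 1 := by
  rw [mul_conj, normSq_eq_norm_sq, norm_om]; simp
theorem norm_Ex (q : ℝ × ℝ) : ‖Ex q‖ = Real.exp q.1 := by
  rw [Ex, norm_mul, norm_om, mul_one, Complex.norm_real, Real.norm_eq_abs, abs_of_pos (Real.exp_pos _)]
theorem om_per (t θ : ℝ) : om (t, θ + 2 * π) = om (t, θ) := by
  simp only [om]; push_cast
  rw [add_mul]; exact Complex.exp_periodic _
theorem Ex_per (t θ : ℝ) : Ex (t, θ + 2 * π) = Ex (t, θ) := by simp only [Ex, om_per]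
theorem Ex_surj {z : ℂ} (hz : z ≠ 0) : Ex (Real.log ‖z‖, arg z) = z := by
  simp only [Ex, om]
  rw [Real.exp_log (norm_pos_iff.2 hz)]; exact norm_mul_exp_arg_mul_I z

theorem Ex_sub (t θ a b : ℝ) (ha : 0 ≤ a) (hb : 0 ≤ b) (h : a + b ≤ 1) :
    ‖Ex (t + a, θ + b) - Ex (t, θ)‖ ≤ Real.exp t * (2 * (a + b)) := by
  have e : Ex (t + a, θ + b) - Ex (t, θ) = Ex (t, θ) * (Complex.exp (a + b * I) - 1) := by
    simp only [Ex, om]; push_cast
    rw [add_mul, Complex.exp_add, Complex.exp_add, Complex.exp_add]; ring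
  have hn : ‖(a : ℂ) + b * I‖ ≤ a + b := by
    refine (norm_add_le _ _).trans ?_
    simp [abs_of_nonneg ha, abs_of_nonneg hb]
  rw [e, norm_mul, norm_Ex]
  have := norm_exp_sub_one_le (hn.trans h)
  gcongr; linarith

theorem ang_slice {u : ℂ → ℝ} {β R t : ℝ} (h : Ang u β R) (ht : R ≤ Real.exp t) :
    volume {θ ∈ Ico (0 : ℝ) (2 * π) | 0 < Real.exp (-t) * u (Ex (t, θ))} ≤ ENNReal.ofReal β := by
  have := h _ ht
  refine le_trans (le_of_eq ?_) this
  congr 1; ext θ
  simp only [mem_ofPred_eq, Ex, om, mul_pos_iff_of_pos_left (Real.exp_pos (-t))]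

theorem lip_seg {φ : ℝ → ℝ} {L : ℝ} (hL : 0 ≤ L) (hc : Continuous φ) (h0 : ∀ s, 0 ≤ φ s)
    (hd : ∀ s, 0 < φ s → ∃ φ', HasDerivAt φ φ' s ∧ -L ≤ φ') : φ 0 - L ≤ φ 1 := by
  have := image_le_of_liminf_slope_right_le_deriv_boundary (f := fun s => -φ s) (a := 0) (b := 1)
    hc.neg.continuousOn (B := fun s => -φ 0 + L * s) (B' := fun _ => L) (by simp)
    (by fun_prop) (fun x _ => by
      simpa using (((hasDerivAt_id x).const_mul L).const_add (-φ 0)).hasDerivWithinAt)
    (fun x _ r hr => by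
      rcases (h0 x).lt_or_eq with h | h
      · obtain ⟨φ', h1, h2⟩ := hd x h
        exact h1.neg.hasDerivWithinAt.liminf_right_slope_le (by linarith)
      · refine Eventually.frequently ?_
        filter_upwards [self_mem_nhdsWithin] with z hz
        rw [slope_def_field, ← h]
        have h3 : 0 < z - x := sub_pos.2 hz
        have : (-φ z - -0) / (z - x) ≤ 0 := div_nonpos_of_nonpos_of_nonneg (by linarith [h0 z]) h3.le
        linarith) (x := 1) (by simp)
  linarith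

theorem no_bumps {J : ℝ → ℝ} {t0 M l j : ℝ} (hJ : Continuous J) (h0 : ∀ t, 0 ≤ J t) (hl : 0 < l)
    (hj : 0 < j) (hM : ∀ t, t0 ≤ t → ∫ s in t0..t, J s ≤ M)
    (hb : ∀ T, ∃ t, T ≤ t ∧ ∀ s ∈ Icc t (t + l), j ≤ J s) : False := by
  have key : ∀ n : ℕ, ∃ T, t0 ≤ T ∧ n * (l * j) ≤ ∫ s in t0..T, J s := by
    intro n
    induction n with
    | zero => exact ⟨t0, le_rfl, by simp⟩
    | succ n ih =>
      obtain ⟨T, hT, h⟩ := ih
      obtain ⟨t, ht, h1⟩ := hb T
      refine ⟨t + l, by linarith, ?_⟩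
      rw [← intervalIntegral.integral_add_adjacent_intervals (b := T) (hJ.intervalIntegrable _ _)
        (hJ.intervalIntegrable _ _), ← intervalIntegral.integral_add_adjacent_intervals (a := T)
        (b := t) (hJ.intervalIntegrable _ _) (hJ.intervalIntegrable _ _)]
      have a1 : 0 ≤ ∫ s in T..t, J s := intervalIntegral.integral_nonneg ht fun s _ => h0 s
      have a2 := intervalIntegral.integral_mono_on (μ := volume) (by linarith : t ≤ t + l)
        (intervalIntegrable_const (c := j)) (hJ.intervalIntegrable _ _) h1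
      simp only [intervalIntegral.integral_const, add_sub_cancel_left, smul_eq_mul] at a2
      push_cast; linarith
  obtain ⟨n, hn⟩ := exists_nat_gt (M / (l * j))
  obtain ⟨T, hT, h⟩ := key n
  have := hM T hT
  rw [div_lt_iff₀ (by positivity)] at hn
  linarith

theorem per_lower {φ : ℝ → ℝ} {θ l j : ℝ} (hφ : Continuous φ) (h0 : ∀ s, 0 ≤ φ s)
    (hp : Function.Periodic φ (2 * π)) (hl : 0 ≤ l) (hl1 : l ≤ 1)
    (h : ∀ s ∈ Icc θ (θ + l), j ≤ φ s) : l * j ≤ ∫ s in (0 : ℝ)..(2 * π), φ s := by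
  have e := hp.intervalIntegral_add_eq θ 0
  rw [zero_add] at e
  have hpi := Real.pi_gt_three
  rw [← e, ← intervalIntegral.integral_add_adjacent_intervals (b := θ + l)
    (hφ.intervalIntegrable _ _) (hφ.intervalIntegrable _ _)]
  have a1 : 0 ≤ ∫ s in (θ + l)..(θ + 2 * π), φ s :=
    intervalIntegral.integral_nonneg (by linarith) fun s _ => h0 s
  have a2 := intervalIntegral.integral_mono_on (μ := volume) (by linarith : θ ≤ θ + l)
    (intervalIntegrable_const (c := j)) (hφ.intervalIntegrable _ _) h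
  simp only [intervalIntegral.integral_const, add_sub_cancel_left, smul_eq_mul] at a2
  linarith

theorem abs_int_le {φ : ℝ → ℝ} {C : ℝ} (h : ∀ θ, |φ θ| ≤ C) :
    |∫ θ in (0 : ℝ)..(2 * π), φ θ| ≤ 2 * π * C := by
  have := intervalIntegral.norm_integral_le_of_norm_le_const (a := 0) (b := 2 * π) (C := C)
    (f := φ) (fun θ _ => h θ)
  rw [Real.norm_eq_abs, sub_zero, abs_of_pos (by have := Real.pi_pos; positivity : 0 < 2 * π)] at this
  linarith

theorem exists_kappa {β : ℝ} (h0 : 0 ≤ β) (h : β < π) : ∃ κ, 1 < κ ∧ κ * β < π := by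
  have hpi := Real.pi_pos
  refine ⟨2 * π / (π + β), by rw [lt_div_iff₀ (by linarith)]; linarith, ?_⟩
  rw [div_mul_eq_mul_div, div_lt_iff₀ (by linarith)]; nlinarith

theorem contDiff_rdot {n : WithTop ℕ∞} : ContDiff ℝ n rdot := by
  have : rdot = fun w : ℂ => w.re • reCLM - w.im • imCLM := by
    funext w; ext <;> simp
  rw [this]
  exact (reCLM.contDiff.smul contDiff_const).sub (imCLM.contDiff.smul contDiff_const)

end Pool.Agent.P.MP_714120_an
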