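import Mathlib

/-! Dense list polynomials in three variables with integer coefficients, their derivatives,
and a positivity checker on the octant. -/

open Filter Topology Set
set_option linter.unusedVariables false

namespace Pool.Agent.P.MP_714120_an.LP

section gen
variable {α : Type}

def ladd (ad : α → α → α) : List α → List α → List α
  | [], m => m
  | a :: l, m => match m with
    | [] => a :: l
    | b :: m => ad a b :: ladd ad l m

noncomputable def lev (ev : α → ℝ) (x : ℝ) : List α → ℝ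
  | [] => 0
  | c :: l => ev c + x * lev ev x l

@[simp] theorem lev_nil (ev : α → ℝ) (x : ℝ) : lev ev x [] = 0 := rfl
@[simp] theorem lev_cons (ev : α → ℝ) (x : ℝ) (c : α) (l : List α) :
    lev ev x (c :: l) = ev c + x * lev ev x l := rfl

theorem lev_ladd {ad : α → α → α} {ev : α → ℝ} (h : ∀ a b, ev (ad a b) = ev a + ev b) (x : ℝ) :
    ∀ l m, lev ev x (ladd ad l m) = lev ev x l + lev ev x m
  | [], m => by simp [ladd]
  | a :: l, [] => by simp [ladd]
  | a :: l, b :: m => by simp [ladd, h, lev_ladd h x l m]; ring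

theorem lev_map {β : Type} {ev : α → ℝ} {ev' : β → ℝ} {f : α → β} {k k' : ℝ} (x : ℝ) :
    ∀ l : List α, (∀ a ∈ l, k' * ev' (f a) = k * ev a) → k' * lev ev' x (l.map f) = k * lev ev x l
  | [], _ => by simp
  | a :: l, h => by
    have h1 := h a (by simp)
    have h2 := lev_map x l (fun b hb => h b (by simp [hb]))
    simp only [List.map_cons, lev_cons]
    linear_combination h1 + x * h2

theorem lev_map' {β : Type} {ev : α → ℝ} {ev' : β → ℝ} {f : α → β} {k : ℝ} (x : ℝ)
    (h : ∀ a, ev' (f a) = k * ev a) (l : List α) : lev ev' x (l.map f) = k * lev ev x l := by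
  have := lev_map (ev := ev) (ev' := ev') (f := f) (k := k) (k' := 1) x l (fun a _ => by simp [h])
  simpa using this

def dfrom (sm : ℤ → α → α) : ℤ → List α → List α
  | _, [] => []
  | n, c :: l => sm n c :: dfrom sm (Int.add n 1) l

def lder (sm : ℤ → α → α) : List α → List α
  | [] => []
  | _ :: l => dfrom sm 1 l

theorem lev_dfrom {sm : ℤ → α → α} {ev : α → ℝ} (h : ∀ n a, ev (sm n a) = n * ev a) (x : ℝ) :
    ∀ (l : List α) (n : ℤ), lev ev x (dfrom sm (Int.add n 1) l) = lev ev x (dfrom sm n l) + lev ev x l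
  | [], _ => by simp [dfrom]
  | c :: l, n => by
    have := lev_dfrom h x l (Int.add n 1)
    simp only [dfrom, lev_cons, h, this]
    simp only [Int.add_def]; push_cast; ring

theorem lev_lder_cons {sm : ℤ → α → α} {ev : α → ℝ} (h : ∀ n a, ev (sm n a) = n * ev a) (x : ℝ)
    (c : α) (l : List α) :
    lev ev x (lder sm (c :: l)) = lev ev x l + x * lev ev x (lder sm l) := by
  cases l with
  | nil => simp [lder, dfrom]
  | cons c' l =>
    have := lev_dfrom h x l 1
    simp only [lder, dfrom, lev_cons, h, this]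
    push_cast; ring

def sh (ad : α → α → α) : List α → List α
  | [] => []
  | c :: l => ladd ad (c :: sh ad l) (sh ad l)

theorem lev_sh {ad : α → α → α} {ev : α → ℝ} (h : ∀ a b, ev (ad a b) = ev a + ev b) (x : ℝ) :
    ∀ l, lev ev x (sh ad l) = lev ev (1 + x) l
  | [] => by simp [sh]
  | c :: l => by simp only [sh, lev_ladd h, lev_cons, lev_sh h x l]; ring

def revpad (z : α) : ℕ → List α → List α → List α
  | 0, _, acc => acc
  | d + 1, l, acc => match l with
    | [] => revpad z d [] (z :: acc)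
    | c :: l => revpad z d l (c :: acc)

theorem lev_revpad {z : α} {ev : α → ℝ} (hz : ev z = 0) {x s : ℝ} (hxs : x * s = 1) :
    ∀ (d : ℕ) (l acc : List α), l.length ≤ d →
      s ^ d * lev ev x (revpad z d l acc) = lev ev x acc + s * lev ev s l
  | 0, l, acc, h => by
    have : l = [] := List.length_eq_zero_iff.1 (by omega)
    simp [revpad, this]
  | d + 1, [], acc, _ => by
    have := lev_revpad hz hxs d [] (z :: acc) (by simp)
    simp only [revpad, pow_succ]
    simp only [lev_cons, lev_nil, hz] at this ⊢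
    linear_combination s * this + lev ev x acc * hxs
  | d + 1, c :: l, acc, h => by
    have := lev_revpad hz hxs d l (c :: acc) (by simpa using h)
    simp only [revpad, pow_succ]
    simp only [lev_cons] at this ⊢
    linear_combination s * this + lev ev x acc * hxs

def mob (ad : α → α → α) (z : α) (d : ℕ) (l : List α) : List α := sh ad (revpad z d l [])

theorem lev_mob {ad : α → α → α} {z : α} {ev : α → ℝ} (h : ∀ a b, ev (ad a b) = ev a + ev b)
    (hz : ev z = 0) {s : ℝ} (hs : s ≠ 0) (d : ℕ) (l : List α) (hl : l.length ≤ d) :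
    s ^ d * lev ev (1 / s - 1) (mob ad z d l) = s * lev ev s l := by
  have := lev_revpad hz (x := 1 + (1 / s - 1)) (s := s) (by field_simp; ring) d l [] hl
  simpa [mob, lev_sh h] using this

def lall (f : α → Bool) : List α → Bool
  | [] => true
  | c :: l => match f c with
    | true => lall f l
    | false => false

theorem lall_iff {f : α → Bool} : ∀ {l : List α}, lall f l = true ↔ ∀ a ∈ l, f a = true
  | [] => by simp [lall]
  | c :: l => by
    cases h : f c <;> simp [lall, h, lall_iff (l := l)]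

theorem lev_zero {ev : α → ℝ} (x : ℝ) : ∀ l : List α, (∀ a ∈ l, ev a = 0) → lev ev x l = 0
  | [], _ => rfl
  | c :: l, h => by
    simp [h c (by simp), lev_zero x l (fun b hb => h b (by simp [hb]))]

theorem lev_nonneg {ev : α → ℝ} {x : ℝ} (hx : 0 ≤ x) :
    ∀ l : List α, (∀ a ∈ l, 0 ≤ ev a) → 0 ≤ lev ev x l
  | [], _ => le_rfl
  | c :: l, h => by
    have h1 := h c (by simp)
    have h2 := lev_nonneg hx l (fun b hb => h b (by simp [hb]))
    simp only [lev_cons]; positivity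

def lenle : ℕ → List α → Bool
  | _, [] => true
  | 0, _ :: _ => false
  | d + 1, _ :: l => lenle d l

theorem lenle_le : ∀ {d : ℕ} {l : List α}, lenle d l = true → l.length ≤ d
  | _, [], _ => by simp
  | 0, _ :: _, h => by simp [lenle] at h
  | d + 1, _ :: l, h => by
    have := lenle_le (d := d) (l := l) (by simpa [lenle] using h)
    simpa using this

end gen

abbrev P1 := List ℤ
abbrev P2 := List P1
abbrev P3 := List P2

def add1 : P1 → P1 → P1 := ladd Int.add
def add2 : P2 → P2 → P2 := ladd add1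
def add3 : P3 → P3 → P3 := ladd add2
def sm1 (n : ℤ) (l : P1) : P1 := l.map (Int.mul n)
def sm2 (n : ℤ) (l : P2) : P2 := l.map (sm1 n)
def sm3 (n : ℤ) (l : P3) : P3 := l.map (sm2 n)
noncomputable def ev0 (c : ℤ) : ℝ := c
noncomputable def ev1 (z : ℝ) : P1 → ℝ := lev ev0 z
noncomputable def ev2 (y z : ℝ) : P2 → ℝ := lev (ev1 z) y
noncomputable def ev3 (x y z : ℝ) : P3 → ℝ := lev (ev2 y z) x

theorem ev0_add (a b : ℤ) : ev0 (Int.add a b) = ev0 a + ev0 b := by simp [ev0]
theorem ev0_mul (n a : ℤ) : ev0 (Int.mul n a) = n * ev0 a := by simp [ev0]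
theorem ev0_zero : ev0 0 = 0 := by simp [ev0]
theorem ev1_add (z : ℝ) (a b : P1) : ev1 z (add1 a b) = ev1 z a + ev1 z b := lev_ladd ev0_add z a b
theorem ev2_add (y z : ℝ) (a b : P2) : ev2 y z (add2 a b) = ev2 y z a + ev2 y z b :=
  lev_ladd (ev1_add z) y a b
@[simp] theorem ev3_add (x y z : ℝ) (a b : P3) :
    ev3 x y z (add3 a b) = ev3 x y z a + ev3 x y z b := lev_ladd (ev2_add y z) x a b
theorem ev1_sm (z : ℝ) (n : ℤ) (a : P1) : ev1 z (sm1 n a) = n * ev1 z a :=
  lev_map' z (ev0_mul n) a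
theorem ev2_sm (y z : ℝ) (n : ℤ) (a : P2) : ev2 y z (sm2 n a) = n * ev2 y z a :=
  lev_map' y (ev1_sm z n) a
@[simp] theorem ev3_sm (x y z : ℝ) (n : ℤ) (a : P3) : ev3 x y z (sm3 n a) = n * ev3 x y z a :=
  lev_map' x (ev2_sm y z n) a
theorem ev1_nil (z : ℝ) : ev1 z [] = 0 := rfl
theorem ev2_nil (y z : ℝ) : ev2 y z [] = 0 := rfl
theorem ev1_cons (z : ℝ) (c : ℤ) (l : P1) : ev1 z (c :: l) = c + z * ev1 z l := rfl
theorem ev2_cons (y z : ℝ) (c : P1) (l : P2) : ev2 y z (c :: l) = ev1 z c + y * ev2 y z l := rfl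
theorem ev3_nil (x y z : ℝ) : ev3 x y z [] = 0 := rfl
theorem ev3_cons (x y z : ℝ) (c : P2) (l : P3) :
    ev3 x y z (c :: l) = ev2 y z c + x * ev3 x y z l := rfl

def mX (P : P3) : P3 := [] :: P
def mY (P : P3) : P3 := P.map (List.cons [])
def mZ (P : P3) : P3 := P.map (List.map (List.cons 0))
@[simp] theorem ev3_mX (x y z : ℝ) (P : P3) : ev3 x y z (mX P) = x * ev3 x y z P := by
  simp [mX, ev3_cons, ev2_nil]
@[simp] theorem ev3_mY (x y z : ℝ) (P : P3) : ev3 x y z (mY P) = y * ev3 x y z P :=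
  lev_map' x (fun a => by simp [ev2_cons, ev1_nil]) P
@[simp] theorem ev3_mZ (x y z : ℝ) (P : P3) : ev3 x y z (mZ P) = z * ev3 x y z P :=
  lev_map' x (fun a => lev_map' y (fun b => by simp [ev1_cons]) a) P

def sub3 (a b : P3) : P3 := add3 a (sm3 (-1) b)
@[simp] theorem ev3_sub (x y z : ℝ) (a b : P3) :
    ev3 x y z (sub3 a b) = ev3 x y z a - ev3 x y z b := by simp [sub3]; ring

def dX (P : P3) : P3 := lder sm2 P
def dY (P : P3) : P3 := P.map (lder sm1)
def dZ (P : P3) : P3 := P.map (List.map (lder Int.mul))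

section deriv
variable {E : Type} [NormedAddCommGroup E] [NormedSpace ℝ E]

theorem hasFDerivAt_ev1 {C : E → ℝ} {C' : E →L[ℝ] ℝ} {q : E} (hC : HasFDerivAt C C' q) :
    ∀ l : P1, HasFDerivAt (fun q => ev1 (C q) l) (ev1 (C q) (lder Int.mul l) • C') q
  | [] => by simpa [ev1, lder] using hasFDerivAt_const (0 : ℝ) q
  | c :: l => by
    have h := (hC.mul (hasFDerivAt_ev1 hC l)).const_add (c : ℝ)
    have e : ev1 (C q) (lder Int.mul (c :: l)) =
      ev1 (C q) l + C q * ev1 (C q) (lder Int.mul l) := lev_lder_cons ev0_mul _ c l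
    refine HasFDerivAt.congr_fderiv h ?_
    rw [e]; ext v; simp; ring

theorem hasFDerivAt_ev2 {B C : E → ℝ} {B' C' : E →L[ℝ] ℝ} {q : E} (hB : HasFDerivAt B B' q)
    (hC : HasFDerivAt C C' q) : ∀ l : P2, HasFDerivAt (fun q => ev2 (B q) (C q) l)
      (ev2 (B q) (C q) (lder sm1 l) • B' + ev2 (B q) (C q) (l.map (lder Int.mul)) • C') q
  | [] => by simpa [ev2, lder] using hasFDerivAt_const (0 : ℝ) q
  | c :: l => by
    have h := (hasFDerivAt_ev1 hC c).add (hB.mul (hasFDerivAt_ev2 hB hC l))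
    have e : ev2 (B q) (C q) (lder sm1 (c :: l)) =
      ev2 (B q) (C q) l + B q * ev2 (B q) (C q) (lder sm1 l) := lev_lder_cons (ev1_sm _) _ c l
    refine HasFDerivAt.congr_fderiv h ?_
    rw [e, List.map_cons, ev2_cons]; ext v; simp; ring

theorem hasFDerivAt_ev3 {A B C : E → ℝ} {A' B' C' : E →L[ℝ] ℝ} {q : E} (hA : HasFDerivAt A A' q)
    (hB : HasFDerivAt B B' q) (hC : HasFDerivAt C C' q) :
    ∀ l : P3, HasFDerivAt (fun q => ev3 (A q) (B q) (C q) l)
      (ev3 (A q) (B q) (C q) (dX l) • A' + ev3 (A q) (B q) (C q) (dY l) • B' +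
        ev3 (A q) (B q) (C q) (dZ l) • C') q
  | [] => by simpa [ev3, lder, dX, dY, dZ] using hasFDerivAt_const (0 : ℝ) q
  | c :: l => by
    have h := (hasFDerivAt_ev2 hB hC c).add (hA.mul (hasFDerivAt_ev3 hA hB hC l))
    have e : ev3 (A q) (B q) (C q) (dX (c :: l)) =
      ev3 (A q) (B q) (C q) l + A q * ev3 (A q) (B q) (C q) (dX l) :=
      lev_lder_cons (ev2_sm _ _) _ c l
    refine HasFDerivAt.congr_fderiv h ?_
    rw [e]
    simp only [dY, dZ, List.map_cons, ev3_cons]; ext v; simp; ring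

theorem contDiffAt_ev1 {n : WithTop ℕ∞} {C : E → ℝ} {q : E} (hC : ContDiffAt ℝ n C q) :
    ∀ l : P1, ContDiffAt ℝ n (fun q => ev1 (C q) l) q
  | [] => contDiffAt_const
  | c :: l => contDiffAt_const.add (hC.mul (contDiffAt_ev1 hC l))

theorem contDiffAt_ev2 {n : WithTop ℕ∞} {B C : E → ℝ} {q : E} (hB : ContDiffAt ℝ n B q)
    (hC : ContDiffAt ℝ n C q) : ∀ l : P2, ContDiffAt ℝ n (fun q => ev2 (B q) (C q) l) q
  | [] => contDiffAt_const
  | c :: l => (contDiffAt_ev1 hC c).add (hB.mul (contDiffAt_ev2 hB hC l))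

theorem contDiffAt_ev3 {n : WithTop ℕ∞} {A B C : E → ℝ} {q : E} (hA : ContDiffAt ℝ n A q)
    (hB : ContDiffAt ℝ n B q) (hC : ContDiffAt ℝ n C q) :
    ∀ l : P3, ContDiffAt ℝ n (fun q => ev3 (A q) (B q) (C q) l) q
  | [] => contDiffAt_const
  | c :: l => (contDiffAt_ev2 hB hC c).add (hA.mul (contDiffAt_ev3 hA hB hC l))

theorem continuous_ev3 {A B C : E → ℝ} (hA : ContDiff ℝ 0 A) (hB : ContDiff ℝ 0 B)
    (hC : ContDiff ℝ 0 C) (l : P3) : Continuous (fun q => ev3 (A q) (B q) (C q) l) :=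
  continuous_iff_continuousAt.2 fun _ =>
    (contDiffAt_ev3 hA.contDiffAt hB.contDiffAt hC.contDiffAt l).continuousAt

end deriv

def isz0 : ℤ → Bool
  | .ofNat n => Nat.beq n 0
  | .negSucc _ => false
def nn0 : ℤ → Bool
  | .ofNat _ => true
  | .negSucc _ => false
def isz3 (P : P3) : Bool := lall (lall (lall isz0)) P
def nn3 (P : P3) : Bool := lall (lall (lall nn0)) P

theorem isz0_ev {c : ℤ} (h : isz0 c = true) : ev0 c = 0 := by
  cases c with
  | ofNat n => simp [isz0] at h; simp [ev0, h]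
  | negSucc n => simp [isz0] at h

theorem nn0_ev {c : ℤ} (h : nn0 c = true) : 0 ≤ ev0 c := by
  cases c with
  | ofNat n => simp [ev0]
  | negSucc n => simp [nn0] at h

theorem isz3_ev {P : P3} (h : isz3 P = true) (x y z : ℝ) : ev3 x y z P = 0 :=
  lev_zero x P fun a ha => lev_zero y a fun b hb => lev_zero z b fun c hc =>
    isz0_ev (lall_iff.1 (lall_iff.1 (lall_iff.1 h a ha) b hb) c hc)

/-- nonnegative on the closed octant -/
def NN (P : P3) : Prop := ∀ x y z : ℝ, 0 ≤ x → 0 ≤ y → 0 ≤ z → 0 ≤ ev3 x y z P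

theorem nn3_NN {P : P3} (h : nn3 P = true) : NN P := fun x y z hx hy hz =>
  lev_nonneg hx P fun a ha => lev_nonneg hy a fun b hb => lev_nonneg hz b fun c hc =>
    nn0_ev (lall_iff.1 (lall_iff.1 (lall_iff.1 h a ha) b hb) c hc)

def shX (P : P3) : P3 := sh add2 P
def shY (P : P3) : P3 := P.map (sh add1)
def shZ (P : P3) : P3 := P.map (List.map (sh Int.add))
def mobX (d : ℕ) (P : P3) : P3 := mob add2 [] d P
def mobY (d : ℕ) (P : P3) : P3 := P.map (mob add1 [] d)
def mobZ (d : ℕ) (P : P3) : P3 := P.map (List.map (mob Int.add 0 d))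
def lenX (d : ℕ) (P : P3) : Bool := lenle d P
def lenY (d : ℕ) (P : P3) : Bool := lall (lenle d) P
def lenZ (d : ℕ) (P : P3) : Bool := lall (lall (lenle d)) P

theorem ev3_shX (x y z : ℝ) (P : P3) : ev3 x y z (shX P) = ev3 (1 + x) y z P :=
  lev_sh (ev2_add y z) x P
theorem ev3_shY (x y z : ℝ) (P : P3) : ev3 x y z (shY P) = ev3 x (1 + y) z P := by
  have := lev_map' (ev := ev2 (1 + y) z) (ev' := ev2 y z) (f := sh add1) (k := 1) x
    (fun a => by rw [one_mul]; exact lev_sh (ev1_add z) y a) P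
  rw [one_mul] at this; exact this
theorem ev3_shZ (x y z : ℝ) (P : P3) : ev3 x y z (shZ P) = ev3 x y (1 + z) P := by
  have := lev_map' (ev := ev2 y (1 + z)) (ev' := ev2 y z) (f := List.map (sh Int.add)) (k := 1) x
    (fun a => lev_map' (ev := ev1 (1 + z)) (ev' := ev1 z) y
      (fun b => by rw [one_mul]; exact lev_sh ev0_add z b) a) P
  rw [one_mul] at this; exact this

theorem ev3_mobX {d : ℕ} {P : P3} (h : lenX d P = true) {s : ℝ} (hs : s ≠ 0) (y z : ℝ) :
    s ^ d * ev3 (1 / s - 1) y z (mobX d P) = s * ev3 s y z P :=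
  lev_mob (ev2_add y z) rfl hs d P (lenle_le h)
theorem ev3_mobY {d : ℕ} {P : P3} (h : lenY d P = true) {s : ℝ} (hs : s ≠ 0) (x z : ℝ) :
    s ^ d * ev3 x (1 / s - 1) z (mobY d P) = s * ev3 x s z P :=
  lev_map x P fun a ha => lev_mob (ev1_add z) rfl hs d a (lenle_le (lall_iff.1 h a ha))
theorem ev3_mobZ {d : ℕ} {P : P3} (h : lenZ d P = true) {s : ℝ} (hs : s ≠ 0) (x y : ℝ) :
    s ^ d * ev3 x y (1 / s - 1) (mobZ d P) = s * ev3 x y s P :=
  lev_map x P fun a ha => lev_map y a fun b hb =>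
    lev_mob ev0_add ev0_zero hs d b (lenle_le (lall_iff.1 (lall_iff.1 h a ha) b hb))

theorem unit_of {φ ψ : ℝ → ℝ} {d : ℕ} (hφ : Continuous φ)
    (h : ∀ s, s ≠ 0 → s ^ d * ψ (1 / s - 1) = s * φ s) (hψ : ∀ x, 0 ≤ x → 0 ≤ ψ x)
    {s : ℝ} (h0 : 0 ≤ s) (h1 : s ≤ 1) : 0 ≤ φ s := by
  have key : ∀ s, 0 < s → s ≤ 1 → 0 ≤ φ s := fun s h0 h1 => by
    have h2 : 0 ≤ 1 / s - 1 := by
      rw [sub_nonneg, le_div_iff₀ h0]; linarith
    have h3 : 0 ≤ s * φ s := by rw [← h s h0.ne']; exact mul_nonneg (by positivity) (hψ _ h2)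
    exact nonneg_of_mul_nonneg_right h3 h0 |> fun h => h
  rcases h0.lt_or_eq with h0 | rfl
  · exact key s h0 h1
  · have : Tendsto φ (𝓝[>] 0) (𝓝 (φ 0)) := hφ.continuousAt.tendsto.mono_left nhdsWithin_le_nhds
    refine ge_of_tendsto this ?_
    filter_upwards [Ioo_mem_nhdsGT (zero_lt_one' ℝ)] with s hs using key s hs.1 hs.2.le

theorem unitX {d : ℕ} {P : P3} (h : lenX d P = true) {s y z : ℝ}
    (hψ : ∀ x, 0 ≤ x → 0 ≤ ev3 x y z (mobX d P)) (h0 : 0 ≤ s) (h1 : s ≤ 1) : 0 ≤ ev3 s y z P :=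
  unit_of (φ := fun s => ev3 s y z P) (ψ := fun x => ev3 x y z (mobX d P))
    (continuous_ev3 contDiff_id contDiff_const contDiff_const P)
    (fun _ hs => ev3_mobX h hs y z) hψ h0 h1
theorem unitY {d : ℕ} {P : P3} (h : lenY d P = true) {s x z : ℝ}
    (hψ : ∀ y, 0 ≤ y → 0 ≤ ev3 x y z (mobY d P)) (h0 : 0 ≤ s) (h1 : s ≤ 1) : 0 ≤ ev3 x s z P :=
  unit_of (φ := fun s => ev3 x s z P) (ψ := fun y => ev3 x y z (mobY d P))
    (continuous_ev3 contDiff_const contDiff_id contDiff_const P)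
    (fun _ hs => ev3_mobY h hs x z) hψ h0 h1
theorem unitZ {d : ℕ} {P : P3} (h : lenZ d P = true) {s x y : ℝ}
    (hψ : ∀ z, 0 ≤ z → 0 ≤ ev3 x y z (mobZ d P)) (h0 : 0 ≤ s) (h1 : s ≤ 1) : 0 ≤ ev3 x y s P :=
  unit_of (φ := fun s => ev3 x y s P) (ψ := fun z => ev3 x y z (mobZ d P))
    (continuous_ev3 contDiff_const contDiff_const contDiff_id P)
    (fun _ hs => ev3_mobZ h hs x y) hψ h0 h1

inductive Tr
  | leaf : Tr
  | sX : Tr → Tr → Tr
  | sY : Tr → Tr → Tr
  | sZ : Tr → Tr → Tr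

def check (a b c : ℕ) : Tr → P3 → Bool
  | .leaf, P => nn3 P
  | .sX l r, P => lenX a P && (check a b c l (shX P) && check a b c r (mobX a P))
  | .sY l r, P => lenY b P && (check a b c l (shY P) && check a b c r (mobY b P))
  | .sZ l r, P => lenZ c P && (check a b c l (shZ P) && check a b c r (mobZ c P))

theorem check_NN (a b c : ℕ) : ∀ (T : Tr) (P : P3), check a b c T P = true → NN P
  | .leaf, _, h => nn3_NN h
  | .sX l r, P, h => by
    simp only [check, Bool.and_eq_true] at h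
    intro x y z hx hy hz
    rcases le_total x 1 with h1 | h1
    · exact unitX h.1 (fun x hx => check_NN a b c r _ h.2.2 x y z hx hy hz) hx h1
    · have := check_NN a b c l _ h.2.1 (x - 1) y z (by linarith) hy hz
      rwa [ev3_shX, add_sub_cancel] at this
  | .sY l r, P, h => by
    simp only [check, Bool.and_eq_true] at h
    intro x y z hx hy hz
    rcases le_total y 1 with h1 | h1
    · exact unitY h.1 (fun y hy => check_NN a b c r _ h.2.2 x y z hx hy hz) hy h1
    · have := check_NN a b c l _ h.2.1 x (y - 1) z hx (by linarith) hz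
      rwa [ev3_shY, add_sub_cancel] at this
  | .sZ l r, P, h => by
    simp only [check, Bool.and_eq_true] at h
    intro x y z hx hy hz
    rcases le_total z 1 with h1 | h1
    · exact unitZ h.1 (fun z hz => check_NN a b c r _ h.2.2 x y z hx hy hz) hz h1
    · have := check_NN a b c l _ h.2.1 x y (z - 1) hx hy (by linarith)
      rwa [ev3_shZ, add_sub_cancel] at this

def cube (a b c : ℕ) (P : P3) : P3 := mobX a (mobY b (mobZ c P))
def checkCube (a b c : ℕ) (T : Tr) (P : P3) : Bool :=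
  lenZ c P && (lenY b (mobZ c P) && (lenX a (mobY b (mobZ c P)) && check a b c T (cube a b c P)))

theorem cube_nonneg {a b c : ℕ} {T : Tr} {P : P3} (h : checkCube a b c T P = true) {x y z : ℝ}
    (hx : x ∈ Icc (0 : ℝ) 1) (hy : y ∈ Icc (0 : ℝ) 1) (hz : z ∈ Icc (0 : ℝ) 1) :
    0 ≤ ev3 x y z P := by
  simp only [checkCube, Bool.and_eq_true] at h
  have hN := check_NN a b c T _ h.2.2.2
  exact unitZ h.1 (fun z hz => unitY h.2.1 (fun y hy => unitX h.2.2.1
    (fun x hx => hN x y z hx hy hz) hx.1 hx.2) hy.1 hy.2) hz.1 hz.2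

/-- replace the third variable by its square -/
def sq1 : P1 → P1
  | [] => []
  | c :: l => c :: 0 :: sq1 l
def ev1n : P1 → P1
  | [] => []
  | c :: l => match l with
    | [] => [c]
    | _ :: l => c :: ev1n l
def sqZ (P : P3) : P3 := P.map (List.map sq1)
def evZ (P : P3) : P3 := P.map (List.map ev1n)

theorem ev1_sq1 (z : ℝ) : ∀ l : P1, ev1 z (sq1 l) = ev1 (z ^ 2) l
  | [] => rfl
  | c :: l => by simp only [sq1, ev1_cons, ev1_sq1 z l]; push_cast; ring

@[simp] theorem ev3_sqZ (x y z : ℝ) (P : P3) : ev3 x y z (sqZ P) = ev3 x y (z ^ 2) P := by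
  have := lev_map' (ev := ev2 y (z ^ 2)) (ev' := ev2 y z) (f := List.map sq1) (k := 1) x
    (fun a => lev_map' (ev := ev1 (z ^ 2)) (ev' := ev1 z) y
      (fun b => by rw [one_mul]; exact ev1_sq1 z b) a) P
  rw [one_mul] at this; exact this

/-- substitution `x = s u`, `y = σ s (1-u)`, `z = (1-s^2) v` into variables `(s,u,v)` -/
def subZ : P1 → P3
  | [] => []
  | c :: l => add3 [[[c]]] (mZ (sub3 (subZ l) (mX (mX (subZ l)))))
def subY (σ : ℤ) : P2 → P3
  | [] => []
  | c :: l => add3 (subZ c) (mX (add3 (sm3 σ (subY σ l)) (sm3 (-σ) (mY (subY σ l)))))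
def subX (σ : ℤ) : P3 → P3
  | [] => []
  | c :: l => add3 (subY σ c) (mX (mY (subX σ l)))

theorem ev3_subZ (s u v : ℝ) : ∀ l : P1, ev3 s u v (subZ l) = ev1 ((1 - s ^ 2) * v) l
  | [] => rfl
  | c :: l => by
    simp only [subZ, ev3_add, ev3_mZ, ev3_sub, ev3_mX, ev3_subZ s u v l, ev1_cons, ev3_cons,
      ev2_cons, ev3_nil, ev2_nil, ev1_nil]
    ring
theorem ev3_subY (σ : ℤ) (s u v : ℝ) :
    ∀ l : P2, ev3 s u v (subY σ l) = ev2 (σ * s * (1 - u)) ((1 - s ^ 2) * v) l
  | [] => rfl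
  | c :: l => by
    simp only [subY, ev3_add, ev3_mY, ev3_sm, ev3_mX, ev3_subY σ s u v l, ev2_cons, ev3_subZ]
    push_cast; ring
theorem ev3_subX (σ : ℤ) (s u v : ℝ) :
    ∀ l : P3, ev3 s u v (subX σ l) = ev3 (s * u) (σ * s * (1 - u)) ((1 - s ^ 2) * v) l
  | [] => rfl
  | c :: l => by
    simp only [subX, ev3_add, ev3_mY, ev3_mX, ev3_subX σ s u v l, ev3_cons, ev3_subY]
    ring

end Pool.Agent.P.MP_714120_an.LP
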