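import Pool.Agent.P.MP_714120_an.Cyl

/-! The sublinear case. -/

open Complex Filter Topology MeasureTheory Set
open scoped Real ComplexConjugate

noncomputable section
namespace Pool.Agent.P.MP_714120_an

def nu (u : ℂ → ℝ) (z : ℂ) : ℂ := ((ux u z / Wf u z : ℝ) : ℂ) + ((uy u z / Wf u z : ℝ) : ℂ) * I
def aC (u : ℂ → ℝ) (q : ℝ × ℝ) : ℝ := (wC (nu u) q).re

theorem Wf_sq (u : ℂ → ℝ) (z : ℂ) : Wf u z ^ 2 = 1 + ux u z ^ 2 + uy u z ^ 2 :=
  Real.sq_sqrt (by positivity)

theorem one_le_Wf (u : ℂ → ℝ) (z : ℂ) : 1 ≤ Wf u z :=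
  Real.one_le_sqrt.2 (by nlinarith [sq_nonneg (ux u z), sq_nonneg (uy u z)])

theorem contDiffAt_ux {u : ℂ → ℝ} {z : ℂ} (h : ContDiffAt ℝ 2 u z) : ContDiffAt ℝ 1 (ux u) z :=
  (h.fderiv_right (m := 1) le_rfl).clm_apply contDiffAt_const
theorem contDiffAt_uy {u : ℂ → ℝ} {z : ℂ} (h : ContDiffAt ℝ 2 u z) : ContDiffAt ℝ 1 (uy u) z :=
  (h.fderiv_right (m := 1) le_rfl).clm_apply contDiffAt_const
theorem contDiffAt_Wf {u : ℂ → ℝ} {z : ℂ} (h : ContDiffAt ℝ 2 u z) : ContDiffAt ℝ 1 (Wf u) z :=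
  ((contDiffAt_const.add ((contDiffAt_ux h).pow 2)).add ((contDiffAt_uy h).pow 2)).sqrt
    (by positivity)

theorem clm_apply_eq {F : Type} [NormedAddCommGroup F] [NormedSpace ℝ F] (L : ℂ →L[ℝ] F) (d : ℂ) :
    L d = d.re • L 1 + d.im • L I := by
  conv_lhs => rw [← re_add_im d]
  rw [map_add, ← map_smul, ← map_smul]; simp

theorem normSq_nu_le (u : ℂ → ℝ) (z : ℂ) : normSq (nu u z) ≤ 1 := by
  have h1 := Wf_sq u z
  have h2 := one_le_Wf u z
  rw [nu, normSq_add_mul_I, div_pow, div_pow, ← add_div, div_le_one (by positivity)]; linarith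

theorem ab_sq (u : ℂ → ℝ) (q : ℝ × ℝ) : aC u q ^ 2 + yC (nu u) q ^ 2 = normSq (nu u (Ex q)) := by
  rw [← normSq_wC, normSq_apply, aC, yC]; ring

theorem aC_le (u : ℂ → ℝ) (q : ℝ × ℝ) : |aC u q| ≤ 1 := by
  have := normSq_nu_le u (Ex q)
  rw [← ab_sq] at this
  rw [← sq_le_one_iff_abs_le_one]; nlinarith [sq_nonneg (yC (nu u) q)]

theorem polar_u {u : ℂ → ℝ} (H : Sol u) {q : ℝ × ℝ} (hq : 0 < gC u q) :
    ContDiffAt ℝ 1 (gC u) q ∧ ContDiffAt ℝ 1 (aC u) q ∧ ContDiffAt ℝ 1 (yC (nu u)) q ∧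
    fderiv ℝ (aC u) q (1, 0) + fderiv ℝ (yC (nu u)) q (0, 1) = -aC u q ∧
    ∃ W : ℝ, 1 ≤ W ∧ W ^ 2 = 1 + (W * aC u q) ^ 2 + (W * yC (nu u) q) ^ 2 ∧
      fderiv ℝ (gC u) q (1, 0) = W * aC u q - gC u q ∧
      fderiv ℝ (gC u) q (0, 1) = W * yC (nu u) q := by
  have hu := gC_pos.1 hq
  have c2 := H.c2 _ hu
  have hW := one_le_Wf u (Ex q)
  have hW0 : Wf u (Ex q) ≠ 0 := by linarith
  have n1 : ContDiffAt ℝ 1 (fun w => ux u w / Wf u w) (Ex q) :=
    (contDiffAt_ux c2).div (contDiffAt_Wf c2) hW0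
  have n2 : ContDiffAt ℝ 1 (fun w => uy u w / Wf u w) (Ex q) :=
    (contDiffAt_uy c2).div (contDiffAt_Wf c2) hW0
  have cn : ContDiffAt ℝ 1 (nu u) (Ex q) :=
    (ofRealCLM.contDiff.contDiffAt.comp _ n1).add
      ((ofRealCLM.contDiff.contDiffAt.comp _ n2).mul contDiffAt_const)
  have cg : ContDiffAt ℝ 1 (gC u) q :=
    (by fun_prop : ContDiffAt ℝ 1 (fun q : ℝ × ℝ => Real.exp (-q.1)) q).mul
      ((c2.of_le one_le_two).comp q contDiff_Ex.contDiffAt)
  have cw : ContDiffAt ℝ 1 (wC (nu u)) q :=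
    (conjCLE.contDiff.contDiffAt.comp q contDiff_om.contDiffAt).mul
      (cn.comp q contDiff_Ex.contDiffAt)
  have dn : HasFDerivAt (nu u) _ (Ex q) :=
    (ofRealCLM.hasFDerivAt.comp _ (n1.differentiableAt one_ne_zero).hasFDerivAt).add
      ((ofRealCLM.hasFDerivAt.comp _ (n2.differentiableAt one_ne_zero).hasFDerivAt).mul_const I)
  have dw : HasFDerivAt (wC (nu u)) _ q :=
    (conjCLE.hasFDerivAt.comp q (hasFDerivAt_om q)).mul (dn.comp q (hasFDerivAt_Ex q))
  have da : HasFDerivAt (aC u) _ q := reCLM.hasFDerivAt.comp q dw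
  have db : HasFDerivAt (yC (nu u)) _ q := imCLM.hasFDerivAt.comp q dw
  have hm := H.mse _ hu
  have ho : (om q).re ^ 2 + (om q).im ^ 2 = 1 := by
    have := normSq_eq_norm_sq (om q); rw [norm_om, normSq_apply] at this; linarith
  obtain ⟨g1, g2⟩ := hasFDerivAt_gC (c2.differentiableAt two_ne_zero).hasFDerivAt
  refine ⟨cg, reCLM.contDiff.contDiffAt.comp q cw, imCLM.contDiff.contDiffAt.comp q cw, ?_,
    Wf u (Ex q), hW, ?_, ?_, ?_⟩
  · rw [da.fderiv, db.fderiv]
    unfold mseAt at hm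
    set F1 := fderiv ℝ (fun w => ux u w / Wf u w) (Ex q)
    set F2 := fderiv ℝ (fun w => uy u w / Wf u w) (Ex q)
    have e1 := clm_apply_eq F1 (Ex q)
    have e2 := clm_apply_eq F2 (Ex q)
    have e3 := clm_apply_eq F1 (I * Ex q)
    have e4 := clm_apply_eq F2 (I * Ex q)
    have r1 : (Ex q).re = Real.exp q.1 * (om q).re := by simp [Ex, -ofReal_exp]
    have r2 : (Ex q).im = Real.exp q.1 * (om q).im := by simp [Ex, -ofReal_exp]
    simp only [mul_re, mul_im, I_re, I_im, r1, r2, smul_eq_mul] at e1 e2 e3 e4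
    simp [e1, e2, e3, e4, aC, wC, -ofReal_exp]
    linear_combination (Real.exp q.1 * ((om q).re ^ 2 + (om q).im ^ 2)) * hm
  · have := ab_sq u q
    rw [nu, normSq_add_mul_I] at this
    have h1 := Wf_sq u (Ex q)
    rw [mul_pow, mul_pow, add_assoc, ← mul_add, this]
    field_simp; linarith
  · rw [g1, clm_apply_eq]
    simp [aC, wC, nu, ux, uy]; field_simp
  · rw [g2, clm_apply_eq]
    simp [yC, wC, nu, ux, uy]; field_simp; ring

theorem sat_picone {κ cm : ℝ} (hκ : 1 < κ) : ∃ ε0, 0 < ε0 ∧ ε0 ≤ 1 ∧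
    ∀ v c W α β : ℝ, 0 ≤ v → v ≤ ε0 → |c| ≤ cm → 1 ≤ W → W ^ 2 = 1 + (W * α) ^ 2 + (W * β) ^ 2 →
      |v * c| ≤ 1 ∧ 2 * v * (W * β) * c - κ * (1 + c ^ 2) * v ^ 2 ≤
        (W * α - v) * α + W * β * β - v * α := by
  set l := (1 + κ) / 2 with hl
  have l1 : 1 < l := by linarith
  set μ := min (min ((l - 1) / l) ((κ - l) / 2)) (1 / 2) with hμ
  have μ0 : 0 < μ := by
    have : 0 < l - 1 := by linarith
    have : 0 < κ - l := by linarith
    positivity
  have μ1 : μ ≤ (l - 1) / l := (min_le_left _ _).trans (min_le_left _ _)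
  have μ2 : μ ≤ (κ - l) / 2 := (min_le_left _ _).trans (min_le_right _ _)
  have μ3 : μ ≤ 1 / 2 := min_le_right _ _
  have hd : 1 ≤ l * (cm ^ 2 + 1) := by nlinarith [sq_nonneg cm]
  have e1 : μ / (l * (cm ^ 2 + 1)) ≤ 1 := by rw [div_le_one (by linarith)]; linarith
  refine ⟨μ / (l * (cm ^ 2 + 1)), by positivity, e1, fun v c W α β v0 v1 hc hW hW2 => ?_⟩
  have c2 : c ^ 2 ≤ cm ^ 2 := by rw [← sq_abs c]; gcongr
  have k1 : v * (l * (cm ^ 2 + 1)) ≤ μ := by rwa [← le_div_iff₀ (by linarith)]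
  have k2 : v ^ 2 ≤ v := by nlinarith
  have k3 : l * (v ^ 2 * (c ^ 2 + 1)) ≤ μ := by
    calc _ ≤ l * (v * (cm ^ 2 + 1)) := by gcongr
      _ ≤ μ := by linarith
  have k4 : l * (v * c) ^ 2 ≤ μ := by nlinarith [sq_nonneg v]
  have k5 : l * v ^ 2 ≤ μ := by nlinarith [sq_nonneg (v * c)]
  constructor
  · rw [← sq_le_one_iff_abs_le_one]; nlinarith [sq_nonneg (v * c)]
  set X := W * α with hX
  set Y := W * β with hY
  set m := v * c with hm
  have l0 : 0 < l := by linarith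
  have s1 : 2 * m * Y * W ≤ Y ^ 2 / l + l * m ^ 2 * W ^ 2 := by
    have : 0 ≤ (Y - l * m * W) ^ 2 / l := by positivity
    have e : (Y - l * m * W) ^ 2 / l = Y ^ 2 / l + l * m ^ 2 * W ^ 2 - 2 * m * Y * W := by
      field_simp; ring
    linarith
  have s2 : W ^ 2 ≤ 1 + 2 * v ^ 2 + 2 * (X - v) ^ 2 + Y ^ 2 := by nlinarith [sq_nonneg (X - 2 * v)]
  have s3 := mul_le_mul_of_nonneg_left s2 (by positivity : 0 ≤ l * m ^ 2)
  have s4 : l * m ^ 2 * (1 + 2 * v ^ 2) ≤ κ * m ^ 2 := by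
    have := mul_le_mul_of_nonneg_right (show l * (1 + 2 * v ^ 2) ≤ κ by linarith) (sq_nonneg m)
    linarith
  have s5 : l * m ^ 2 * (2 * (X - v) ^ 2) ≤ (X - v) ^ 2 := by
    have := mul_le_mul_of_nonneg_right (show l * m ^ 2 ≤ 1 / 2 by linarith) (sq_nonneg (X - v))
    linarith
  have s6 : l * m ^ 2 * Y ^ 2 ≤ Y ^ 2 - Y ^ 2 / l := by
    have := mul_le_mul_of_nonneg_right (k4.trans μ1) (sq_nonneg Y)
    have e : (l - 1) / l * Y ^ 2 = Y ^ 2 - Y ^ 2 / l := by field_simp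
    linarith
  have s7 : κ * (1 + c ^ 2) * v ^ 2 * 1 ≤ κ * (1 + c ^ 2) * v ^ 2 * W :=
    mul_le_mul_of_nonneg_left hW (by positivity)
  have s8 : 1 * v ^ 2 ≤ κ * v ^ 2 := mul_le_mul_of_nonneg_right hκ.le (sq_nonneg v)
  have s9 : W * (2 * v * Y * c - κ * (1 + c ^ 2) * v ^ 2) ≤ W * ((X - v) * α + Y * β - v * α) := by
    have e : W * ((X - v) * α + Y * β - v * α) = (X - v) ^ 2 + Y ^ 2 - v ^ 2 := by
      rw [hX, hY]; ring
    have e2 : κ * (1 + c ^ 2) * v ^ 2 * 1 = κ * v ^ 2 + κ * m ^ 2 := by rw [hm]; ring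
    have e3 : W * (2 * v * Y * c) = 2 * m * Y * W := by rw [hm]; ring
    rw [e]; linarith
  exact le_of_mul_le_mul_left s9 (by linarith)

theorem grad_lower {W α β : ℝ} (hW : 1 ≤ W) (h : W ^ 2 = 1 + (W * α) ^ 2 + (W * β) ^ 2) :
    |W * β| - 1 ≤ W * α * α + W * β * β := by
  have h1 : |W * β| ≤ W := abs_le_of_sq_le_sq' (by nlinarith [sq_nonneg (W * α)]) (by linarith)
    |> fun h => abs_le.2 h
  have h2 : W * (W - 1) ≤ W * (W * α * α + W * β * β) := by nlinarith
  have := le_of_mul_le_mul_left h2 (by linarith)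
  linarith

theorem fderiv_mul_apply {F G : ℝ × ℝ → ℝ} {q : ℝ × ℝ} (hF : ContDiffAt ℝ 1 F q)
    (hG : ContDiffAt ℝ 1 G q) (v : ℝ × ℝ) :
    fderiv ℝ (fun q => F q * G q) q v = fderiv ℝ F q v * G q + F q * fderiv ℝ G q v := by
  have h : HasFDerivAt (fun q => F q * G q) _ q :=
    (hF.differentiableAt one_ne_zero).hasFDerivAt.mul (hG.differentiableAt one_ne_zero).hasFDerivAt
  rw [h.fderiv]; simp; ring

theorem cont_squeeze {G a : ℝ × ℝ → ℝ} (hG0 : ∀ q, 0 ≤ G q) {B : ℝ × ℝ → ℝ} (hB : Continuous B)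
    (hB0 : ∀ q, G q = 0 → B q = 0)
    (ha : ∀ q, 0 < G q → ContinuousAt a q) (hb : ∀ q, |a q| ≤ B q) : Continuous a := by
  refine continuous_iff_continuousAt.2 fun q => ?_
  rcases (hG0 q).lt_or_eq with h0 | h0
  · exact ha q h0
  · have h1 : a q = 0 := by
      have := hb q; rw [hB0 q h0.symm] at this; exact abs_nonpos_iff.1 this
    rw [ContinuousAt, h1]
    have h2 := hB.tendsto q
    rw [hB0 q h0.symm] at h2
    exact squeeze_zero_norm hb h2

theorem sub : S_Sub := by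
  intro u β R H hang hβ0 hβ hsub
  have hpi := Real.pi_pos
  obtain ⟨κ, hκ1, hκβ⟩ := exists_kappa hβ0 hβ
  have cg := gC_cont H.cont
  have g0 : ∀ q, 0 ≤ gC u q := fun q => mul_nonneg (Real.exp_pos _).le (H.nonneg _)
  have pg : ∀ t θ, gC u (t, θ + 2 * π) = gC u (t, θ) := fun t θ => by simp only [gC, Ex_per]
  have py : ∀ t θ, yC (nu u) (t, θ + 2 * π) = yC (nu u) (t, θ) := fun t θ => by
    simp only [yC, wC, Ex_per, om_per]
  have pa : ∀ t θ, aC u (t, θ + 2 * π) = aC u (t, θ) := fun t θ => by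
    simp only [aC, wC, Ex_per, om_per]
  have hl : ∀ t : ℝ, Continuous fun θ : ℝ => ((t, θ) : ℝ × ℝ) := fun t => by fun_prop
  have hA : ∀ t, R ≤ Real.exp t → ∃ θ0, gC u (t, θ0) = 0 ∧ ∃ c : ℝ → ℝ,
      ∀ θ ∈ Icc θ0 (θ0 + 2 * π), |c θ| ≤ Real.tan (κ * β / 2) ∧
        (0 < gC u (t, θ) → HasDerivAt c (-(κ * (1 + c θ ^ 2))) θ) := fun t ht =>
    angle (fun θ => gC u (t, θ)) β κ (cg.comp (hl t)) (fun θ => g0 _) (pg t) (ang_slice hang ht)
      hβ0 hκ1.le hκβ
  set Z : ℝ → ℝ := fun t => ∫ θ in (0 : ℝ)..(2 * π), gC u (t, θ) * aC u (t, θ) with hZ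
  have va : ∀ q, |gC u q * aC u q| ≤ gC u q := fun q => by
    rw [abs_mul, abs_of_nonneg (g0 q)]
    exact mul_le_of_le_one_right (g0 q) (aC_le u q)
  have small : ∀ ε, 0 < ε → ∃ T, ∀ q : ℝ × ℝ, T ≤ q.1 → gC u q ≤ ε := fun ε hε => by
    obtain ⟨R', h⟩ := hsub ε hε
    refine ⟨R', fun q hq => ?_⟩
    have := h (Ex q) (by rw [norm_Ex]; linarith [Real.add_one_le_exp q.1])
    rw [norm_Ex, ← gC_mul u, mul_comm] at this
    exact le_of_mul_le_mul_right this (Real.exp_pos _)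
  -- monotonicity for large radii
  obtain ⟨ε0, hε0, hε1, hsat⟩ := sat_picone (cm := Real.tan (κ * β / 2)) hκ1
  obtain ⟨T0, hT0⟩ := small ε0 hε0
  have monoZ : ∀ t1 t2, max T0 R ≤ t1 → t1 ≤ t2 → Z t1 ≤ Z t2 := by
    intro t1 t2 h1 h2
    have hm := mono (gC u) (fun q => gC u q * aC u q) (fun q => gC u q * yC (nu u) q) (fun _ => 0)
      t1 t2 2 h2 zero_le_two cg g0 continuous_const pg (fun t θ => by simp only [pg, pa])
      (fun t θ => by simp only [pg, py]) (fun _ _ => rfl)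
      (fun q hq => by
        obtain ⟨c1, c2, c3, -⟩ := polar_u H hq
        exact ⟨c1, c1.mul c2, c1.mul c3⟩)
      (fun q _ => ⟨by linarith [va q, g0 q], by linarith [g0 q]⟩)
      (fun t ht => by
        obtain ⟨θ1, e1, c, hc⟩ := hA t (by
          linarith [Real.add_one_le_exp t, le_max_right T0 R, ht.1])
        refine ⟨θ1, fun θ => gC u (t, θ) ^ 2 * c θ, Or.inl e1, fun θ hθ hq => ?_⟩
        obtain ⟨c1, c2, c3, hdiv, W, hW, hW2, d1, d2⟩ := polar_u H hq
        have hv := hT0 (t, θ) (by linarith [le_max_left T0 R, ht.1])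
        obtain ⟨s1, s2⟩ := hsat _ _ _ _ _ hq.le hv (hc θ hθ).1 hW hW2
        have dl : HasDerivAt (fun θ : ℝ => ((t, θ) : ℝ × ℝ)) (0, 1) θ :=
          (hasDerivAt_const θ t).prodMk (hasDerivAt_id θ)
        have dg := (c1.differentiableAt one_ne_zero).hasFDerivAt.comp_hasDerivAt θ dl
        rw [d2] at dg
        refine ⟨_, (dg.pow 2).mul ((hc θ hθ).2 hq), ?_, ?_⟩
        · rw [fderiv_mul_apply c1 c2, fderiv_mul_apply c1 c3, d1, d2]
          have : gC u (t, θ) * fderiv ℝ (aC u) (t, θ) (1, 0) +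
              gC u (t, θ) * fderiv ℝ (yC (nu u)) (t, θ) (0, 1) = -(gC u (t, θ) * aC u (t, θ)) := by
            rw [← mul_add, hdiv]; ring
          simp only [Function.comp_apply, Pi.pow_apply]
          push_cast
          linarith
        · rw [d1, d2]
          have a1 := grad_lower hW hW2
          have a2 : gC u (t, θ) * c θ * (W * yC (nu u) (t, θ)) ≤ |W * yC (nu u) (t, θ)| := by
            refine (le_abs_self _).trans ?_
            rw [abs_mul]; exact mul_le_of_le_one_left (abs_nonneg _) s1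
          have a3 := (abs_le.1 (va (t, θ))).2
          have a4 : gC u (t, θ) * c θ * (W * yC (nu u) (t, θ)) - 2 ≤
              (W * aC u (t, θ) - gC u (t, θ)) * aC u (t, θ) +
                W * yC (nu u) (t, θ) * yC (nu u) (t, θ) := by linarith
          have a5 := mul_le_mul_of_nonneg_left a4 hq.le
          linarith)
    simp only [intervalIntegral.integral_zero] at hm
    simp only [hZ]; linarith
  -- positivity
  by_contra hcon
  push Not at hcon
  obtain ⟨z0, hz0⟩ := hcon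
  obtain ⟨q1, hq1⟩ : ∃ q1, 0 < gC u q1 := by
    have h0 : 0 < u z0 := (H.nonneg z0).lt_of_ne hz0.symm
    have h1 : ∀ᶠ z in 𝓝[≠] (0 : ℂ), z0 = 0 → 0 < u z := by
      by_cases h : z0 = 0
      · subst h
        exact ((H.cont.continuousAt.eventually (lt_mem_nhds h0)).filter_mono
          nhdsWithin_le_nhds).mono fun z hz _ => hz
      · exact Eventually.of_forall fun z h' => absurd h' h
    by_cases h : z0 = 0
    · obtain ⟨z, h2, h3⟩ := (h1.and self_mem_nhdsWithin).exists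
      exact ⟨_, gC_pos.2 (by rw [Ex_surj h3]; exact h2 h)⟩
    · exact ⟨_, gC_pos.2 (by rw [Ex_surj h]; exact h0)⟩
  obtain ⟨q2, hq2, hq3⟩ : ∃ q2, 0 < gC u q2 ∧ 0 < aC u q2 ^ 2 + yC (nu u) q2 ^ 2 := by
    by_contra hcon
    push Not at hcon
    obtain ⟨θ0, hθ0, -⟩ := hA R (by linarith [Real.add_one_le_exp R])
    have := lip_seg (φ := fun s : ℝ => u (Ex (q1 + s • ((R, θ0) - q1)))) (L := 0) le_rfl
      (H.cont.comp ((contDiff_Ex (n := 0)).continuous.comp (by fun_prop))) (fun s => H.nonneg _)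
      (fun s hs => by
        have h1 : HasDerivAt (fun s : ℝ => q1 + s • ((R, θ0) - q1)) ((R, θ0) - q1) s := by
          simpa using ((hasDerivAt_id s).smul_const ((R, θ0) - q1)).const_add q1
        have h2 := ((H.c2 _ hs).differentiableAt two_ne_zero).hasFDerivAt.comp_hasDerivAt s
          ((hasFDerivAt_Ex _).comp_hasDerivAt s h1)
        refine ⟨_, h2, ?_⟩
        have h3 := hcon _ (gC_pos.2 hs)
        rw [ab_sq, nu, normSq_add_mul_I, div_pow, div_pow, ← add_div,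
          div_le_iff₀ (by have := one_le_Wf u (Ex (q1 + s • ((R, θ0) - q1))); positivity)] at h3
        have h4 : ux u (Ex (q1 + s • ((R, θ0) - q1))) = 0 := by
          nlinarith [sq_nonneg (ux u (Ex (q1 + s • ((R, θ0) - q1)))),
            sq_nonneg (uy u (Ex (q1 + s • ((R, θ0) - q1))))]
        have h5 : uy u (Ex (q1 + s • ((R, θ0) - q1))) = 0 := by
          nlinarith [sq_nonneg (ux u (Ex (q1 + s • ((R, θ0) - q1)))),
            sq_nonneg (uy u (Ex (q1 + s • ((R, θ0) - q1))))]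
        rw [clm_apply_eq]
        unfold ux at h4; unfold uy at h5
        rw [h4, h5]; simp)
    simp only [zero_smul, add_zero, one_smul, add_sub_cancel, sub_zero] at this
    rw [← gC_mul u (R, θ0), hθ0, mul_zero] at this
    linarith [gC_pos.1 hq1]
  set Δ : ℝ × ℝ → ℝ := fun q =>
    Real.exp (2 * q.1) * (min (gC u q) 1 * (aC u q ^ 2 + yC (nu u) q ^ 2)) with hΔ
  have ab1 : ∀ q, aC u q ^ 2 + yC (nu u) q ^ 2 ≤ 1 := fun q => by
    rw [ab_sq]; exact normSq_nu_le _ _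
  have Δ0 : ∀ q, 0 ≤ Δ q := fun q => by have := g0 q; simp only [hΔ]; positivity
  have Δ1 : ∀ q, Δ q ≤ Real.exp (2 * q.1) * gC u q := fun q => by
    refine mul_le_mul_of_nonneg_left ?_ (Real.exp_pos _).le
    have := g0 q
    exact (mul_le_of_le_one_right (by positivity) (ab1 q)).trans (min_le_left _ _)
  have cE : Continuous fun q : ℝ × ℝ => Real.exp (2 * q.1) := by fun_prop
  have cΔ : Continuous Δ := cont_squeeze g0 (cE.mul cg) (fun q h => by simp [h])
    (fun q hq => by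
      obtain ⟨c1, c2, c3, -⟩ := polar_u H hq
      exact cE.continuousAt.mul ((c1.continuousAt.min continuousAt_const).mul
        ((c2.continuousAt.pow 2).add (c3.continuousAt.pow 2))))
    (fun q => by rw [abs_of_nonneg (Δ0 q)]; exact Δ1 q)
  have pΔ : ∀ t θ, Δ (t, θ + 2 * π) = Δ (t, θ) := fun t θ => by simp only [hΔ, pg, pa, py]
  set J : ℝ → ℝ := fun t => ∫ θ in (0 : ℝ)..(2 * π), Δ (t, θ) with hJ
  have cJ : Continuous J :=
    intervalIntegral.continuous_parametric_intervalIntegral_of_continuous'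
      (f := fun t θ => Δ (t, θ)) cΔ _ _
  have J0 : ∀ t, 0 ≤ J t := fun t =>
    intervalIntegral.integral_nonneg (by positivity) fun θ _ => Δ0 _
  have Jp : 0 < J q2.1 := by
    have e := Function.Periodic.intervalIntegral_add_eq (f := fun θ => Δ (q2.1, θ)) (pΔ q2.1) q2.2 0
    rw [zero_add] at e
    simp only [hJ]; rw [← e]
    refine intervalIntegral.integral_pos (by linarith) (cΔ.comp (hl _)).continuousOn
      (fun _ _ => Δ0 _) ⟨q2.2, ⟨le_rfl, by linarith⟩, ?_⟩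
    simp only [hΔ]; positivity
  set T := max (max T0 R) (q2.1 + 1) with hT
  have jp : 0 < ∫ t in q2.1..T, J t :=
    intervalIntegral.integral_pos (by linarith [le_max_right (max T0 R) (q2.1 + 1)])
      cJ.continuousOn (fun _ _ => J0 _)
      ⟨q2.1, ⟨le_rfl, by linarith [le_max_right (max T0 R) (q2.1 + 1)]⟩, Jp⟩
  obtain ⟨U, hU⟩ := (isCompact_closedBall (0 : ℂ) (Real.exp T)).exists_bound_of_continuousOn
    H.cont.continuousOn
  have hU' : ∀ q : ℝ × ℝ, q.1 ≤ T → Real.exp q.1 * gC u q ≤ U := fun q hq => by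
    rw [gC_mul]
    refine (le_abs_self _).trans (hU _ ?_)
    rw [mem_closedBall_zero_iff, norm_Ex]; exact Real.exp_le_exp.2 hq
  have U0 : 0 ≤ U := (mul_nonneg (Real.exp_pos _).le (g0 (T, 0))).trans (hU' (T, 0) le_rfl)
  have ZT : 0 < Z T := by
    obtain ⟨t1, ht1, ht2⟩ : ∃ t1, t1 ≤ q2.1 ∧ 2 * π * (Real.exp t1 * U) < ∫ t in q2.1..T, J t := by
      have h1 : Tendsto (fun t => 2 * π * (Real.exp t * U)) atBot (𝓝 (2 * π * (0 * U))) :=
        (Real.tendsto_exp_atBot.mul_const U).const_mul _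
      rw [zero_mul, mul_zero] at h1
      exact ((eventually_le_atBot q2.1).and (h1.eventually (gt_mem_nhds jp))).exists
    have hq2T : q2.1 ≤ T := by linarith [le_max_right (max T0 R) (q2.1 + 1)]
    have e2 : ∀ t, Real.exp (2 * t) = Real.exp t * Real.exp t := fun t => by
      rw [← Real.exp_add]; ring_nf
    have hm := mono (gC u) (fun q => Real.exp (2 * q.1) * (gC u q * aC u q))
      (fun q => Real.exp (2 * q.1) * (gC u q * yC (nu u) q)) Δ
      t1 T (Real.exp (2 * T) + Real.exp T * U) (ht1.trans hq2T) (by positivity) cg g0 cΔ pg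
      (fun t θ => by simp only [pg, pa]) (fun t θ => by simp only [pg, py]) pΔ
      (fun q hq => by
        obtain ⟨c1, c2, c3, -⟩ := polar_u H hq
        have : ContDiffAt ℝ 1 (fun q : ℝ × ℝ => Real.exp (2 * q.1)) q := by fun_prop
        exact ⟨c1, this.mul (c1.mul c2), this.mul (c1.mul c3)⟩)
      (fun q hq => by
        have a1 : Real.exp (2 * q.1) * gC u q ≤ Real.exp (2 * T) * gC u q :=
          mul_le_mul_of_nonneg_right (Real.exp_le_exp.2 (by linarith [hq.2])) (g0 q)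
        have a2 : 0 ≤ Real.exp T * U * gC u q := by have := g0 q; positivity
        have a3 := mul_le_mul_of_nonneg_left (va q) (Real.exp_pos (2 * q.1)).le
        constructor
        · rw [abs_mul, abs_of_pos (Real.exp_pos _)]; linarith
        · linarith [Δ1 q])
      (fun t ht => by
        refine ⟨0, fun _ => 0, Or.inr rfl, fun θ _ hq => ⟨0, hasDerivAt_const _ _, ?_, ?_⟩⟩
        · obtain ⟨c1, c2, c3, hdiv, W, hW, hW2, d1, d2⟩ := polar_u H hq
          have cE' : ContDiffAt ℝ 1 (fun q : ℝ × ℝ => Real.exp (2 * q.1)) (t, θ) := by fun_prop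
          have dE : HasFDerivAt (fun q : ℝ × ℝ => Real.exp (2 * q.1)) _ (t, θ) :=
            ((hasFDerivAt_fst (𝕜 := ℝ) (p := (t, θ))).const_mul 2).exp
          rw [fderiv_mul_apply cE' (c1.mul c2), fderiv_mul_apply cE' (c1.mul c3),
            fderiv_mul_apply c1 c2, fderiv_mul_apply c1 c3, d1, d2, dE.fderiv]
          have h1 : gC u (t, θ) * fderiv ℝ (aC u) (t, θ) (1, 0) +
              gC u (t, θ) * fderiv ℝ (yC (nu u)) (t, θ) (0, 1) = -(gC u (t, θ) * aC u (t, θ)) := by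
            rw [← mul_add, hdiv]; ring
          have h2 : min (gC u (t, θ)) 1 * (aC u (t, θ) ^ 2 + yC (nu u) (t, θ) ^ 2) ≤
              W * (aC u (t, θ) ^ 2 + yC (nu u) (t, θ) ^ 2) :=
            mul_le_mul_of_nonneg_right ((min_le_right _ _).trans hW) (by positivity)
          have h3 := mul_le_mul_of_nonneg_left h2 (Real.exp_pos (2 * t)).le
          simp only [hΔ, smul_apply, smul_eq_mul, ContinuousLinearMap.coe_fst']
          have h4 := congrArg (HMul.hMul (Real.exp (2 * t))) h1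
          linarith
        · obtain ⟨c1, c2, c3, hdiv, W, hW, hW2, d1, d2⟩ := polar_u H hq
          rw [d1, d2]
          have a1 : 0 ≤ W * (aC u (t, θ) ^ 2 + yC (nu u) (t, θ) ^ 2) := by positivity
          have a2 := (abs_le.1 (va (t, θ))).2
          have a3 : Real.exp (2 * t) * gC u (t, θ) ≤ Real.exp T * U := by
            rw [e2, mul_assoc]
            exact mul_le_mul (Real.exp_le_exp.2 ht.2) (hU' (t, θ) ht.2) (by positivity)
              (Real.exp_pos _).le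
          have a4 : -gC u (t, θ) ≤ W * (aC u (t, θ) ^ 2 + yC (nu u) (t, θ) ^ 2) -
            gC u (t, θ) * aC u (t, θ) := by linarith
          have a5 := mul_le_mul_of_nonneg_left a4
            (by positivity : 0 ≤ Real.exp (2 * t) * gC u (t, θ))
          have a6 := mul_le_mul_of_nonneg_right a3 hq.le
          have a7 : 0 ≤ Real.exp (2 * T) * gC u (t, θ) := by positivity
          simp only
          linarith)
    simp only [intervalIntegral.integral_const_mul] at hm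
    have b1 : ∫ t in q2.1..T, J t ≤ ∫ t in t1..T, J t :=
      intervalIntegral.integral_mono_interval ht1 hq2T le_rfl (Eventually.of_forall J0)
        (cJ.intervalIntegrable _ _)
    have b2 : |Real.exp (2 * t1) * Z t1| ≤ 2 * π * (Real.exp t1 * U) := by
      simp only [hZ]
      rw [← intervalIntegral.integral_const_mul]
      refine abs_int_le fun θ => ?_
      rw [abs_mul, abs_of_pos (Real.exp_pos _)]
      refine (mul_le_mul_of_nonneg_left (va _) (Real.exp_pos _).le).trans ?_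
      rw [e2, mul_assoc]
      exact mul_le_mul_of_nonneg_left (hU' (t1, θ) (ht1.trans hq2T)) (Real.exp_pos _).le
    have b3 : 0 < Real.exp (2 * T) * Z T := by
      have := (abs_le.1 b2).1
      simp only [hZ] at this ⊢
      simp only [hJ] at b1 ht2
      linarith
    exact (mul_pos_iff_of_pos_left (Real.exp_pos _)).1 b3
  obtain ⟨T1, hT1⟩ := small (Z T / (4 * π)) (by positivity)
  have f1 := monoZ T (max T T1) (le_max_left _ _) (le_max_left _ _)
  have f2 : |Z (max T T1)| ≤ 2 * π * (Z T / (4 * π)) :=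
    abs_int_le fun θ => (va _).trans (hT1 _ (le_max_right _ _))
  have f3 : 2 * π * (Z T / (4 * π)) = Z T / 2 := by field_simp; ring
  linarith [(abs_le.1 f2).2]

end Pool.Agent.P.MP_714120_an
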