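import Pool.Agent.P.MP_714120_an.Max

/-! Convexity of the squared distance to the origin along the graph. -/

open Complex Filter Topology MeasureTheory Set
open scoped Real ComplexConjugate

noncomputable section
namespace Pool.Agent.P.MP_714120_an

theorem visc {g : ℝ → ℝ} (hc : Continuous g)
    (h : ∀ s0, ∃ φ b c, J2 φ (g s0) b c ∧ 0 ≤ c ∧ ∀ s, φ s ≤ g (s0 + s)) {g' : ℝ}
    (hg : HasDerivAt g g' 0) : g 0 + g' ≤ g 1 := by
  refine le_of_forall_pos_le_add fun ε hε => ?_
  set k := g 1 - g 0 + ε with hk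
  set L : ℝ → ℝ := fun s => g s + (-k * s + ε * (s * s)) with hL
  have cL : Continuous L := by fun_prop
  obtain ⟨s0, hs0, hm⟩ := isCompact_Icc.exists_isMaxOn (nonempty_Icc.2 zero_le_one) cL.continuousOn
  have L0 : L s0 ≤ g 0 := by
    rcases hs0.1.eq_or_lt with rfl | h0
    · simp [hL]
    rcases hs0.2.eq_or_lt with rfl | h1
    · simp [hL, hk]
    exfalso
    obtain ⟨φ, b, c, j, c0, hφ⟩ := h s0
    have jid : J2 (fun s => s0 + s) s0 1 0 :=
      ⟨by simp, fun _ => 1, Eventually.of_forall fun s => (hasDerivAt_id s).const_add s0, rfl,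
        hasDerivAt_const _ _⟩
    have := (j.add ((jid.smul (-k)).add ((jid.mul jid).smul ε))).nonpos (by
      have t : Tendsto (fun s => s0 + s) (𝓝 0) (𝓝 s0) := by
        simpa using (continuous_const_add s0).tendsto 0
      filter_upwards [t.eventually (Icc_mem_nhds h0 h1)] with s hs
      have a := hm hs
      have b := hφ s
      simp only [hL, mem_ofPred_eq, add_zero, j.1] at a ⊢
      linarith)
    linarith
  have dL : HasDerivAt L (g' + (-k * 1 + ε * (1 * 0 + 0 * 1))) 0 :=
    hg.add (((hasDerivAt_id 0).const_mul (-k)).add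
      (((hasDerivAt_id 0).mul (hasDerivAt_id 0)).const_mul ε))
  have := le_of_tendsto ((hasDerivAt_iff_tendsto_slope.1 dL).mono_left (nhdsGT_le_nhdsNE 0))
    (b := 0) (by
      filter_upwards [Ioo_mem_nhdsGT zero_lt_one] with s hs
      rw [slope_def_field, sub_zero]
      refine div_nonpos_of_nonpos_of_nonneg ?_ hs.1.le
      have a := (hm (Ioo_subset_Icc_self hs)).trans L0
      simpa [hL] using a)
  linarith

theorem jet_u {u : ℂ → ℝ} (H : Sol u) {w : ℂ} (hw : 0 < u w) (d : ℂ) :
    J2 (fun s : ℝ => u (w + s * d)) (u w) (2 * (phi u w * d).re / (1 - Nf u w))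
      (2 * (dphi u w * (d + conj (phi u w) ^ 2 * conj d) ^ 2).re / (1 - Nf u w) ^ 2) := by
  have dl : ∀ s : ℝ, HasDerivAt (fun s : ℝ => w + s * d) d s := fun s => (line_deriv d s).const_add w
  have t : Tendsto (fun s : ℝ => w + s * d) (𝓝 0) (𝓝 w) := by
    simpa using (dl 0).continuousAt.tendsto
  have e : ∀ z, (2 * phi u z / (1 - (Nf u z : ℂ)) * d).re = 2 * (phi u z * d).re / (1 - Nf u z) := by
    intro z
    rw [← ofReal_one, ← ofReal_sub, div_mul_eq_mul_div, div_ofReal_re, mul_assoc]; simp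
  refine ⟨by simp, fun s => 2 * (phi u (w + s * d) * d).re / (1 - Nf u (w + s * d)), ?_, by simp, ?_⟩
  · filter_upwards [t.eventually (H.cont.continuousAt.eventually (lt_mem_nhds hw))] with s hs
    exact ((bel u H _ hs).2.2.2.1.comp_hasDerivAt s (dl s)).congr_deriv (e _)
  · have h1 : HasFDerivAt (phi u) (rlin (dphi u w) (dphi u w * conj (phi u w) ^ 2))
        (w + ((0 : ℝ) : ℂ) * d) := by
      rw [ofReal_zero, zero_mul, add_zero]; exact (bel u H w hw).2.2.1
    have dφ' := HasFDerivAt.comp_hasDerivAt (f := fun s : ℝ => w + s * d) 0 h1 (dl 0)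
    have dφ : HasDerivAt (fun s : ℝ => phi u (w + s * d)) _ 0 := dφ'
    have dr : HasDerivAt (fun s : ℝ => (phi u (w + s * d)).re) _ 0 :=
      reCLM.hasFDerivAt.comp_hasDerivAt 0 dφ
    have di : HasDerivAt (fun s : ℝ => (phi u (w + s * d)).im) _ 0 :=
      imCLM.hasFDerivAt.comp_hasDerivAt 0 dφ
    have hN : 1 - Nf u w ≠ 0 := by linarith [Nf_lt u w]
    have := (((dr.mul_const d.re).sub (di.mul_const d.im)).const_mul 2).div
      (((dr.mul dr).add (di.mul di)).const_sub 1) (by simpa [Nf, normSq_apply] using hN)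
    refine HasDerivAt.congr_deriv this ?_
    simp only [Nf, normSq_apply] at hN ⊢
    simp [sq]
    congr 1
    ring

theorem supp : S_Supp := by
  intro u H z hz z'
  set d := z' - z with hd
  have jz : ∀ w : ℂ, J2 (fun s : ℝ => normSq (w + s * d)) (normSq w) (2 * (d * conj w).re)
      (2 * normSq d + 2 * (0 * conj w).re) := fun w =>
    J2.normSq ⟨by simp, fun _ => d, Eventually.of_forall fun s => (line_deriv d s).const_add w, rfl,
      hasDerivAt_const _ _⟩
  have jg := fun w (hw : 0 < u w) => ((jet_u H hw d).mul (jet_u H hw d)).add (jz w)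
  obtain ⟨-, g1, h1, h2, -⟩ := jg z hz
  have hc := H.cont
  have := visc (g := fun s : ℝ => u (z + s * d) * u (z + s * d) + normSq (z + s * d))
    (by have := continuous_normSq; fun_prop) (fun s0 => ?_) (h2 ▸ h1.self_of_nhds)
  · have e : ((conj z + (u z : ℂ) * (2 * phi u z / (1 - (Nf u z : ℂ)))) * d).re =
        (d * conj z).re + u z * (2 * (phi u z * d).re / (1 - Nf u z)) := by
      rw [add_mul, add_re, mul_assoc, re_ofReal_mul, ← ofReal_one, ← ofReal_sub, div_mul_eq_mul_div,
        div_ofReal_re, mul_assoc, mul_comm d]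
      simp
    rw [e]
    simp only [ofReal_zero, zero_mul, add_zero, ofReal_one, one_mul, hd, add_sub_cancel] at this
    rw [← hd] at this
    linarith
  have e : ∀ s : ℝ, z + ((s0 + s : ℝ) : ℂ) * d = z + s0 * d + s * d := fun s => by push_cast; ring
  set w := z + s0 * d with hw
  rcases (H.nonneg w).eq_or_lt with h0 | h0
  · refine ⟨_, _, _, by simpa [← h0] using jz w, by have := normSq_nonneg d; positivity, fun s => ?_⟩
    rw [e]; exact le_add_of_nonneg_left (mul_self_nonneg _)
  refine ⟨_, _, _, jg w h0, ?_, fun s => by rw [e]⟩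
  have hN : 0 < 1 - Nf u w := by linarith [Nf_lt u w]
  set m := d + conj (phi u w) ^ 2 * conj d with hm
  have e1 : normSq m = normSq d * (1 - Nf u w) ^ 2 + 4 * (phi u w * d).re ^ 2 := by
    simp [hm, Nf, normSq_apply, sq]; ring
  have e2 : -(‖dphi u w‖ * normSq m) ≤ (dphi u w * m ^ 2).re := by
    rw [normSq_eq_norm_sq, ← norm_pow, ← norm_mul]
    exact (abs_le.1 (abs_re_le_norm _)).1
  have e3 := mul_le_mul_of_nonneg_right (maxp u H w h0) (normSq_nonneg m)
  have e4 := mul_le_mul_of_nonneg_left e2 h0.le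
  have e5 : 0 ≤ 2 * (normSq m + 2 * u w * (dphi u w * m ^ 2).re) / (1 - Nf u w) ^ 2 :=
    div_nonneg (by linarith) (sq_nonneg _)
  refine e5.trans_eq ?_
  rw [e1, zero_mul, zero_re]
  field_simp
  ring

end Pool.Agent.P.MP_714120_an
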